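import Mathlib
import Pool.Agent.Chud.PA

set_option autoImplicit false

namespace Pool.Agent.H951R2

open MvPolynomial Pool.Agent.Chud

/-- `F` vanishes to order at least `m` at the vector `q`: all Taylor coefficients of `F` at `q` of
order less than `m` vanish. -/
def Mult {A : Type*} [CommRing A] (F : MvPolynomial (Fin 3) A) (q : Fin 3 → A) (m : ℕ) : Prop :=
  ∀ s : Fin 3 →₀ ℕ, s.degree < m →
    coeff s (aeval (fun j => (X j + C (q j) : MvPolynomial (Fin 3) A)) F) = 0

section ring
variable {A B : Type*} [CommRing A] [CommRing B]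

theorem tr_map (f : A →+* B) (F : MvPolynomial (Fin 3) A) (q : Fin 3 → A) :
    aeval (fun j => (X j + C (f (q j)) : MvPolynomial (Fin 3) B)) (map f F) =
      map f (aeval (fun j => (X j + C (q j) : MvPolynomial (Fin 3) A)) F) := by
  induction F using MvPolynomial.induction_on with
  | C a => simp [algebraMap_eq]
  | add p q hp hq => simp only [map_add, hp, hq]
  | mul_X p i hp =>
    simp only [map_mul, hp, map_X, aeval_X, map_add, map_C]

theorem Mult.map {F : MvPolynomial (Fin 3) A} {q : Fin 3 → A} {m : ℕ} (h : Mult F q m)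
    (f : A →+* B) : Mult (map f F) (fun j => f (q j)) m := by
  intro s hs
  rw [tr_map, coeff_map, h s hs, map_zero]

theorem Mult.mono {F : MvPolynomial (Fin 3) A} {q : Fin 3 → A} {m n : ℕ} (h : Mult F q m)
    (hn : n ≤ m) : Mult F q n := fun s hs => h s (lt_of_lt_of_le hs hn)

theorem Mult.zero (F : MvPolynomial (Fin 3) A) (q : Fin 3 → A) : Mult F q 0 := by
  intro s hs
  omega

theorem tr_tr (F : MvPolynomial (Fin 3) A) (q : Fin 3 → A) :
    aeval (fun j => (X j - C (q j) : MvPolynomial (Fin 3) A))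
      (aeval (fun j => (X j + C (q j) : MvPolynomial (Fin 3) A)) F) = F := by
  induction F using MvPolynomial.induction_on with
  | C a => simp [algebraMap_eq]
  | add p q hp hq => simp only [map_add, hp, hq]
  | mul_X p i hp =>
    simp only [map_mul, hp, aeval_X, map_add]
    congr 1
    simp [algebraMap_eq]

theorem Mult.subst {F : MvPolynomial (Fin 3) A} {q : Fin 3 → A} {m : ℕ} (h : Mult F q m)
    (g : MvPolynomial (Fin 3) A →+* B) (I : Ideal B) (hg : ∀ j, g (X j - C (q j)) ∈ I) :
    g F ∈ I ^ m := by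
  set T := aeval (fun j => (X j + C (q j) : MvPolynomial (Fin 3) A)) F with hT
  have h1 : T ∈ idealOfVars (Fin 3) A ^ m := by
    rw [mem_pow_idealOfVars_iff']
    intro s hs
    exact h s hs
  set φ : MvPolynomial (Fin 3) A →+* B :=
    g.comp (aeval (fun j => (X j - C (q j) : MvPolynomial (Fin 3) A))).toRingHom with hφ
  have h2 : φ T = g F := by
    change g (aeval (fun j => (X j - C (q j) : MvPolynomial (Fin 3) A)) T) = g F
    rw [hT, tr_tr]
  have h3 : (idealOfVars (Fin 3) A) ≤ I.comap φ := by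
    rw [idealOfVars, Ideal.span_le]
    rintro _ ⟨j, rfl⟩
    change g (aeval (fun j => (X j - C (q j) : MvPolynomial (Fin 3) A)) (X j)) ∈ I
    rw [aeval_X]
    exact hg j
  have h4 : (idealOfVars (Fin 3) A) ^ m ≤ (I ^ m).comap φ :=
    (Ideal.pow_right_mono h3 m).trans (Ideal.le_comap_pow φ m)
  have h5 := h4 h1
  rw [Ideal.mem_comap, h2] at h5
  exact h5

end ring

section field
variable {k : Type*} [Field k]

theorem mult_iff_mem (F : MvPolynomial (Fin 3) k) (v : Fin 3 → k) (m : ℕ) :
    Mult F v m ↔ F ∈ mI v ^ m := by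
  rw [mI_pow_eq_comap, Ideal.mem_comap]
  change _ ↔ transE v F ∈ _
  rw [transE_apply, mem_pow_idealOfVars_iff']
  rfl

theorem mult_iff_mu {F : MvPolynomial (Fin 3) k} (hF : F ≠ 0) (v : Fin 3 → k) (m : ℕ) :
    Mult F v m ↔ m ≤ mu v F := by
  rw [mult_iff_mem, mem_mI_pow_iff v hF]

end field

end Pool.Agent.H951R2
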