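import Mathlib
import Pool.Agent.H951R2.Mult

set_option autoImplicit false

namespace Pool.Agent.H951R2

open MvPolynomial Pool.Agent.Chud

/-- scaling -/
theorem aeval_smul {K B σ : Type*} [CommRing K] [CommRing B] [Algebra K B] [Finite σ]
    {F : MvPolynomial σ K}
    {e : ℕ} (hF : F.IsHomogeneous e) (c : B) (f : σ → B) :
    aeval (fun i => c * f i) F = c ^ e * aeval f F := by
  cases nonempty_fintype σ
  rw [F.as_sum, map_sum, map_sum, Finset.mul_sum]
  apply Finset.sum_congr rfl
  intro m hm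
  have hdeg : ∑ i, m i = e := by
    have h1 := hF (mem_support_iff.1 hm)
    rw [Finsupp.weight_apply, Finsupp.sum_fintype _ _ (by simp)] at h1
    simpa using h1
  rw [aeval_monomial, aeval_monomial, Finsupp.prod_fintype _ _ (by simp),
    Finsupp.prod_fintype _ _ (by simp)]
  simp only [mul_pow]
  rw [Finset.prod_mul_distrib, Finset.prod_pow_eq_pow_sum, hdeg]
  ring

theorem eval_smul' {K σ : Type*} [CommRing K] [Finite σ] {F : MvPolynomial σ K}
    {e : ℕ} (hF : F.IsHomogeneous e) (c : K) (f : σ → K) :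
    eval (fun i => c * f i) F = c ^ e * eval f F := by
  have h1 : ∀ g : σ → K, aeval g F = eval g F := fun g => by
    rw [aeval_def, Algebra.algebraMap_self, eval₂_eq_eval_map, map_id]
  rw [← h1, ← h1]
  exact aeval_smul hF c f

/-- the nodal cubic -/
noncomputable def gam (A : Type*) [CommRing A] : MvPolynomial (Fin 3) A :=
  X 0 * X 1 * X 2 - X 0 ^ 3 - X 1 ^ 3

theorem gam_homog (A : Type*) [CommRing A] : (gam A).IsHomogeneous 3 := by
  unfold gam
  apply IsHomogeneous.sub
  · apply IsHomogeneous.sub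
    · have := ((isHomogeneous_X A (0 : Fin 3)).mul (isHomogeneous_X A (1 : Fin 3))).mul
        (isHomogeneous_X A (2 : Fin 3))
      simpa using this
    · have := (isHomogeneous_X A (0 : Fin 3)).pow 3
      simpa using this
  · have := (isHomogeneous_X A (1 : Fin 3)).pow 3
    simpa using this

/-- the parametrisation in the chart `t = 1` -/
def th {A : Type*} [CommRing A] (a : A) : Fin 3 → A := ![a ^ 2, a, 1 + a ^ 3]

variable {K : Type*} [Field K]

theorem gam_ne_zero : gam K ≠ 0 := by
  intro h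
  have := congrArg (eval (![0, 1, 0] : Fin 3 → K)) h
  simp [gam] at this

/-- restriction to the nodal cubic, chart `t = 1` -/
noncomputable def phi : MvPolynomial (Fin 3) K →ₐ[K] Polynomial K :=
  aeval (th (Polynomial.X : Polynomial K))

/-- restriction to the nodal cubic, chart `s = 1` -/
noncomputable def psi : MvPolynomial (Fin 3) K →ₐ[K] Polynomial K :=
  aeval ![(Polynomial.X : Polynomial K), Polynomial.X ^ 2, 1 + Polynomial.X ^ 3]

theorem eval_phi (F : MvPolynomial (Fin 3) K) (x : K) :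
    (phi F).eval x = eval (th x) F := by
  have h : (Polynomial.evalRingHom x).comp (phi (K := K)).toRingHom = eval (th x) := by
    apply MvPolynomial.ringHom_ext
    · intro a
      simp [phi]
    · intro i
      fin_cases i <;> simp [phi, th]
  exact DFunLike.congr_fun h F

theorem eval_psi (F : MvPolynomial (Fin 3) K) (x : K) :
    (psi F).eval x = eval (![x, x ^ 2, 1 + x ^ 3]) F := by
  have h : (Polynomial.evalRingHom x).comp (psi (K := K)).toRingHom =
      eval (![x, x ^ 2, 1 + x ^ 3]) := by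
    apply MvPolynomial.ringHom_ext
    · intro a
      simp [psi]
    · intro i
      fin_cases i <;> simp [psi]
  exact DFunLike.congr_fun h F

theorem phi_psi {F : MvPolynomial (Fin 3) K} {e : ℕ} (hF : F.IsHomogeneous e) (x : K) (hx : x ≠ 0) :
    x ^ (3 * e) * (psi F).eval x⁻¹ = (phi F).eval x := by
  rw [eval_phi, eval_psi, pow_mul, ← eval_smul' hF]
  congr 1
  congr 1
  funext i
  fin_cases i
  · change x ^ 3 * x⁻¹ = x ^ 2
    field_simp
  · change x ^ 3 * x⁻¹ ^ 2 = x
    field_simp
  · change x ^ 3 * (1 + x⁻¹ ^ 3) = 1 + x ^ 3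
    field_simp
    ring

theorem psi_phi {F : MvPolynomial (Fin 3) K} {e : ℕ} (hF : F.IsHomogeneous e) (x : K) (hx : x ≠ 0) :
    x ^ (3 * e) * (phi F).eval x⁻¹ = (psi F).eval x := by
  rw [eval_phi, eval_psi, pow_mul, ← eval_smul' hF]
  congr 1
  congr 1
  funext i
  fin_cases i
  · change x ^ 3 * x⁻¹ ^ 2 = x
    field_simp
  · change x ^ 3 * x⁻¹ = x ^ 2
    field_simp
  · change x ^ 3 * (1 + x⁻¹ ^ 3) = 1 + x ^ 3
    field_simp
    ring

theorem eval_gam (v : Fin 3 → K) : eval v (gam K) = v 0 * v 1 * v 2 - v 0 ^ 3 - v 1 ^ 3 := by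
  simp [gam]

theorem phi_gam : phi (gam K) = 0 := by
  simp only [phi, gam, map_sub, map_mul, map_pow, aeval_X, th]
  simp only [Matrix.cons_val_zero, Matrix.cons_val_one, Matrix.cons_val]
  ring

/-- the kernel of the restriction to the nodal cubic -/
theorem gam_dvd [Infinite K] {F : MvPolynomial (Fin 3) K} {e : ℕ} (hF : F.IsHomogeneous e)
    (h : phi F = 0) : gam K ∣ F := by
  set X0 : MvPolynomial (Fin 3) K := X 0 with hX0
  set X1 : MvPolynomial (Fin 3) K := X 1 with hX1
  set X2 : MvPolynomial (Fin 3) K := X 2 with hX2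
  set Θ : MvPolynomial (Fin 3) K →ₐ[K] MvPolynomial (Fin 3) K :=
    aeval ![X0 ^ 2 * X1, X0 * X1 ^ 2, X0 ^ 3 + X1 ^ 3] with hΘ
  set Ψ : MvPolynomial (Fin 3) K →ₐ[K] MvPolynomial (Fin 3) K :=
    aeval (fun i => (X0 * X1) * X i) with hΨ
  have h1 : Θ F = 0 := by
    have h2 : X1 * Θ F = 0 := by
      apply MvPolynomial.funext
      intro v
      rw [map_mul, map_zero]
      have h3 : eval v (Θ F) = eval ![v 0 ^ 2 * v 1, v 0 * v 1 ^ 2, v 0 ^ 3 + v 1 ^ 3] F := by
        have h : (eval v).comp Θ.toRingHom =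
            eval ![v 0 ^ 2 * v 1, v 0 * v 1 ^ 2, v 0 ^ 3 + v 1 ^ 3] := by
          apply MvPolynomial.ringHom_ext
          · intro a
            simp [hΘ]
          · intro i
            fin_cases i <;> simp [hΘ, hX0, hX1]
        exact DFunLike.congr_fun h F
      by_cases hv : v 1 = 0
      · rw [hX1, eval_X, hv, zero_mul]
      · have h4 : (![v 0 ^ 2 * v 1, v 0 * v 1 ^ 2, v 0 ^ 3 + v 1 ^ 3] : Fin 3 → K) =
            fun i => v 1 ^ 3 * th (v 0 / v 1) i := by
          funext i
          fin_cases i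
          · change v 0 ^ 2 * v 1 = v 1 ^ 3 * (v 0 / v 1) ^ 2
            field_simp
          · change v 0 * v 1 ^ 2 = v 1 ^ 3 * (v 0 / v 1)
            field_simp
          · change v 0 ^ 3 + v 1 ^ 3 = v 1 ^ 3 * (1 + (v 0 / v 1) ^ 3)
            field_simp
            ring
        rw [h3, h4, eval_smul' hF, ← eval_phi, h, Polynomial.eval_zero, mul_zero, mul_zero]
    rcases mul_eq_zero.1 h2 with h3 | h3
    · exact absurd h3 (X_ne_zero _)
    · exact h3
  have h2 : Ψ F = (X0 * X1) ^ e * F := by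
    rw [hΨ, aeval_smul hF]
    congr 1
    have := aeval_X_left_apply (R := K) F
    exact this
  have h3 : gam K ∣ Ψ F - Θ F := by
    rw [← Ideal.mem_span_singleton, ← Ideal.Quotient.eq]
    have h4 : (Ideal.Quotient.mk (Ideal.span {gam K})).comp Ψ.toRingHom =
        (Ideal.Quotient.mk (Ideal.span {gam K})).comp Θ.toRingHom := by
      apply MvPolynomial.ringHom_ext
      · intro a
        simp [hΘ, hΨ]
      · intro i
        change Ideal.Quotient.mk (Ideal.span {gam K}) (Ψ (X i)) =
          Ideal.Quotient.mk (Ideal.span {gam K}) (Θ (X i))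
        rw [Ideal.Quotient.eq, Ideal.mem_span_singleton, hΘ, hΨ, aeval_X, aeval_X]
        fin_cases i
        · change gam K ∣ X0 * X1 * X0 - X0 ^ 2 * X1
          rw [show X0 * X1 * X0 - X0 ^ 2 * X1 = 0 by ring]
          exact dvd_zero _
        · change gam K ∣ X0 * X1 * X1 - X0 * X1 ^ 2
          rw [show X0 * X1 * X1 - X0 * X1 ^ 2 = 0 by ring]
          exact dvd_zero _
        · change gam K ∣ X0 * X1 * X2 - (X0 ^ 3 + X1 ^ 3)
          rw [gam, show X0 * X1 * X2 - (X0 ^ 3 + X1 ^ 3) = X0 * X1 * X2 - X0 ^ 3 - X1 ^ 3 by ring]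
    exact DFunLike.congr_fun h4 F
  rw [h1, sub_zero, h2] at h3
  have irr : ∀ i : Fin 3, Irreducible (X i : MvPolynomial (Fin 3) K) := fun i => (X_prime (i := i)).irreducible
  have hr0 : IsRelPrime (gam K) X0 := by
    apply IsRelPrime.symm
    rw [(irr 0).isRelPrime_iff_not_dvd]
    rintro ⟨G, hG⟩
    have := congrArg (eval (![0, 1, 0] : Fin 3 → K)) hG
    simp [gam] at this
  have hr1 : IsRelPrime (gam K) X1 := by
    apply IsRelPrime.symm
    rw [(irr 1).isRelPrime_iff_not_dvd]
    rintro ⟨G, hG⟩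
    have := congrArg (eval (![1, 0, 0] : Fin 3 → K)) hG
    simp [gam] at this
  have hr : IsRelPrime (gam K) ((X0 * X1) ^ e) := (hr0.mul_right hr1).pow_right
  exact hr.dvd_of_dvd_mul_left h3

theorem gam_dvd_iff [Infinite K] {F : MvPolynomial (Fin 3) K} {e : ℕ} (hF : F.IsHomogeneous e) :
    gam K ∣ F ↔ phi F = 0 := by
  constructor
  · rintro ⟨G, rfl⟩
    rw [map_mul, phi_gam, zero_mul]
  · exact gam_dvd hF

/-- reversal and degrees -/
theorem deg_bound [Infinite K] {P P' : Polynomial K} {D ν : ℕ} (hP : P ≠ 0)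
    (h : ∀ x : K, x ≠ 0 → x ^ D * P'.eval x⁻¹ = P.eval x) (hν : Polynomial.X ^ ν ∣ P') :
    P.natDegree + ν ≤ D := by
  obtain ⟨R, hR⟩ := hν
  have key : Polynomial.X ^ (R.natDegree + ν) * P = Polynomial.X ^ D * R.reverse := by
    have h0 : Polynomial.X * (Polynomial.X ^ (R.natDegree + ν) * P) =
        Polynomial.X * (Polynomial.X ^ D * R.reverse) := by
      apply Polynomial.funext
      intro x
      by_cases hx : x = 0
      · simp [hx]
      · have hinv : Invertible (x⁻¹) := invertibleOfNonzero (inv_ne_zero hx)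
        have h1 := Polynomial.eval₂_reverse_mul_pow (RingHom.id K) (x⁻¹) R
        have h2 : ⅟(x⁻¹) = x := by
          rw [invOf_eq_inv, inv_inv]
        rw [h2] at h1
        change R.reverse.eval x * x⁻¹ ^ R.natDegree = R.eval x⁻¹ at h1
        simp only [Polynomial.eval_mul, Polynomial.eval_X, Polynomial.eval_pow]
        rw [← h x hx, hR]
        simp only [Polynomial.eval_mul, Polynomial.eval_X, Polynomial.eval_pow]
        rw [← h1, pow_add, inv_pow, inv_pow]
        field_simp
    exact mul_left_cancel₀ Polynomial.X_ne_zero h0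
  have hd := congrArg Polynomial.natDegree key
  have hR0 : R.reverse ≠ 0 := by
    intro h0
    rw [h0, mul_zero] at key
    rcases mul_eq_zero.1 key with h1 | h1
    · exact pow_ne_zero _ Polynomial.X_ne_zero h1
    · exact hP h1
  rw [Polynomial.natDegree_mul (pow_ne_zero _ Polynomial.X_ne_zero) hP,
    Polynomial.natDegree_mul (pow_ne_zero _ Polynomial.X_ne_zero) hR0, Polynomial.natDegree_X_pow,
    Polynomial.natDegree_X_pow] at hd
  have := Polynomial.reverse_natDegree_le R
  omega

end Pool.Agent.H951R2
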