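import Mathlib
import Pool.Agent.H951R2.Nodal

set_option autoImplicit false

namespace Pool.Agent.H951R2

open Polynomial

variable {K : Type*} [Field K]

/-- the ring `K[x,y,z][σ]` -/
abbrev Fam (K : Type*) [Field K] := Polynomial (MvPolynomial (Fin 3) K)

/-- vanishing to order `ν` along `(σ, σ, 1)` -/
def QM (ν : ℕ) (G : Fam K) : Prop :=
  ∀ (Φ : Fam K →+* Polynomial (Polynomial K)) (d : Polynomial (Polynomial K)),
    d ∣ Φ (C (MvPolynomial.X 0)) - Φ X → d ∣ Φ (C (MvPolynomial.X 1)) - Φ X →
    d ∣ Φ (C (MvPolynomial.X 2)) - 1 → d ^ ν ∣ Φ G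

/-- the section `ŵ` -/
noncomputable def wh (w : Polynomial K) : Polynomial (Polynomial K) :=
  C w + 1 - X - w.map C

/-- the moving point -/
noncomputable def Pt (w : Polynomial K) : Fin 3 → Polynomial (Polynomial K) :=
  ![C X ^ 2 + X * wh w, C X, 1 + C X ^ 3 + 2 * C X * X * wh w - 2 * X ^ 2 + X ^ 3]

theorem dvd_map_sub (w : Polynomial K) :
    (C X - X : Polynomial (Polynomial K)) ∣ C w - w.map C := by
  induction w using Polynomial.induction_on' with
  | add p q hp hq =>
    rw [C_add, Polynomial.map_add, add_sub_add_comm]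
    exact dvd_add hp hq
  | monomial n a =>
    rw [map_monomial, ← C_mul_X_pow_eq_monomial, ← C_mul_X_pow_eq_monomial, C_mul, ← mul_sub, C_pow]
    exact Dvd.dvd.mul_left (sub_dvd_pow_sub_pow _ _ n) _

/-- leading term at the branch `s = 0` -/
theorem local_branch {G : Fam K} {b ν : ℕ} {F' : ℕ → MvPolynomial (Fin 3) K}
    (hF' : ∀ l ≤ b, G.coeff l = gam K ^ (b - l) * F' l) (hQ : QM ν G) (w : Polynomial K)
    (hw : w.eval 0 = 1) :
    X ^ ν ∣ ∑ j ∈ Finset.range (b + 1), phi (F' (b - j)) * (X * w) ^ j := by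
  set Φ : Fam K →+* Polynomial (Polynomial K) :=
    eval₂RingHom (MvPolynomial.aeval (R := K) (Pt w)).toRingHom X with hΦ
  have hΦC : ∀ F : MvPolynomial (Fin 3) K, Φ (C F) = MvPolynomial.aeval (Pt w) F := by
    intro F
    rw [hΦ, coe_eval₂RingHom, eval₂_C]
    rfl
  have hΦX : Φ X = X := by
    rw [hΦ, coe_eval₂RingHom, eval₂_X]
  set d : Polynomial (Polynomial K) := C X - X with hd
  have hdw : d ∣ C w - w.map C := dvd_map_sub w
  have h0 : d ∣ Φ (C (MvPolynomial.X 0)) - Φ X := by
    rw [hΦC, hΦX, MvPolynomial.aeval_X]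
    change d ∣ C X ^ 2 + X * wh w - X
    have : (C X ^ 2 + X * wh w - X : Polynomial (Polynomial K)) =
        d * (C X + X) + X * (C w - w.map C) := by
      rw [hd, wh]; ring
    rw [this]
    exact dvd_add (dvd_mul_right _ _) (Dvd.dvd.mul_left hdw _)
  have h1 : d ∣ Φ (C (MvPolynomial.X 1)) - Φ X := by
    rw [hΦC, hΦX, MvPolynomial.aeval_X]
    exact dvd_rfl
  have h2 : d ∣ Φ (C (MvPolynomial.X 2)) - 1 := by
    rw [hΦC, MvPolynomial.aeval_X]
    change d ∣ 1 + C X ^ 3 + 2 * C X * X * wh w - 2 * X ^ 2 + X ^ 3 - 1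
    have : (1 + C X ^ 3 + 2 * C X * X * wh w - 2 * X ^ 2 + X ^ 3 - 1 : Polynomial (Polynomial K)) =
        d * (C X ^ 2 + C X * X - X ^ 2 + 2 * X) + 2 * C X * X * (C w - w.map C) := by
      rw [hd, wh]; ring
    rw [this]
    exact dvd_add (dvd_mul_right _ _) (Dvd.dvd.mul_left hdw _)
  have h3 : d ^ ν ∣ Φ G := hQ Φ d h0 h1 h2
  -- the value of `γ`
  set ζ : Polynomial (Polynomial K) :=
    wh w * C X * (1 + C X ^ 3) + (C X ^ 2 + X * wh w) * C X * (2 * C X * wh w - 2 * X + X ^ 2)
      - 3 * C X ^ 4 * wh w - 3 * C X ^ 2 * X * wh w ^ 2 - X ^ 2 * wh w ^ 3 with hζ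
  have hγ : MvPolynomial.aeval (Pt w) (gam K) = X * ζ := by
    simp only [gam, map_sub, map_mul, map_pow, MvPolynomial.aeval_X]
    change (C X ^ 2 + X * wh w) * C X * (1 + C X ^ 3 + 2 * C X * X * wh w - 2 * X ^ 2 + X ^ 3) -
      (C X ^ 2 + X * wh w) ^ 3 - C X ^ 3 = X * ζ
    rw [hζ]
    ring
  -- evaluation at `σ = 0`
  set ev : Polynomial (Polynomial K) →+* Polynomial K := evalRingHom 0 with hev
  have evC : ∀ p : Polynomial K, ev (C p) = p := fun p => by
    rw [hev, coe_evalRingHom, eval_C]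
  have evX : ev X = 0 := by
    rw [hev, coe_evalRingHom, eval_X]
  have evw : ev (wh w) = w := by
    rw [wh, map_sub, map_sub, map_add, evC, evX, map_one]
    have : ev (w.map C) = 1 := by
      rw [hev, coe_evalRingHom, eval_map, ← C_0, eval₂_at_apply, hw, C_1]
    rw [this]
    ring
  have evζ : ev ζ = X * w := by
    rw [hζ]
    simp only [map_sub, map_mul, map_add, map_pow, evC, evX, evw, map_one, map_ofNat]
    ring
  have evPt : ∀ F : MvPolynomial (Fin 3) K, ev (MvPolynomial.aeval (Pt w) F) = phi F := by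
    intro F
    have : ev.comp (MvPolynomial.aeval (R := K) (Pt w)).toRingHom = (phi (K := K)).toRingHom := by
      apply MvPolynomial.ringHom_ext
      · intro a
        simp [phi, hev]
      · intro i
        change ev (MvPolynomial.aeval (Pt w) (MvPolynomial.X i)) = phi (MvPolynomial.X i)
        rw [MvPolynomial.aeval_X, phi, MvPolynomial.aeval_X]
        fin_cases i
        · change ev (C X ^ 2 + X * wh w) = X ^ 2
          simp only [map_sub, map_mul, map_add, map_pow, evC, evX, evw, map_one, map_ofNat]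
          ring
        · change ev (C X) = X
          rw [evC]
        · change ev (1 + C X ^ 3 + 2 * C X * X * wh w - 2 * X ^ 2 + X ^ 3) = 1 + X ^ 3
          simp only [map_sub, map_mul, map_add, map_pow, evC, evX, evw, map_one, map_ofNat]
          ring
    exact DFunLike.congr_fun this F
  -- the terms
  have hterm : ∀ l, ∃ U : Polynomial (Polynomial K),
      MvPolynomial.aeval (Pt w) (G.coeff l) * X ^ l = X ^ b * U ∧
      ev U = if l ≤ b then phi (F' l) * (X * w) ^ (b - l) else 0 := by
    intro l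
    by_cases hl : l ≤ b
    · refine ⟨ζ ^ (b - l) * MvPolynomial.aeval (Pt w) (F' l), ?_, ?_⟩
      · rw [hF' l hl, map_mul, map_pow, hγ]
        have : (X : Polynomial (Polynomial K)) ^ b = X ^ (b - l) * X ^ l := by
          rw [← pow_add]; congr 1; omega
        rw [this, mul_pow]
        ring
      · rw [if_pos hl, map_mul, map_pow, evζ, evPt]
        ring
    · refine ⟨X ^ (l - b) * MvPolynomial.aeval (Pt w) (G.coeff l), ?_, ?_⟩
      · have : (X : Polynomial (Polynomial K)) ^ l = X ^ b * X ^ (l - b) := by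
          rw [← pow_add]; congr 1; omega
        rw [this]
        ring
      · rw [if_neg hl, map_mul, map_pow, evX, zero_pow (by omega), zero_mul]
  choose U hU1 hU2 using hterm
  set N := max (G.natDegree + 1) (b + 1) with hN
  have h4 : Φ G = X ^ b * ∑ l ∈ Finset.range N, U l := by
    have h5 : Φ G = ∑ l ∈ Finset.range N, MvPolynomial.aeval (Pt w) (G.coeff l) * X ^ l := by
      rw [hΦ, coe_eval₂RingHom]
      exact eval₂_eq_sum_range' _ (lt_of_lt_of_le (Nat.lt_succ_self _) (le_max_left _ _)) _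
    rw [h5, Finset.mul_sum]
    exact Finset.sum_congr rfl fun l _ => hU1 l
  have h5 : d ^ ν ∣ ∑ l ∈ Finset.range N, U l := by
    have hirr : Irreducible (X : Polynomial (Polynomial K)) := Polynomial.irreducible_X
    have hr : IsRelPrime (d ^ ν) (X ^ b : Polynomial (Polynomial K)) := by
      apply IsRelPrime.pow
      apply IsRelPrime.symm
      rw [hirr.isRelPrime_iff_not_dvd, X_dvd_iff, hd, coeff_sub, coeff_C_zero, coeff_X_zero,
        sub_zero]
      exact X_ne_zero
    rw [h4] at h3
    exact hr.dvd_of_dvd_mul_left h3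
  obtain ⟨V, hV⟩ := h5
  have h6 : ev (∑ l ∈ Finset.range N, U l) =
      ∑ j ∈ Finset.range (b + 1), phi (F' (b - j)) * (X * w) ^ j := by
    rw [map_sum]
    have h7 : Finset.range (b + 1) ⊆ Finset.range N := by
      intro x hx
      rw [Finset.mem_range] at hx ⊢
      exact lt_of_lt_of_le hx (le_max_right _ _)
    rw [← Finset.sum_subset h7]
    · rw [← Finset.sum_range_reflect]
      apply Finset.sum_congr rfl
      intro j hj
      rw [Finset.mem_range] at hj
      rw [hU2, if_pos (by omega)]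
      have e1 : b + 1 - 1 - j = b - j := by omega
      have e2 : b - (b - j) = j := by omega
      rw [e1, e2]
    · intro l _ hl
      rw [hU2, if_neg]
      intro h
      exact hl (Finset.mem_range.2 (Nat.lt_succ_of_le h))
  rw [← h6, hV, map_mul, map_pow]
  have h7 : ev d = X := by
    rw [hd, map_sub, evC, evX, sub_zero]
  rw [h7]
  exact dvd_mul_right _ _

end Pool.Agent.H951R2
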