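import Mathlib
import Pool.Agent.H951R2.Local
import Pool.Agent.Chud.PD1
import Pool.Agent.Chud.PB

set_option autoImplicit false

namespace Pool.Agent.H951R2

open Polynomial Pool.Agent.Chud

variable {K : Type*} [Field K]

theorem local_section {G : Fam K} {b ν : ℕ} {F' : ℕ → MvPolynomial (Fin 3) K}
    (hF' : ∀ l ≤ b, G.coeff l = gam K ^ (b - l) * F' l) (hQ : QM ν G) (T Q : Polynomial K)
    (h0 : Q.eval 0 ≠ 0) (h1 : T.eval 0 = Q.eval 0) :
    X ^ ν ∣ ∑ j ∈ Finset.range (b + 1), phi (F' (b - j)) * (X * T) ^ j * Q ^ (b - j) := by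
  rcases Nat.eq_zero_or_pos ν with hν | hν
  · rw [hν, pow_zero]
    exact one_dvd _
  have hcop : IsCoprime Q (X ^ ν) := by
    apply IsCoprime.pow_right
    apply IsCoprime.symm
    rw [Polynomial.irreducible_X.coprime_iff_not_dvd, X_dvd_iff, coeff_zero_eq_eval_zero]
    exact h0
  obtain ⟨u, v, huv⟩ := hcop
  set w := u * T with hw
  have hw0 : w.eval 0 = 1 := by
    have h2 := congrArg (eval 0) huv
    rw [eval_add, eval_mul, eval_mul, eval_pow, eval_X, zero_pow (by omega), mul_zero, add_zero,
      eval_one] at h2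
    rw [hw, eval_mul, h1, h2]
  have h3 := local_branch hF' hQ w hw0
  have h4 : (X ^ ν : Polynomial K) ∣ X * T - X * (Q * w) := by
    have : X * T - X * (Q * w) = X ^ ν * (v * T * X) := by
      rw [hw]
      linear_combination (-(X * T)) * huv
    rw [this]
    exact dvd_mul_right _ _
  have h5 : ∑ j ∈ Finset.range (b + 1), phi (F' (b - j)) * (X * T) ^ j * Q ^ (b - j) =
      ∑ j ∈ Finset.range (b + 1), phi (F' (b - j)) * Q ^ (b - j) * ((X * T) ^ j - (X * (Q * w)) ^ j) +
      Q ^ b * ∑ j ∈ Finset.range (b + 1), phi (F' (b - j)) * (X * w) ^ j := by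
    rw [Finset.mul_sum, ← Finset.sum_add_distrib]
    apply Finset.sum_congr rfl
    intro j hj
    rw [Finset.mem_range] at hj
    have : Q ^ b = Q ^ (b - j) * Q ^ j := by
      rw [← pow_add]; congr 1; omega
    rw [this, mul_pow X (Q * w), mul_pow Q w, mul_pow X w]
    ring
  rw [h5]
  apply dvd_add
  · apply Finset.dvd_sum
    intro j _
    apply Dvd.dvd.mul_left
    exact h4.trans (sub_dvd_pow_sub_pow _ _ j)
  · exact Dvd.dvd.mul_left h3 _

/-- exchange of the first two coordinates -/
noncomputable def sw : MvPolynomial (Fin 3) K →ₐ[K] MvPolynomial (Fin 3) K :=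
  MvPolynomial.aeval ![MvPolynomial.X 1, MvPolynomial.X 0, MvPolynomial.X 2]

theorem phi_sw (F : MvPolynomial (Fin 3) K) : phi (sw F) = psi F := by
  have h : (phi (K := K)).comp sw = psi := by
    apply MvPolynomial.algHom_ext
    intro i
    fin_cases i <;> simp [phi, psi, sw, th]
  exact DFunLike.congr_fun h F

theorem sw_gam : sw (gam K) = gam K := by
  simp only [sw, gam, map_sub, map_mul, map_pow, MvPolynomial.aeval_X]
  simp only [Matrix.cons_val_zero, Matrix.cons_val_one, Matrix.cons_val]
  ring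

theorem QM.swap {ν : ℕ} {G : Fam K} (h : QM ν G) : QM ν (G.map (sw (K := K)).toRingHom) := by
  intro Φ d h0 h1 h2
  have h3 := h (Φ.comp (mapRingHom (sw (K := K)).toRingHom)) d
  have e0 : (Φ.comp (mapRingHom (sw (K := K)).toRingHom)) (C (MvPolynomial.X 0)) =
      Φ (C (MvPolynomial.X 1)) := by
    rw [RingHom.comp_apply, coe_mapRingHom, map_C]
    congr 2
    change sw (MvPolynomial.X 0) = MvPolynomial.X 1
    simp [sw]
  have e1 : (Φ.comp (mapRingHom (sw (K := K)).toRingHom)) (C (MvPolynomial.X 1)) =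
      Φ (C (MvPolynomial.X 0)) := by
    rw [RingHom.comp_apply, coe_mapRingHom, map_C]
    congr 2
    change sw (MvPolynomial.X 1) = MvPolynomial.X 0
    simp [sw]
  have e2 : (Φ.comp (mapRingHom (sw (K := K)).toRingHom)) (C (MvPolynomial.X 2)) =
      Φ (C (MvPolynomial.X 2)) := by
    rw [RingHom.comp_apply, coe_mapRingHom, map_C]
    congr 2
    change sw (MvPolynomial.X 2) = MvPolynomial.X 2
    simp [sw]
  have eX : (Φ.comp (mapRingHom (sw (K := K)).toRingHom)) X = Φ X := by
    rw [RingHom.comp_apply, coe_mapRingHom, map_X]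
  rw [e0, e1, e2, eX] at h3
  exact h3 h1 h0 h2

theorem phi_order {F : MvPolynomial (Fin 3) K} {a : K} {m : ℕ} (h : Mult F (th a) m) :
    (X - C a) ^ m ∣ phi F := by
  have h1 := h.subst (phi (K := K)).toRingHom (Ideal.span {X - C a}) (by
    intro j
    rw [Ideal.mem_span_singleton]
    change X - C a ∣ phi (MvPolynomial.X j - MvPolynomial.C (th a j))
    rw [map_sub, phi, MvPolynomial.aeval_X]
    have e : ∀ c : K, (MvPolynomial.aeval (th (X : Polynomial K))) (MvPolynomial.C c) = C c := by
      intro c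
      rw [← MvPolynomial.algebraMap_eq, AlgHom.commutes]
      rfl
    rw [e]
    fin_cases j
    · change X - C a ∣ X ^ 2 - C (a ^ 2)
      rw [C_pow]
      exact sub_dvd_pow_sub_pow _ _ _
    · change X - C a ∣ X - C a
      exact dvd_rfl
    · change X - C a ∣ 1 + X ^ 3 - C (1 + a ^ 3)
      rw [C_add, C_1, C_pow, add_sub_add_left_eq_sub]
      exact sub_dvd_pow_sub_pow _ _ _)
  rw [Ideal.span_singleton_pow, Ideal.mem_span_singleton] at h1
  exact h1

theorem mu_gam {a : K} (ha : a ≠ 0) : mu (th a) (gam K) = 1 := by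
  have h1 : 0 < mu (th a) (gam K) := by
    rw [mu_pos_iff _ gam_ne_zero, eval_gam]
    change a ^ 2 * a * (1 + a ^ 3) - (a ^ 2) ^ 3 - a ^ 3 = 0
    ring
  have h2 : ¬ 2 ≤ mu (th a) (gam K) := by
    intro h2
    have h3 := (mem_mI_pow_iff (th a) gam_ne_zero 2).2 h2
    have h4 := deriv_mem (th a) (MvPolynomial.pderiv 2) 1 (gam K) h3
    rw [pow_one, mI, RingHom.mem_ker] at h4
    have h5 : (MvPolynomial.pderiv (R := K) 2) (gam K) = MvPolynomial.X 0 * MvPolynomial.X 1 := by
      simp [gam, MvPolynomial.pderiv_X]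
    rw [h5, map_mul, MvPolynomial.eval_X, MvPolynomial.eval_X] at h4
    change a ^ 2 * a = 0 at h4
    have : a ^ 3 ≠ 0 := pow_ne_zero _ ha
    apply this
    rw [← h4]; ring
  omega

/-- the sections with 11 prescribed points force the leading form to vanish -/
theorem all_zero [Infinite K] {b : ℕ} (A : ℕ → Polynomial K) (T : Polynomial K) (hT : T ≠ 0) (q : K)
    (h : ∀ c : K, ∑ j ∈ Finset.range (b + 1), A j * (X * T) ^ j * (C q + C c * X + X ^ 2) ^ (b - j) = 0) :
    ∀ j ≤ b, A j = 0 := by
  have h1 : ∀ x : K, x ≠ 0 → T.eval x ≠ 0 → ∀ j ≤ b, (A j).eval x = 0 := by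
    intro x hx hTx
    set S := x * T.eval x with hS
    have hS0 : S ≠ 0 := mul_ne_zero hx hTx
    set p : Polynomial K := ∑ j ∈ Finset.range (b + 1), monomial j ((A j).eval x) with hp
    have h2 : X * p = 0 := by
      apply Polynomial.funext
      intro y
      by_cases hy : y = 0
      · simp [hy]
      · have h3 := congrArg (eval x) (h ((S / y - q - x ^ 2) / x))
        have h4 : eval x (C q + C ((S / y - q - x ^ 2) / x) * X + X ^ 2) = S / y := by
          simp only [eval_add, eval_mul, eval_C, eval_X, eval_pow]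
          field_simp
          ring
        rw [eval_finsetSum, eval_zero] at h3
        simp only [eval_mul, eval_pow, h4, eval_X] at h3
        rw [← hS] at h3
        have h5 : ∑ j ∈ Finset.range (b + 1), (A j).eval x * S ^ j * (S / y) ^ (b - j) =
            (S / y) ^ b * ∑ j ∈ Finset.range (b + 1), (A j).eval x * y ^ j := by
          rw [Finset.mul_sum]
          apply Finset.sum_congr rfl
          intro j hj
          rw [Finset.mem_range] at hj
          have e1 : (S / y) ^ b = (S / y) ^ (b - j) * (S / y) ^ j := by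
            rw [← pow_add]; congr 1; omega
          have e2 : (S / y) ^ j * y ^ j = S ^ j := by
            rw [← mul_pow, div_mul_cancel₀ _ hy]
          rw [e1]
          rw [← e2]
          ring
        rw [h5] at h3
        have h6 : (S / y) ^ b ≠ 0 := pow_ne_zero _ (div_ne_zero hS0 hy)
        rcases mul_eq_zero.1 h3 with h7 | h7
        · exact absurd h7 h6
        · rw [eval_mul, hp, eval_finsetSum]
          simp only [eval_monomial]
          rw [h7, mul_zero, eval_zero]
    have h3 : p = 0 := by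
      rcases mul_eq_zero.1 h2 with h4 | h4
      · exact absurd h4 X_ne_zero
      · exact h4
    intro j hj
    have h4 := congrArg (fun r => coeff r j) h3
    simp only [hp, finsetSum_coeff, coeff_monomial, coeff_zero] at h4
    rw [Finset.sum_ite_eq', if_pos (Finset.mem_range.2 (Nat.lt_succ_of_le hj))] at h4
    exact h4
  intro j hj
  have h2 : X * T * A j = 0 := by
    apply Polynomial.funext
    intro x
    rw [eval_mul, eval_mul, eval_X, eval_zero]
    by_cases hx : x = 0
    · rw [hx]; ring
    · by_cases hTx : T.eval x = 0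
      · rw [hTx]; ring
      · rw [h1 x hx hTx j hj, mul_zero]
  rcases mul_eq_zero.1 h2 with h4 | h4
  · exact absurd h4 (mul_ne_zero X_ne_zero hT)
  · exact h4

end Pool.Agent.H951R2
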