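import Mathlib
import Pool.Agent.H951R2.Key

set_option autoImplicit false

namespace Pool.Agent.H951R2

open Polynomial Pool.Agent.Chud

variable {K : Type*} [Field K]

/-- the product `∏ (X - a_i)` -/
noncomputable def TT {ι : Type} [Fintype ι] (a : ι → K) : Polynomial K := ∏ i, (X - C (a i))

/-- the product `∏ (1 - a_i X)` -/
noncomputable def TT' {ι : Type} [Fintype ι] (a : ι → K) : Polynomial K := ∏ i, (1 - C (a i) * X)

theorem TT_ne_zero {ι : Type} [Fintype ι] (a : ι → K) : TT a ≠ 0 :=
  Finset.prod_ne_zero_iff.2 fun i _ => X_sub_C_ne_zero (a i)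

theorem prod_pow_dvd {ι : Type} [Fintype ι] {a : ι → K} (ha : Function.Injective a) (n : ι → ℕ)
    {P : Polynomial K} (h : ∀ i, (X - C (a i)) ^ n i ∣ P) : ∏ i, (X - C (a i)) ^ n i ∣ P := by
  apply Finset.prod_dvd_of_coprime
  · intro i _ j _ hij
    apply IsCoprime.pow
    exact isCoprime_X_sub_C_of_isUnit_sub (by
      rw [isUnit_iff_ne_zero]
      intro h0
      exact hij (ha (sub_eq_zero.1 h0)))
  · intro i _
    exact h i

theorem natDegree_prod_pow {ι : Type} [Fintype ι] (a : ι → K) (n : ι → ℕ) :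
    (∏ i, (X - C (a i)) ^ n i).natDegree = ∑ i, n i := by
  rw [natDegree_prod _ _ (fun i _ => pow_ne_zero _ (X_sub_C_ne_zero _))]
  apply Finset.sum_congr rfl
  intro i _
  rw [natDegree_pow, natDegree_X_sub_C, mul_one]

theorem vanish [Infinite K] {a : Fin 9 → K} (ha0 : ∀ i, a i ≠ 0) (ha : Function.Injective a)
    {e b ν : ℕ} {n : Fin 9 → ℤ} {G : Fam K} {F' : ℕ → MvPolynomial (Fin 3) K}
    (hF' : ∀ l ≤ b, G.coeff l = gam K ^ (b - l) * F' l) (hQ : QM ν G)
    (hhom : ∀ l ≤ b, F' l ≠ 0 → 3 * (b - l) ≤ e ∧ (F' l).IsHomogeneous (e - 3 * (b - l)))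
    (hord : ∀ l ≤ b, ∀ i, (X - C (a i)) ^ ((n i).toNat - (b - l)) ∣ phi (F' l))
    (hlt : (3 * e + 2 * b : ℤ) < ∑ i, n i + 2 * ν) (c : K) :
    ∑ j ∈ Finset.range (b + 1), phi (F' (b - j)) * (X * TT a) ^ j *
      (C ((TT a).eval 0) + C c * X + X ^ 2) ^ (b - j) = 0 := by
  set q := (TT a).eval 0 with hq
  have hq0 : q ≠ 0 := by
    rw [hq, TT, eval_prod]
    apply Finset.prod_ne_zero_iff.2
    intro i _
    simpa using ha0 i
  set Q : Polynomial K := C q + C c * X + X ^ 2 with hQdef
  set Q' : Polynomial K := C q * X ^ 2 + C c * X + 1 with hQ'def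
  set P := ∑ j ∈ Finset.range (b + 1), phi (F' (b - j)) * (X * TT a) ^ j * Q ^ (b - j) with hP
  set P' := ∑ j ∈ Finset.range (b + 1), psi (F' (b - j)) * (X * TT' a) ^ j * Q' ^ (b - j) with hP'
  by_contra hP0
  -- branch `s = 0`
  have hQ0 : Q.eval 0 = q := by simp [hQdef]
  have h1 : X ^ ν ∣ P := local_section hF' hQ (TT a) Q (by rw [hQ0]; exact hq0) (by rw [hQ0])
  -- branch `t = 0`
  have h2 : X ^ ν ∣ P' := by
    have hF'' : ∀ l ≤ b, (G.map (sw (K := K)).toRingHom).coeff l = gam K ^ (b - l) * sw (F' l) := by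
      intro l hl
      rw [coeff_map, hF' l hl]
      change sw _ = _
      rw [map_mul, map_pow, sw_gam]
    have h3 := local_section hF'' hQ.swap (TT' a) Q' (by simp [hQ'def]) (by
      simp [hQ'def, TT', eval_prod])
    simp only [phi_sw] at h3
    exact h3
  have h3 : P.natDegree + ν ≤ 3 * e + 2 * b := by
    apply deg_bound hP0 _ h2
    intro x hx
    rw [hP, hP', eval_finsetSum, eval_finsetSum, Finset.mul_sum]
    apply Finset.sum_congr rfl
    intro j hj
    rw [Finset.mem_range] at hj
    simp only [eval_mul, eval_pow, eval_X]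
    by_cases hF0 : F' (b - j) = 0
    · rw [hF0]; simp
    · obtain ⟨h4, h5⟩ := hhom (b - j) (by omega) hF0
      have e1 : b - (b - j) = j := by omega
      rw [e1] at h4 h5
      have h6 := phi_psi h5 x hx
      have h7 : x ^ 11 * (x⁻¹ * (TT' a).eval x⁻¹) = x * (TT a).eval x := by
        rw [TT, TT', eval_prod, eval_prod]
        have : ∏ i, eval x (X - C (a i)) = x ^ 9 * ∏ i, eval x⁻¹ (1 - C (a i) * X) := by
          have h8 : x ^ 9 = ∏ i : Fin 9, x := by simp
          rw [h8, ← Finset.prod_mul_distrib]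
          apply Finset.prod_congr rfl
          intro i _
          simp only [eval_sub, eval_mul, eval_C, eval_X, eval_one]
          field_simp
        rw [this]
        field_simp
      have h8 : x ^ 2 * Q'.eval x⁻¹ = Q.eval x := by
        simp only [hQdef, hQ'def, eval_add, eval_mul, eval_C, eval_X, eval_one, eval_pow]
        field_simp
      rw [← h6, ← h7, ← h8]
      have h9 : x ^ (3 * e + 2 * b) = x ^ (3 * (e - 3 * j)) * (x ^ 11) ^ j * (x ^ 2) ^ (b - j) := by
        rw [← pow_mul, ← pow_mul, ← pow_add, ← pow_add]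
        congr 1
        omega
      rw [h9, mul_pow (x ^ 11), mul_pow (x ^ 2)]
      ring
  -- the points `a i`
  have h4 : ∀ i, (X - C (a i)) ^ (n i).toNat ∣ P := by
    intro i
    rw [hP]
    apply Finset.dvd_sum
    intro j hj
    rw [Finset.mem_range] at hj
    apply Dvd.dvd.mul_right
    have h5 := hord (b - j) (by omega) i
    have e1 : b - (b - j) = j := by omega
    rw [e1] at h5
    have h6 : (X - C (a i)) ^ j ∣ (X * TT a) ^ j := by
      apply pow_dvd_pow_of_dvd
      apply Dvd.dvd.mul_left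
      exact Finset.dvd_prod_of_mem _ (Finset.mem_univ i)
    have h7 := mul_dvd_mul h5 h6
    rw [← pow_add] at h7
    refine (pow_dvd_pow _ ?_).trans h7
    omega
  have h5 : X ^ ν * ∏ i, (X - C (a i)) ^ (n i).toNat ∣ P := by
    apply IsCoprime.mul_dvd
    · apply IsCoprime.prod_right
      intro i _
      apply IsCoprime.pow
      have := isCoprime_X_sub_C_of_isUnit_sub (a := (0 : K)) (b := a i) (by
        rw [isUnit_iff_ne_zero, zero_sub]
        exact neg_ne_zero.2 (ha0 i))
      simpa using this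
    · exact h1
    · exact prod_pow_dvd ha _ h4
  have h6 := natDegree_le_of_dvd h5 hP0
  rw [natDegree_mul (pow_ne_zero _ X_ne_zero)
    (Finset.prod_ne_zero_iff.2 fun i _ => pow_ne_zero _ (X_sub_C_ne_zero _)),
    natDegree_X_pow, natDegree_prod_pow] at h6
  have h7 : ∑ i, n i ≤ ((∑ i, (n i).toNat : ℕ) : ℤ) := by
    push_cast
    apply Finset.sum_le_sum
    intro i _
    exact Int.self_le_toNat (n i)
  omega

/-- divisibility by powers of the nodal cubic -/
theorem key [Infinite K] {a : Fin 9 → K} (ha0 : ∀ i, a i ≠ 0) (ha : Function.Injective a)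
    {e ν : ℕ} {n : Fin 9 → ℤ} {G : Fam K} (hhom : ∀ l, (G.coeff l).IsHomogeneous e)
    (hm : ∀ l i, Mult (G.coeff l) (th (a i)) (n i).toNat) (hQ : QM ν G) (b : ℕ)
    (hb : ∀ b' < b, (3 * e + 2 * b' : ℤ) < ∑ i, n i + 2 * ν) :
    ∀ l < b, gam K ^ (b - l) ∣ G.coeff l := by
  induction b with
  | zero => intro l hl; omega
  | succ b ih =>
    have ih' := ih (fun b' hb' => hb b' (by omega))
    have hex : ∀ l, ∃ F' : MvPolynomial (Fin 3) K, l ≤ b → G.coeff l = gam K ^ (b - l) * F' := by
      intro l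
      by_cases hl : l < b
      · obtain ⟨F', hF'⟩ := ih' l hl
        exact ⟨F', fun _ => hF'⟩
      · refine ⟨G.coeff l, fun hl' => ?_⟩
        have : b - l = 0 := by omega
        rw [this, pow_zero, one_mul]
    choose F' hF' using hex
    have hhom' : ∀ l ≤ b, F' l ≠ 0 → 3 * (b - l) ≤ e ∧ (F' l).IsHomogeneous (e - 3 * (b - l)) := by
      intro l hl h0
      have h1 : G.coeff l ≠ 0 := by
        rw [hF' l hl]
        exact mul_ne_zero (pow_ne_zero _ gam_ne_zero) h0
      have h2 := homog_of_dvd (hhom l) h1 (G := F' l) (by rw [hF' l hl]; exact dvd_mul_left _ _)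
      have h3 := (hhom l).totalDegree h1
      rw [hF' l hl, MvPolynomial.totalDegree_mul_of_isDomain (pow_ne_zero _ gam_ne_zero) h0,
        ((gam_homog K).pow (b - l)).totalDegree (pow_ne_zero _ gam_ne_zero)] at h3
      refine ⟨by omega, ?_⟩
      have h4 : (F' l).totalDegree = e - 3 * (b - l) := by omega
      rw [← h4]
      exact h2
    have hord : ∀ l ≤ b, ∀ i, (X - C (a i)) ^ ((n i).toNat - (b - l)) ∣ phi (F' l) := by
      intro l hl i
      by_cases h0 : F' l = 0
      · rw [h0, map_zero]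
        exact dvd_zero _
      · apply phi_order
        rw [mult_iff_mu h0]
        have h1 : G.coeff l ≠ 0 := by
          rw [hF' l hl]
          exact mul_ne_zero (pow_ne_zero _ gam_ne_zero) h0
        have h2 := (mult_iff_mu h1 _ _).1 (hm l i)
        rw [hF' l hl, mu_mul _ (pow_ne_zero _ gam_ne_zero) h0] at h2
        have h3 : ∀ m : ℕ, mu (th (a i)) (gam K ^ m) = m := by
          intro m
          induction m with
          | zero =>
            rw [pow_zero]
            by_contra hne
            have := (mu_pos_iff (th (a i)) (one_ne_zero (α := MvPolynomial (Fin 3) K))).1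
              (Nat.pos_of_ne_zero hne)
            rw [map_one] at this
            exact one_ne_zero this
          | succ m ihm =>
            rw [pow_succ, mu_mul _ (pow_ne_zero _ gam_ne_zero) gam_ne_zero, ihm, mu_gam (ha0 i)]
        rw [h3] at h2
        omega
    have h1 := all_zero (fun j => phi (F' (b - j))) (TT a) (TT_ne_zero a) ((TT a).eval 0)
      (fun c => vanish ha0 ha (fun l hl => hF' l hl) hQ hhom' hord (hb b (by omega)) c)
    intro l hl
    have hl' : l ≤ b := by omega
    have h2 := h1 (b - l) (by omega)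
    have e1 : b - (b - l) = l := by omega
    beta_reduce at h2
    rw [e1] at h2
    have h3 : gam K ∣ F' l := by
      by_cases h0 : F' l = 0
      · rw [h0]; exact dvd_zero _
      · exact gam_dvd (hhom' l hl' h0).2 h2
    rw [hF' l hl']
    have e2 : b + 1 - l = (b - l) + 1 := by omega
    rw [e2, pow_succ]
    exact mul_dvd_mul_left _ h3

end Pool.Agent.H951R2
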