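import Mathlib
import Pool.Agent.H951R2.Mult

set_option autoImplicit false

namespace Pool.Agent.H951R2

open MvPolynomial

/-- exponents of degree `e` -/
abbrev Mon (e : ℕ) := ↥(Finset.finsuppAntidiag (Finset.univ : Finset (Fin 3)) e)

theorem mon_degree {e : ℕ} (s : Mon e) : (s : Fin 3 →₀ ℕ).degree = e := by
  have h := s.2
  rw [Finset.mem_finsuppAntidiag] at h
  rw [Finsupp.degree_eq_sum]
  exact h.1

/-- the exponent of degree `e` -/
def toMon {e : ℕ} (s : Fin 3 →₀ ℕ) (h : s.degree = e) : Mon e :=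
  ⟨s, by
    rw [Finset.mem_finsuppAntidiag]
    refine ⟨?_, fun _ _ => Finset.mem_univ _⟩
    rw [Finsupp.degree_eq_sum] at h
    exact h⟩

/-- rows of the interpolation matrix -/
abbrev Row {ι : Type} (m : ι → ℕ) := Σ i : ι, Σ k : Fin (m i), Mon (k : ℕ)

section ring
variable {A B : Type*} [CommRing A] [CommRing B] {ι : Type}

/-- the interpolation matrix -/
noncomputable def IM (v : ι → Fin 3 → A) (m : ι → ℕ) (e : ℕ) : Matrix (Row m) (Mon e) A :=
  fun r s => coeff (r.2.2 : Fin 3 →₀ ℕ)
    (aeval (fun j => (X j + C (v r.1 j) : MvPolynomial (Fin 3) A)) (monomial (s : Fin 3 →₀ ℕ) (1 : A)))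

theorem IM_map (f : A →+* B) (v : ι → Fin 3 → A) (m : ι → ℕ) (e : ℕ) :
    IM (fun i j => f (v i j)) m e = (IM v m e).map f := by
  ext r s
  simp only [IM, Matrix.map_apply]
  rw [← coeff_map, ← tr_map, map_monomial, f.map_one]

/-- the form with the given coefficients -/
noncomputable def form (e : ℕ) (c : Mon e → A) : MvPolynomial (Fin 3) A :=
  ∑ s : Mon e, monomial (s : Fin 3 →₀ ℕ) (c s)

theorem form_homog (e : ℕ) (c : Mon e → A) : (form e c).IsHomogeneous e := by
  apply IsHomogeneous.sum
  intro s _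
  apply isHomogeneous_monomial
  exact mon_degree s

theorem coeff_form (e : ℕ) (c : Mon e → A) (s : Mon e) : coeff (s : Fin 3 →₀ ℕ) (form e c) = c s := by
  rw [form, coeff_sum, Finset.sum_eq_single s]
  · simp
  · intro t _ hts
    rw [coeff_monomial, if_neg]
    intro h
    exact hts (Subtype.ext h)
  · intro h
    exact absurd (Finset.mem_univ _) h

theorem degree_of_homog {e : ℕ} {F : MvPolynomial (Fin 3) A} (hF : F.IsHomogeneous e)
    {s : Fin 3 →₀ ℕ} (hs : coeff s F ≠ 0) : s.degree = e := by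
  rw [← hF hs, Finsupp.degree_eq_weight_one]
  rfl

theorem form_coeff {e : ℕ} {F : MvPolynomial (Fin 3) A} (hF : F.IsHomogeneous e) :
    form e (fun s => coeff (s : Fin 3 →₀ ℕ) F) = F := by
  ext t
  by_cases ht : t.degree = e
  · have := coeff_form e (fun s => coeff (s : Fin 3 →₀ ℕ) F) (toMon t ht)
    exact this
  · have h1 : coeff t F = 0 := by
      by_contra h
      exact ht (degree_of_homog hF h)
    have h2 : coeff t (form e (fun s : Mon e => coeff (s : Fin 3 →₀ ℕ) F)) = 0 := by
      by_contra h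
      exact ht (degree_of_homog (form_homog e _) h)
    rw [h1, h2]

theorem mulVec_eq_zero_iff (v : ι → Fin 3 → A) (m : ι → ℕ) (e : ℕ) (c : Mon e → A) :
    (IM v m e).mulVec c = 0 ↔ ∀ i, Mult (form e c) (v i) (m i) := by
  have key : ∀ (i : ι) (k : Fin (m i)) (t : Mon (k : ℕ)),
      (IM v m e).mulVec c ⟨i, k, t⟩ =
      coeff (t : Fin 3 →₀ ℕ) (aeval (fun j => (X j + C (v i j) : MvPolynomial (Fin 3) A)) (form e c)) := by
    intro i k t
    rw [form, map_sum, coeff_sum, Matrix.mulVec, dotProduct]
    apply Finset.sum_congr rfl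
    intro s _
    have h1 : (monomial (s : Fin 3 →₀ ℕ) (c s) : MvPolynomial (Fin 3) A) =
        C (c s) * monomial (s : Fin 3 →₀ ℕ) 1 := by
      rw [C_mul_monomial, mul_one]
    rw [h1, map_mul]
    have h2 : aeval (fun j => (X j + C (v i j) : MvPolynomial (Fin 3) A)) (C (c s) : MvPolynomial (Fin 3) A)
        = C (c s) := by simp [algebraMap_eq]
    rw [h2, coeff_C_mul, mul_comm]
    rfl
  constructor
  · intro h i s hs
    have := congrFun h ⟨i, ⟨s.degree, hs⟩, toMon s rfl⟩
    rw [key] at this
    exact this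
  · intro h
    ext ⟨i, k, t⟩
    rw [key]
    apply h i
    rw [mon_degree]
    exact k.2

/-- no nonzero form of degree `e` vanishes to order `m i` at `v i` for all `i` -/
def NonEff (v : ι → Fin 3 → A) (m : ι → ℕ) (e : ℕ) : Prop :=
  ∀ F : MvPolynomial (Fin 3) A, F.IsHomogeneous e → (∀ i, Mult F (v i) (m i)) → F = 0

theorem nonEff_iff (v : ι → Fin 3 → A) (m : ι → ℕ) (e : ℕ) :
    NonEff v m e ↔ ∀ c : Mon e → A, (IM v m e).mulVec c = 0 → c = 0 := by
  constructor
  · intro h c hc
    have h1 := h (form e c) (form_homog e c) ((mulVec_eq_zero_iff v m e c).1 hc)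
    ext s
    rw [← coeff_form e c s, h1, coeff_zero]
    rfl
  · intro h F hF hm
    rw [← form_coeff hF] at hm ⊢
    have h1 := h _ ((mulVec_eq_zero_iff v m e _).2 hm)
    rw [h1]
    simp [form]

end ring

section field
variable {K : Type*} [Field K] {ι : Type} [Fintype ι] [DecidableEq ι]

theorem exists_left_inv {R C : Type} [Fintype R] [Fintype C] [DecidableEq R] [DecidableEq C]
    (M : Matrix R C K) (h : ∀ c, M.mulVec c = 0 → c = 0) : ∃ L : Matrix C R K, L * M = 1 := by
  have hinj : LinearMap.ker (Matrix.toLin' M) = ⊥ := by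
    rw [LinearMap.ker_eq_bot']
    intro c hc
    exact h c (by rw [← Matrix.toLin'_apply]; exact hc)
  obtain ⟨g, hg⟩ := LinearMap.exists_leftInverse_of_injective _ hinj
  refine ⟨LinearMap.toMatrix' g, ?_⟩
  apply Matrix.toLin'.injective
  rw [Matrix.toLin'_mul, Matrix.toLin'_toMatrix', hg, Matrix.toLin'_one]

/-- openness of the condition `NonEff` -/
theorem nonEff_open {A : Type*} [CommRing A] [Algebra K A] (v : ι → Fin 3 → A) (m : ι → ℕ) (e : ℕ)
    (ε₀ : A →ₐ[K] K) (h : NonEff (fun i j => ε₀ (v i j)) m e) :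
    ∃ f : A, ε₀ f ≠ 0 ∧ ∀ ε : A →ₐ[K] K, ε f ≠ 0 → NonEff (fun i j => ε (v i j)) m e := by
  rw [nonEff_iff] at h
  obtain ⟨L, hL⟩ := exists_left_inv _ h
  have key : ∀ ε : A →ₐ[K] K, ε (Matrix.det (L.map (algebraMap K A) * IM v m e)) =
      Matrix.det (L * IM (fun i j => ε (v i j)) m e) := by
    intro ε
    have h1 := RingHom.map_det ε.toRingHom (L.map (algebraMap K A) * IM v m e)
    change ε _ = _ at h1
    rw [h1]
    congr 1
    have h2 := IM_map ε.toRingHom v m e
    change IM (fun i j => ε (v i j)) m e = _ at h2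
    rw [h2]
    rw [RingHom.mapMatrix_apply, Matrix.map_mul]
    congr 1
    ext a b
    simp only [Matrix.map_apply]
    exact ε.commutes _
  refine ⟨Matrix.det (L.map (algebraMap K A) * IM v m e), ?_, ?_⟩
  · rw [key, hL, Matrix.det_one]
    exact one_ne_zero
  · intro ε hε
    rw [key] at hε
    rw [nonEff_iff]
    intro c hc
    have h3 : (L * IM (fun i j => ε (v i j)) m e).mulVec c = 0 := by
      rw [← Matrix.mulVec_mulVec, hc, Matrix.mulVec_zero]
    exact Matrix.eq_zero_of_mulVec_eq_zero hε h3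

/-- a nonzero kernel vector over `K[σ]` -/
theorem exists_ker_poly [Infinite K] {R C : Type} [Fintype R] [Fintype C] [DecidableEq R]
    [DecidableEq C] (M : Matrix R C (Polynomial K))
    (h : ∀ x : K, ∃ c : C → K, c ≠ 0 ∧ (M.map (Polynomial.evalRingHom x)).mulVec c = 0) :
    ∃ c : C → Polynomial K, c ≠ 0 ∧ M.mulVec c = 0 := by
  by_contra hcon
  push Not at hcon
  set Fr := FractionRing (Polynomial K) with hFr
  set ι := algebraMap (Polynomial K) Fr with hι
  have hιi : Function.Injective ι := IsFractionRing.injective (Polynomial K) Fr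
  have hker : ∀ c : C → Fr, (M.map ι).mulVec c = 0 → c = 0 := by
    intro c hc
    obtain ⟨d, hd⟩ := IsLocalization.exist_integer_multiples_of_finite
      (nonZeroDivisors (Polynomial K)) c
    choose c' hc' using hd
    have hd0 : ι (d : Polynomial K) ≠ 0 := by
      intro h0
      exact nonZeroDivisors.coe_ne_zero d (hιi (by rw [h0, map_zero]))
    have h1 : M.mulVec c' = 0 := by
      ext1 r
      apply hιi
      have h2 := congrFun hc r
      rw [Pi.zero_apply, map_zero, Matrix.mulVec, dotProduct, map_sum]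
      rw [Pi.zero_apply, Matrix.mulVec, dotProduct] at h2
      have h3 : ∀ s, ι (M r s * c' s) = ι (d : Polynomial K) * ((M.map ι) r s * c s) := by
        intro s
        have h4 : ι (c' s) = (d : Polynomial K) • c s := hc' s
        rw [map_mul, h4, Algebra.smul_def, Matrix.map_apply]
        ring
      rw [Finset.sum_congr rfl (fun s _ => h3 s), ← Finset.mul_sum, h2, mul_zero]
    have h2 : c' = 0 := by
      by_contra h0
      exact hcon c' h0 h1
    ext s
    have h3 : ι (c' s) = (d : Polynomial K) • c s := hc' s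
    rw [h2, Pi.zero_apply, map_zero, Algebra.smul_def] at h3
    rcases mul_eq_zero.1 h3.symm with h4 | h4
    · exact absurd h4 hd0
    · rw [h4]; rfl
  obtain ⟨L, hL⟩ := exists_left_inv _ hker
  obtain ⟨d, hd⟩ := IsLocalization.exist_integer_multiples_of_finite
      (nonZeroDivisors (Polynomial K)) (fun x : C × R => L x.1 x.2)
  choose L' hL' using hd
  have hd0 : (d : Polynomial K) ≠ 0 := nonZeroDivisors.coe_ne_zero d
  have hLM : (Matrix.of fun a b => L' (a, b)) * M = (d : Polynomial K) • (1 : Matrix C C (Polynomial K)) := by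
    ext1 a b
    apply hιi
    have h1 := congrFun (congrFun hL a) b
    rw [Matrix.mul_apply] at h1
    rw [Matrix.mul_apply, map_sum, Matrix.smul_apply, smul_eq_mul, map_mul]
    have h2 : ∀ r, ι ((Matrix.of fun a b => L' (a, b)) a r * M r b) =
        ι (d : Polynomial K) * (L a r * (M.map ι) r b) := by
      intro r
      have h4 : ι (L' (a, r)) = (d : Polynomial K) • L a r := hL' (a, r)
      rw [map_mul, Matrix.of_apply, h4, Algebra.smul_def, Matrix.map_apply]
      ring
    rw [Finset.sum_congr rfl (fun s _ => h2 s), ← Finset.mul_sum, h1]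
    congr 1
    by_cases hab : a = b
    · rw [hab, Matrix.one_apply_eq, Matrix.one_apply_eq, map_one]
    · rw [Matrix.one_apply_ne hab, Matrix.one_apply_ne hab, map_zero]
  obtain ⟨x, hx⟩ : ∃ x : K, (d : Polynomial K).eval x ≠ 0 := by
    by_contra h0
    push Not at h0
    exact hd0 (Polynomial.funext (fun x => by rw [h0 x, Polynomial.eval_zero]))
  obtain ⟨c, hc0, hc⟩ := h x
  apply hc0
  have h1 := congrArg (fun N : Matrix C C (Polynomial K) => N.map (Polynomial.evalRingHom x)) hLM
  beta_reduce at h1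
  rw [Matrix.map_mul] at h1
  have h2 := congrArg (fun N : Matrix C C K => N.mulVec c) h1
  beta_reduce at h2
  rw [← Matrix.mulVec_mulVec, hc, Matrix.mulVec_zero] at h2
  ext s
  have h3 := congrFun h2 s
  have h4 : (((d : Polynomial K) • (1 : Matrix C C (Polynomial K))).map
      (Polynomial.evalRingHom x)) = ((d : Polynomial K).eval x) • (1 : Matrix C C K) := by
    ext a b
    simp only [Matrix.map_apply, Matrix.smul_apply, smul_eq_mul, Polynomial.coe_evalRingHom]
    by_cases hab : a = b
    · rw [hab, Matrix.one_apply_eq, Matrix.one_apply_eq, Polynomial.eval_mul, Polynomial.eval_one]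
    · rw [Matrix.one_apply_ne hab, Matrix.one_apply_ne hab, Polynomial.eval_mul,
        Polynomial.eval_zero]
  rw [h4, Matrix.smul_mulVec, Matrix.one_mulVec, Pi.zero_apply, Pi.smul_apply, smul_eq_mul] at h3
  rcases mul_eq_zero.1 h3.symm with h5 | h5
  · exact absurd h5 hx
  · exact h5

/-- a kernel vector over `K[σ]` which does not vanish at `σ = 0` -/
theorem exists_ker_poly' [Infinite K] {R C : Type} [Fintype R] [Fintype C] [DecidableEq R]
    [DecidableEq C] (M : Matrix R C (Polynomial K))
    (h : ∀ x : K, ∃ c : C → K, c ≠ 0 ∧ (M.map (Polynomial.evalRingHom x)).mulVec c = 0) :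
    ∃ c : C → Polynomial K, (∃ s, (c s).coeff 0 ≠ 0) ∧ M.mulVec c = 0 := by
  obtain ⟨c, hc0, hc⟩ := exists_ker_poly M h
  obtain ⟨s0, hs0⟩ : ∃ s, c s ≠ 0 := by
    by_contra h0
    push Not at h0
    exact hc0 (funext h0)
  have key : ∀ n : ℕ, ∀ c : C → Polynomial K, c s0 ≠ 0 → (c s0).natDegree ≤ n → M.mulVec c = 0 →
      ∃ c : C → Polynomial K, (∃ s, (c s).coeff 0 ≠ 0) ∧ M.mulVec c = 0 := by
    intro n
    induction n with
    | zero =>
      intro c hc0 hn hc
      refine ⟨c, ⟨s0, ?_⟩, hc⟩
      intro h0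
      apply hc0
      rw [Polynomial.eq_C_of_natDegree_le_zero hn, h0, map_zero]
    | succ n ih =>
      intro c hc0 hn hc
      by_cases h0 : ∃ s, (c s).coeff 0 ≠ 0
      · exact ⟨c, h0, hc⟩
      · push Not at h0
        have h1 : ∀ s, Polynomial.X ∣ c s := fun s => Polynomial.X_dvd_iff.2 (h0 s)
        choose c' hc' using h1
        have hc'0 : c' s0 ≠ 0 := by
          intro h2
          apply hc0
          rw [hc', h2, mul_zero]
        apply ih c' hc'0
        · have h2 := congrArg Polynomial.natDegree (hc' s0)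
          rw [Polynomial.natDegree_X_mul hc'0] at h2
          omega
        · have h2 : c = (Polynomial.X : Polynomial K) • c' := by
            ext1 s
            rw [hc' s]; rfl
          rw [h2, Matrix.mulVec_smul] at hc
          ext1 r
          have h3 := congrFun hc r
          rw [Pi.smul_apply, smul_eq_mul, Pi.zero_apply] at h3
          rcases mul_eq_zero.1 h3 with h4 | h4
          · exact absurd h4 Polynomial.X_ne_zero
          · exact h4
  exact key _ c hs0 le_rfl hc

/-- specialisation: a family of nonzero forms over `K[σ]` -/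
theorem exists_family [Infinite K] (v : ι → Fin 3 → Polynomial K) (m : ι → ℕ) (e : ℕ)
    (h : ∀ x : K, ¬ NonEff (fun i j => (v i j).eval x) m e) :
    ∃ F : MvPolynomial (Fin 3) (Polynomial K), F.IsHomogeneous e ∧ (∀ i, Mult F (v i) (m i)) ∧
      map (Polynomial.evalRingHom 0) F ≠ 0 := by
  have h1 : ∀ x : K, ∃ c : Mon e → K, c ≠ 0 ∧
      ((IM v m e).map (Polynomial.evalRingHom x)).mulVec c = 0 := by
    intro x
    have h2 := h x
    rw [nonEff_iff] at h2
    push Not at h2
    obtain ⟨c, hc, hc0⟩ := h2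
    refine ⟨c, hc0, ?_⟩
    rw [← IM_map]
    exact hc
  obtain ⟨c, ⟨s, hs⟩, hc⟩ := exists_ker_poly' _ h1
  refine ⟨form e c, form_homog e c, (mulVec_eq_zero_iff v m e c).1 hc, ?_⟩
  intro h0
  apply hs
  have h2 := congrArg (coeff (s : Fin 3 →₀ ℕ)) h0
  rw [coeff_map, coeff_form, coeff_zero] at h2
  rw [Polynomial.coeff_zero_eq_eval_zero]
  exact h2

end field

end Pool.Agent.H951R2
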