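import Mathlib
import Pool.Agent.H951R2.Key2
import Pool.Agent.H951R2.Lin

set_option autoImplicit false

namespace Pool.Agent.H951R2

open Polynomial Pool.Agent.Chud

variable {K : Type*} [Field K]

/-- `K[σ][x,y,z] → K[x,y,z][σ]` -/
noncomputable def EE : MvPolynomial (Fin 3) (Polynomial K) →+* Fam K :=
  MvPolynomial.eval₂Hom (mapRingHom MvPolynomial.C) (fun i => C (MvPolynomial.X i))

theorem EE_C (p : Polynomial K) : EE (MvPolynomial.C p) = p.map MvPolynomial.C := by
  rw [EE, MvPolynomial.eval₂Hom_C]; rfl

theorem EE_X (i : Fin 3) : EE (K := K) (MvPolynomial.X i) = C (MvPolynomial.X i) := by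
  rw [EE, MvPolynomial.eval₂Hom_X']

theorem coeff_EE (F : MvPolynomial (Fin 3) (Polynomial K)) (l : ℕ) (m : Fin 3 →₀ ℕ) :
    ((EE F).coeff l).coeff m = (F.coeff m).coeff l := by
  induction F using MvPolynomial.induction_on' with
  | monomial s p =>
    have h1 : EE (MvPolynomial.monomial s p) = p.map MvPolynomial.C * C (MvPolynomial.monomial s 1) := by
      rw [EE, MvPolynomial.eval₂Hom_monomial]
      congr 1
      rw [MvPolynomial.monomial_eq, MvPolynomial.C_1, one_mul, Finsupp.prod, Finsupp.prod, map_prod]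
      apply Finset.prod_congr rfl
      intro i _
      rw [map_pow]
    rw [h1, coeff_mul_C, coeff_map, MvPolynomial.coeff_C_mul, MvPolynomial.coeff_monomial,
      MvPolynomial.coeff_monomial]
    split_ifs with h
    · rw [mul_one]
    · rw [mul_zero, coeff_zero]
  | add p q hp hq =>
    rw [map_add, coeff_add, MvPolynomial.coeff_add, hp, hq, MvPolynomial.coeff_add, coeff_add]

theorem EE_homog {F : MvPolynomial (Fin 3) (Polynomial K)} {e : ℕ} (hF : F.IsHomogeneous e) (l : ℕ) :
    ((EE F).coeff l).IsHomogeneous e := by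
  intro m hm
  apply hF
  intro h0
  apply hm
  rw [coeff_EE, h0, coeff_zero]

theorem EE_zero (F : MvPolynomial (Fin 3) (Polynomial K)) :
    (EE F).coeff 0 = MvPolynomial.map (evalRingHom 0) F := by
  ext m
  rw [coeff_EE, MvPolynomial.coeff_map, coeff_zero_eq_eval_zero]
  rfl

theorem EE_mult {F : MvPolynomial (Fin 3) (Polynomial K)} {q : Fin 3 → K} {m : ℕ}
    (h : Mult F (fun j => C (q j)) m) (l : ℕ) : Mult ((EE F).coeff l) q m := by
  intro s hs
  set τ : MvPolynomial (Fin 3) K →+* MvPolynomial (Fin 3) K :=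
    (MvPolynomial.aeval (fun j => (MvPolynomial.X j + MvPolynomial.C (q j) :
      MvPolynomial (Fin 3) K))).toRingHom with hτ
  have h1 : (mapRingHom τ).comp (EE (K := K)) =
      (EE (K := K)).comp (MvPolynomial.aeval (R := Polynomial K)
        (fun j => (MvPolynomial.X j + MvPolynomial.C (C (q j)) :
          MvPolynomial (Fin 3) (Polynomial K)))).toRingHom := by
    apply MvPolynomial.ringHom_ext
    · intro p
      change (EE (MvPolynomial.C p)).map τ = EE (MvPolynomial.aeval _ (MvPolynomial.C p))
      rw [← MvPolynomial.algebraMap_eq, AlgHom.commutes, MvPolynomial.algebraMap_eq, EE_C, map_map]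
      congr 1
      apply RingHom.ext
      intro x
      change τ (MvPolynomial.C x) = MvPolynomial.C x
      rw [hτ]
      change MvPolynomial.aeval _ (MvPolynomial.C x) = MvPolynomial.C x
      rw [← MvPolynomial.algebraMap_eq, AlgHom.commutes]
    · intro i
      change (EE (MvPolynomial.X i)).map τ = EE (MvPolynomial.aeval _ (MvPolynomial.X i))
      rw [MvPolynomial.aeval_X, EE_X, map_C, map_add, EE_X, EE_C, map_C, ← C_add]
      congr 1
      change MvPolynomial.aeval _ (MvPolynomial.X i) = _
      rw [MvPolynomial.aeval_X]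
  have h2 : (EE (MvPolynomial.aeval (R := Polynomial K)
        (fun j => (MvPolynomial.X j + MvPolynomial.C (C (q j)) :
          MvPolynomial (Fin 3) (Polynomial K))) F)).coeff l = τ ((EE F).coeff l) := by
    have := DFunLike.congr_fun h1 F
    change (EE F).map τ = EE (MvPolynomial.aeval (R := Polynomial K)
        (fun j => (MvPolynomial.X j + MvPolynomial.C (C (q j)) :
          MvPolynomial (Fin 3) (Polynomial K))) F) at this
    rw [← this, coeff_map]
  change MvPolynomial.coeff s (τ ((EE F).coeff l)) = 0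
  rw [← h2, coeff_EE, h s hs, coeff_zero]

theorem EE_QM {F : MvPolynomial (Fin 3) (Polynomial K)} {ν : ℕ}
    (h : Mult F (![X, X, 1] : Fin 3 → Polynomial K) ν) : QM ν (EE F) := by
  intro Φ d h0 h1 h2
  have h3 := h.subst (Φ.comp EE) (Ideal.span {d}) (by
    intro j
    rw [Ideal.mem_span_singleton, map_sub, RingHom.comp_apply, RingHom.comp_apply, EE_X, EE_C]
    fin_cases j
    · change d ∣ Φ (C (MvPolynomial.X 0)) - Φ (map MvPolynomial.C X)
      rw [map_X]
      exact h0
    · change d ∣ Φ (C (MvPolynomial.X 1)) - Φ (map MvPolynomial.C X)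
      rw [map_X]
      exact h1
    · change d ∣ Φ (C (MvPolynomial.X 2)) - Φ (map MvPolynomial.C 1)
      rw [Polynomial.map_one, map_one]
      exact h2)
  rw [Ideal.span_singleton_pow, Ideal.mem_span_singleton] at h3
  exact h3

end Pool.Agent.H951R2
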