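import Mathlib
import Pool.Agent.Chud.PG2

set_option autoImplicit false

namespace Pool.Agent.H951R2

open MvPolynomial Pool.Agent.Chud

variable {k : Type*} [Field k]

/-- Bezout's inequality with multiplicities, charts version (after `Pool.Agent.Chud.bezout`) -/
theorem bezoutC {F G : MvPolynomial (Fin 3) k} {a b : ℕ} (hF : F.IsHomogeneous a)
    (hG : G.IsHomogeneous b) (_hF0 : F ≠ 0) (hG0 : G ≠ 0) (hrel : IsRelPrime F G)
    (P : Finset (PP k 2)) (r s : PP k 2 → ℕ) (hr : ∀ p ∈ P, (chart p).φ F ∈ idealOfVars (Fin 2) k ^ (r p))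
    (hs : ∀ p ∈ P, (chart p).φ G ∈ idealOfVars (Fin 2) k ^ (s p)) : ∑ p ∈ P, r p * s p ≤ a * b := by
  classical
  set t : PP k 2 → ℕ := fun p => r p + s p with ht
  set N : ℕ := ∑ p ∈ P, t p with hN
  let R : ℕ → Submodule k (MvPolynomial (Fin 3) k) := fun n => homogeneousSubmodule (Fin 3) k n
  -- the space of pairs
  let V := (R (N + b)) × (R (N + a))
  -- multiplication map
  let M : V →ₗ[k] MvPolynomial (Fin 3) k :=
    LinearMap.coprod ((LinearMap.mulRight k F).comp (R (N + b)).subtype)
      ((LinearMap.mulRight k G).comp (R (N + a)).subtype)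
  have hM : ∀ x : V, M x = x.1.1 * F + x.2.1 * G := fun x => rfl
  let Rn := R (N + a + b)
  let M' : V →ₗ[k] Rn := LinearMap.codRestrict Rn M (by
    intro x
    rw [hM]
    apply Submodule.add_mem
    · have h1 : (x.1.1).IsHomogeneous (N + b) := x.1.2
      have h2 := h1.mul hF
      show (x.1.1 * F).IsHomogeneous (N + a + b)
      convert h2 using 1
      omega
    · have h1 : (x.2.1).IsHomogeneous (N + a) := x.2.2
      have h2 := h1.mul hG
      show (x.2.1 * G).IsHomogeneous (N + a + b)
      convert h2 using 1)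
  have hM' : ∀ x : V, (M' x : MvPolynomial (Fin 3) k) = x.1.1 * F + x.2.1 * G := fun x => hM x
  -- the local map
  let Φ : Rn →ₗ[k] ((Σ p : P, De (t p)) → k) := (Phi P t).comp Rn.subtype
  have hΦs : Function.Surjective Φ := by
    intro c
    obtain ⟨A, hA, hA'⟩ := Phi_surj P t (n := N + a + b) (by omega) c
    exact ⟨⟨A, hA⟩, hA'⟩
  let Λ : V →ₗ[k] (((Σ p : P, De (s p)) → k) × ((Σ p : P, De (r p)) → k)) :=
    LinearMap.prodMap ((Phi P s).comp (R (N + b)).subtype) ((Phi P r).comp (R (N + a)).subtype)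
  let Ψ : V →ₗ[k] ((Σ p : P, De (t p)) → k) := Φ.comp M'
  -- ker Λ ≤ ker Ψ
  have hker : LinearMap.ker Λ ≤ LinearMap.ker Ψ := by
    intro x hx
    rw [LinearMap.mem_ker] at hx ⊢
    have h1 : Phi P s x.1.1 = 0 := congrArg Prod.fst hx
    have h2 : Phi P r x.2.1 = 0 := congrArg Prod.snd hx
    rw [Phi_eq_zero_iff] at h1 h2
    have h3 : Phi P t (x.1.1 * F + x.2.1 * G) = 0 := by
      rw [Phi_eq_zero_iff]
      intro p hp
      rw [map_add, map_mul, map_mul]
      apply add_mem
      · have e1 := h1 p hp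
        have e2 := hr p hp
        have e3 := Ideal.mul_mem_mul e1 e2
        rw [← pow_add, add_comm] at e3
        exact e3
      · have e1 := h2 p hp
        have e2 := hs p hp
        have e3 := Ideal.mul_mem_mul e1 e2
        rw [← pow_add] at e3
        exact e3
    show Φ (M' x) = 0
    have h4 : Φ (M' x) = Phi P t (M' x : MvPolynomial (Fin 3) k) := rfl
    rw [h4, hM']
    exact h3
  -- kernel of M'
  let K : R N →ₗ[k] V := LinearMap.prod
    (LinearMap.codRestrict (R (N + b)) ((LinearMap.mulRight k G).comp (R N).subtype) (by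
      intro x
      have h1 : (x.1).IsHomogeneous N := x.2
      exact h1.mul hG))
    (LinearMap.codRestrict (R (N + a)) (-((LinearMap.mulRight k F).comp (R N).subtype)) (by
      intro x
      have h1 : (x.1).IsHomogeneous N := x.2
      exact (h1.mul hF).neg))
  have hkerM : LinearMap.ker M' ≤ LinearMap.range K := by
    intro x hx
    rw [LinearMap.mem_ker] at hx
    have h1 : x.1.1 * F + x.2.1 * G = 0 := by
      rw [← hM', hx]; rfl
    have h2 : G ∣ x.1.1 * F := by
      have : x.1.1 * F = -x.2.1 * G := by linear_combination h1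
      rw [this]; exact Dvd.intro_left _ rfl
    have h3 : G ∣ x.1.1 := (hrel.symm).dvd_of_dvd_mul_right h2
    obtain ⟨H, hH⟩ := h3
    have h4 : x.2.1 = - (H * F) := by
      have e1 : G * (H * F + x.2.1) = 0 := by
        rw [hH] at h1
        linear_combination h1
      rcases mul_eq_zero.1 e1 with h | h
      · exact absurd h hG0
      · linear_combination h
    -- H is homogeneous of degree N
    have h5 : H.IsHomogeneous N := by
      by_cases hH0 : H = 0
      · rw [hH0]; exact isHomogeneous_zero _ _ _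
      · have hx1 : (x.1.1).IsHomogeneous (N + b) := x.1.2
        have hx0 : x.1.1 ≠ 0 := by
          rw [hH]; exact mul_ne_zero hG0 hH0
        have hHd := homog_of_dvd hx1 hx0 (Dvd.intro_left G hH.symm)
        have h6 := hG.mul hHd
        rw [← hH] at h6
        have h7 := h6.inj_right hx1 hx0
        have h8 : H.totalDegree = N := by omega
        rwa [h8] at hHd
    refine ⟨⟨H, h5⟩, ?_⟩
    apply Prod.ext
    · apply Subtype.ext
      show H * G = x.1.1
      rw [hH, mul_comm]
    · apply Subtype.ext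
      show -(H * F) = x.2.1
      rw [h4]
  -- dimension count
  have d1 : Module.finrank k (LinearMap.ker M') ≤ (N + 2).choose 2 := by
    calc Module.finrank k (LinearMap.ker M') ≤ Module.finrank k (LinearMap.range K) :=
          Submodule.finrank_mono hkerM
      _ ≤ Module.finrank k (R N) := LinearMap.finrank_range_le K
      _ = _ := finrank_forms N
  have d2 : Module.finrank k (LinearMap.range Ψ) ≤
      Module.finrank k ((Σ p : P, De (s p)) → k) + Module.finrank k ((Σ p : P, De (r p)) → k) := by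
    have e1 := LinearMap.finrank_range_add_finrank_ker Ψ
    have e2 := LinearMap.finrank_range_add_finrank_ker Λ
    have e3 := Submodule.finrank_mono hker
    have e4 : Module.finrank k (LinearMap.range Λ) ≤ _ := Submodule.finrank_le (LinearMap.range Λ)
    rw [Module.finrank_prod] at e4
    omega
  have d3 : Module.finrank k (LinearMap.ker Ψ) ≤
      Module.finrank k (LinearMap.ker M') + Module.finrank k (LinearMap.ker Φ) :=
    finrank_ker_comp_le M' Φ
  have d4 : Module.finrank k (LinearMap.ker Φ) + Module.finrank k ((Σ p : P, De (t p)) → k) =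
      (N + a + b + 2).choose 2 := by
    have e1 := LinearMap.finrank_range_add_finrank_ker Φ
    rw [LinearMap.range_eq_top.2 hΦs, finrank_top] at e1
    have e2 : Module.finrank k Rn = (N + a + b + 2).choose 2 := finrank_forms _
    omega
  have d5 : Module.finrank k (LinearMap.range Ψ) + Module.finrank k (LinearMap.ker Ψ) =
      (N + b + 2).choose 2 + (N + a + 2).choose 2 := by
    have e1 := LinearMap.finrank_range_add_finrank_ker Ψ
    have e2 : Module.finrank k V = (N + b + 2).choose 2 + (N + a + 2).choose 2 := by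
      show Module.finrank k ((R (N + b)) × (R (N + a))) = _
      rw [Module.finrank_prod, finrank_forms, finrank_forms]
    omega
  have f1 := finrank_target P t
  have f2 := finrank_target P r
  have f3 := finrank_target P s
  have ch : ∀ m : ℕ, 2 * (m + 2).choose 2 = (m + 2) * (m + 1) := by
    intro m
    rw [Nat.choose_two_right]
    have : 2 ∣ (m + 2) * (m + 2 - 1) := (Nat.even_mul_pred_self (m + 2)).two_dvd
    rw [Nat.mul_div_cancel' this]
    rfl
  have c1 := ch (N + a + b)
  have c2 := ch (N + a)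
  have c3 := ch (N + b)
  have c4 := ch N
  have hsum : ∑ p ∈ P, t p * (t p + 1) = ∑ p ∈ P, r p * (r p + 1) + ∑ p ∈ P, s p * (s p + 1) +
      2 * ∑ p ∈ P, r p * s p := by
    rw [Finset.mul_sum, ← Finset.sum_add_distrib, ← Finset.sum_add_distrib]
    apply Finset.sum_congr rfl
    intro p _
    simp only [ht]
    ring
  have key : 2 * (N + b + 2).choose 2 + 2 * (N + a + 2).choose 2 +
      2 * Module.finrank k ((Σ p : P, De (t p)) → k) ≤
      2 * Module.finrank k ((Σ p : P, De (s p)) → k) + 2 * Module.finrank k ((Σ p : P, De (r p)) → k)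
      + 2 * (N + 2).choose 2 + 2 * (N + a + b + 2).choose 2 := by omega
  rw [c1, c2, c3, c4, f1, f2, f3, hsum] at key
  nlinarith


theorem exists_point_off [IsAlgClosed k] {F : MvPolynomial (Fin 3) k} {δ : ℕ}
    (hF : F.IsHomogeneous δ) (hirr : Irreducible F) (hδ : 2 ≤ δ) (W : Finset (PP k 2)) :
    ∃ p : PP k 2, p ∉ W ∧ eval p.rep F = 0 := by
  classical
  have hF0 : F ≠ 0 := hirr.ne_zero
  choose Lw hLw1 hLw2 hLw3 using (fun w : PP k 2 => pb_line w)
  have hprime : Prime F := hirr.prime
  have hH : ¬ F ∣ X 0 * ∏ w ∈ W, Lw w := by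
    intro hdvd
    rcases hprime.dvd_or_dvd hdvd with h | h
    · exact pb_not_dvd hF hF0 (isHomogeneous_X k 0) (X_ne_zero 0) (by omega) h
    · obtain ⟨w, _, hw⟩ := (hprime.dvd_finsetProd_iff _).1 h
      exact pb_not_dvd hF hF0 (hLw1 w) (hLw2 w) (by omega) hw
  obtain ⟨q, hqF, hqH⟩ := exists_zero_not hirr hH
  rw [map_mul, map_prod] at hqH
  have hqL0 : eval q (X 0 : MvPolynomial (Fin 3) k) ≠ 0 := left_ne_zero_of_mul hqH
  have hqLw : ∀ w ∈ W, eval q (Lw w) ≠ 0 := Finset.prod_ne_zero_iff.1 (right_ne_zero_of_mul hqH)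
  have hq0 : q ≠ 0 := by
    rintro rfl
    apply hqL0
    simp
  refine ⟨Projectivization.mk k q hq0, ?_, ?_⟩
  · intro h
    apply hqLw _ h
    rw [← eval_rep_eq_zero_iff (hLw1 _) q hq0]
    exact hLw3 _
  · exact (eval_rep_eq_zero_iff hF q hq0).2 hqF

theorem exists_points_off [IsAlgClosed k] {F : MvPolynomial (Fin 3) k} {δ : ℕ}
    (hF : F.IsHomogeneous δ) (hirr : Irreducible F) (hδ : 2 ≤ δ) (W : Finset (PP k 2)) (N : ℕ) :
    ∃ Z : Finset (PP k 2), Disjoint W Z ∧ Z.card = N ∧ ∀ p ∈ Z, eval p.rep F = 0 := by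
  classical
  induction N with
  | zero => exact ⟨∅, Finset.disjoint_empty_right _, rfl, by simp⟩
  | succ N ih =>
    obtain ⟨Z, hZ1, hZ2, hZ3⟩ := ih
    obtain ⟨p, hp, hpF⟩ := exists_point_off hF hirr hδ (W ∪ Z)
    rw [Finset.mem_union] at hp
    push Not at hp
    refine ⟨insert p Z, ?_, ?_, ?_⟩
    · rw [Finset.disjoint_insert_right]
      exact ⟨hp.1, hZ1⟩
    · rw [Finset.card_insert_of_notMem hp.2, hZ2]
    · intro x hx
      rcases Finset.mem_insert.1 hx with h | h
      · rw [h]; exact hpF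
      · exact hZ3 x h

/-- the genus inequality -/
theorem genus [IsAlgClosed k] {W : Finset (PP k 2)} {F : MvPolynomial (Fin 3) k} {δ : ℕ}
    (hF : F.IsHomogeneous δ) (hirr : Irreducible F) :
    ∑ w ∈ W, mu w.rep F * (mu w.rep F - 1) ≤ (δ - 1) * (δ - 2) := by
  classical
  have hF0 : F ≠ 0 := hirr.ne_zero
  have hdeg := hF.totalDegree hF0
  rcases Nat.lt_or_ge δ 2 with hδ | hδ
  · have h1 : ∀ w ∈ W, mu w.rep F * (mu w.rep F - 1) = 0 := by
      intro w _
      have h2 : mu w.rep F ≤ F.totalDegree := mu_le_totalDegree w.rep hF0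
      rw [hdeg] at h2
      have h3 : mu w.rep F - 1 = 0 := by omega
      rw [h3, mul_zero]
    rw [Finset.sum_eq_zero h1]
    exact Nat.zero_le _
  have hpb := polar_bound (W := W) hF hirr hδ
  set S := ∑ w ∈ W, mu w.rep F * (mu w.rep F - 1) with hS
  -- `S` is even
  obtain ⟨S', hS'⟩ : ∃ S', S = 2 * S' := by
    have : 2 ∣ S := by
      apply Finset.dvd_sum
      intro w _
      exact (Nat.even_mul_pred_self _).two_dvd
    exact this
  have ch : 2 * (δ + 1).choose 2 = (δ + 1) * δ := two_mul_choose_two_aux δ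
  have hN1 : S' + 1 ≤ (δ + 1).choose 2 := by
    have : δ * (δ - 1) ≤ (δ + 1) * δ := by
      rw [mul_comm (δ + 1)]
      apply Nat.mul_le_mul_left
      omega
    omega
  obtain ⟨N, hN⟩ : ∃ N, N + S' + 1 = (δ + 1).choose 2 :=
    ⟨(δ + 1).choose 2 - (S' + 1), by omega⟩
  obtain ⟨Z, hZ1, hZ2, hZ3⟩ := exists_points_off hF hirr hδ W N
  set t : PP k 2 → ℕ := fun p => if p ∈ W then mu p.rep F - 1 else 1 with ht
  set r : PP k 2 → ℕ := fun p => if p ∈ W then mu p.rep F else 1 with hr
  set P := W ∪ Z with hP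
  have hZW : ∀ p ∈ Z, p ∉ W := fun p hp hpW => Finset.disjoint_left.1 hZ1 hpW hp
  have hcnt : 2 * Module.finrank k ((Σ p : P, De (t p)) → k) = S + 2 * N := by
    rw [finrank_target, hP, Finset.sum_union hZ1]
    congr 1
    · rw [hS]
      apply Finset.sum_congr rfl
      intro w hw
      simp only [ht, if_pos hw]
      rcases Nat.eq_zero_or_pos (mu w.rep F) with h | h
      · rw [h]
      · rw [Nat.sub_add_cancel h, mul_comm]
    · rw [← hZ2, Finset.card_eq_sum_ones, Finset.mul_sum]
      apply Finset.sum_congr rfl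
      intro w hw
      simp only [ht, if_neg (hZW w hw)]
      norm_num
  -- the auxiliary form
  obtain ⟨G, hGh, hG0, hGm⟩ : ∃ G : MvPolynomial (Fin 3) k, G.IsHomogeneous (δ - 1) ∧ G ≠ 0 ∧
      ∀ p ∈ P, (chart p).φ G ∈ idealOfVars (Fin 2) k ^ (t p) := by
    let L : (homogeneousSubmodule (Fin 3) k (δ - 1)) →ₗ[k] ((Σ p : P, De (t p)) → k) :=
      (Phi P t).comp (homogeneousSubmodule (Fin 3) k (δ - 1)).subtype
    have hL : ∃ x, x ≠ 0 ∧ L x = 0 := by
      by_contra hcon
      push Not at hcon
      have hinj : Function.Injective L := by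
        rw [← LinearMap.ker_eq_bot, LinearMap.ker_eq_bot']
        intro x hx
        by_contra h0
        exact hcon x h0 hx
      have h1 := LinearMap.finrank_le_finrank_of_injective hinj
      rw [finrank_forms] at h1
      have h2 : δ - 1 + 2 = δ + 1 := by omega
      rw [h2] at h1
      omega
    obtain ⟨⟨G, hG⟩, hG0, hG1⟩ := hL
    refine ⟨G, hG, fun h => hG0 (Subtype.ext h), ?_⟩
    exact (Phi_eq_zero_iff P t G).1 hG1
  have hrel : IsRelPrime F G := (hirr.isRelPrime_iff_not_dvd).2 (pb_not_dvd hF hF0 hGh hG0 (by omega))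
  have hb := bezoutC hF hGh hF0 hG0 hrel P r t (by
    intro p hp
    apply Chart.mem_pow
    by_cases hpW : p ∈ W
    · simp only [hr, if_pos hpW]
      exact (mem_mI_pow_iff _ hF0 _).2 le_rfl
    · simp only [hr, if_neg hpW, pow_one]
      have : p ∈ Z := by
        rcases Finset.mem_union.1 hp with h | h
        · exact absurd h hpW
        · exact h
      exact hZ3 p this) hGm
  have hsum : ∑ p ∈ P, r p * t p = S + N := by
    rw [hP, Finset.sum_union hZ1]
    congr 1
    · rw [hS]
      apply Finset.sum_congr rfl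
      intro w hw
      simp only [ht, hr, if_pos hw]
    · rw [← hZ2, Finset.card_eq_sum_ones]
      apply Finset.sum_congr rfl
      intro w hw
      simp only [ht, hr, if_neg (hZW w hw)]
  rw [hsum] at hb
  obtain ⟨δ', rfl⟩ : ∃ δ', δ = δ' + 2 := ⟨δ - 2, by omega⟩
  have e1 : δ' + 2 - 1 = δ' + 1 := by omega
  have e2 : δ' + 2 - 2 = δ' := by omega
  rw [e1] at hb ⊢
  rw [e2]
  nlinarith

end Pool.Agent.H951R2
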