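import Mathlib

/-!
# Preperiodic points of `x ^ d + c`: orbits, local bounds and the Vandermonde bound
-/

set_option autoImplicit false

namespace Pool.Agent.H951R2.MS

open Finset Polynomial

variable {K : Type*} [Field K]

/-- the map `x ↦ x ^ d + c` -/
def uni (d : ℕ) (c : K) (x : K) : K := x ^ d + c

/-- `x` is preperiodic for `x ↦ x ^ d + c`: its forward orbit is finite -/
def IsPre (d : ℕ) (c : K) (x : K) : Prop := (Set.range fun n : ℕ => (uni d c)^[n] x).Finite

theorem IsPre.image {d : ℕ} {c x : K} (h : IsPre d c x) : IsPre d c (uni d c x) := by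
  refine h.subset ?_
  rintro _ ⟨n, rfl⟩
  exact ⟨n + 1, by simp [Function.iterate_succ]⟩

theorem IsPre.exists_max {d : ℕ} {c x : K} (h : IsPre d c x) (v : K → ℝ) :
    ∃ n : ℕ, ∀ m : ℕ, v ((uni d c)^[m] x) ≤ v ((uni d c)^[n] x) := by
  obtain ⟨y, ⟨n, rfl⟩, hy⟩ := Set.exists_max_image _ v h (Set.range_nonempty _)
  exact ⟨n, fun m => hy _ ⟨m, rfl⟩⟩

/-- preperiodic points at an arbitrary absolute value -/
theorem IsPre.le_two_mul {d : ℕ} (hd : 2 ≤ d) {c x : K} (h : IsPre d c x) (v : AbsoluteValue K ℝ)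
    {R : ℝ} (hR : 1 ≤ R) (hc : v c ≤ R ^ d) : v x ≤ 2 * R := by
  obtain ⟨n, hn⟩ := h.exists_max v
  refine (hn 0).trans ?_
  set y := (uni d c)^[n] x with hy
  have h1 : v (uni d c y) ≤ v y := by
    have := hn (n + 1)
    rwa [Function.iterate_succ_apply'] at this
  by_contra hcon
  push Not at hcon
  have h2 : v y ^ d ≤ v y + R ^ d := by
    have : y ^ d = uni d c y - c := by simp [uni]
    calc v y ^ d = v (y ^ d) := by rw [map_pow]
      _ = v (uni d c y - c) := by rw [this]
      _ ≤ v (uni d c y) + v c := by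
          have := v.add_le (uni d c y) (-c)
          rw [v.map_neg] at this
          rwa [sub_eq_add_neg]
      _ ≤ v y + R ^ d := add_le_add h1 hc
  have h3 : 2 < v y := by linarith
  have h4 : 2 * v y ≤ v y ^ d := by
    calc 2 * v y ≤ v y * v y := by nlinarith
      _ = v y ^ 2 := by ring
      _ ≤ v y ^ d := pow_le_pow_right₀ (by linarith) hd
  have h5 : v y ^ d ≤ 2 * R ^ d := by linarith
  have h6 : (2 * R) ^ d < v y ^ d := pow_lt_pow_left₀ hcon (by linarith) (by omega)
  have h7 : 2 * R ^ d ≤ (2 * R) ^ d := by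
    rw [mul_pow]
    have : (2 : ℝ) ≤ 2 ^ d := by
      calc (2 : ℝ) = 2 ^ 1 := by norm_num
        _ ≤ 2 ^ d := pow_le_pow_right₀ (by norm_num) (by omega)
    have h8 : 0 ≤ R ^ d := by positivity
    nlinarith
  linarith

/-- preperiodic points at a nonarchimedean absolute value -/
theorem IsPre.le_of_nonarch {d : ℕ} (hd : 2 ≤ d) {c x : K} (h : IsPre d c x)
    (v : AbsoluteValue K ℝ) (hv : IsNonarchimedean v)
    {R : ℝ} (hR : 1 ≤ R) (hc : v c ≤ R ^ d) : v x ≤ R := by
  obtain ⟨n, hn⟩ := h.exists_max v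
  refine (hn 0).trans ?_
  set y := (uni d c)^[n] x with hy
  have h1 : v (uni d c y) ≤ v y := by
    have := hn (n + 1)
    rwa [Function.iterate_succ_apply'] at this
  by_contra hcon
  push Not at hcon
  have h2 : v y ^ d ≤ max (v y) (R ^ d) := by
    have : y ^ d = uni d c y + (-c) := by simp [uni]
    calc v y ^ d = v (y ^ d) := by rw [map_pow]
      _ = v (uni d c y + (-c)) := by rw [this]
      _ ≤ max (v (uni d c y)) (v (-c)) := hv _ _
      _ ≤ max (v y) (R ^ d) := by
          rw [v.map_neg]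
          exact max_le_max h1 hc
  have h3 : 1 < v y := by linarith
  have h4 : v y < v y ^ d := by
    calc v y = v y ^ 1 := by ring
      _ < v y ^ d := pow_lt_pow_right₀ h3 (by omega)
  have h6 : R ^ d < v y ^ d := pow_lt_pow_left₀ hcon (by linarith) (by omega)
  exact absurd h2 (not_le.2 (max_lt h4 h6))

/-- monic polynomials with small values at the preperiodic points -/
theorem exists_monic {d : ℕ} (hd : 2 ≤ d) (c : K) (m : ℕ) :
    ∃ p : K[X], p.Monic ∧ p.natDegree = m ∧
      ∀ (v : AbsoluteValue K ℝ) (R : ℝ), 1 ≤ R → (∀ y, IsPre d c y → v y ≤ R) →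
        ∀ x, IsPre d c x → v (p.eval x) ≤ R ^ (d * (Nat.log d m + 1)) := by
  induction m using Nat.strong_induction_on with
  | _ m ih =>
    rcases lt_or_ge m d with hm | hm
    · refine ⟨X ^ m, monic_X_pow m, natDegree_X_pow m, ?_⟩
      intro v R hR hpre x hx
      rw [eval_pow, eval_X, map_pow]
      calc v x ^ m ≤ R ^ m := pow_le_pow_left₀ (v.nonneg _) (hpre x hx) _
        _ ≤ _ := pow_le_pow_right₀ hR (by nlinarith [Nat.zero_le (Nat.log d m)])
    · obtain ⟨p, hp1, hp2, hp3⟩ := ih (m / d) (Nat.div_lt_self (by omega) (by omega))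
      have hq : (X ^ d + C c : K[X]).Monic := monic_X_pow_add_C c (by omega)
      have hqd : (X ^ d + C c : K[X]).natDegree = d := natDegree_X_pow_add_C
      refine ⟨p.comp (X ^ d + C c) * X ^ (m % d), ?_, ?_, ?_⟩
      · exact (hp1.comp hq (by rw [hqd]; omega)).mul (monic_X_pow _)
      · rw [(hp1.comp hq (by rw [hqd]; omega)).natDegree_mul (monic_X_pow _), natDegree_comp,
          natDegree_X_pow, hp2, hqd]
        exact Nat.div_add_mod' m d
      · intro v R hR hpre x hx
        have hu : IsPre d c (uni d c x) := hx.image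
        have e1 : (p.comp (X ^ d + C c) * X ^ (m % d)).eval x =
            p.eval (uni d c x) * x ^ (m % d) := by
          simp [uni, eval_comp]
        rw [e1, map_mul, map_pow]
        have hl : Nat.log d m = Nat.log d (m / d) + 1 := by
          rw [Nat.log_div_base]
          have : 1 ≤ Nat.log d m := Nat.log_pos (by omega) hm
          omega
        calc v (p.eval (uni d c x)) * v x ^ (m % d)
            ≤ R ^ (d * (Nat.log d (m / d) + 1)) * R ^ (m % d) :=
              mul_le_mul (hp3 v R hR hpre _ hu) (pow_le_pow_left₀ (v.nonneg _) (hpre x hx) _)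
                (pow_nonneg (v.nonneg _) _) (by positivity)
          _ = R ^ (d * (Nat.log d (m / d) + 1) + m % d) := by rw [pow_add]
          _ ≤ R ^ (d * (Nat.log d m + 1)) := by
              refine pow_le_pow_right₀ hR ?_
              have := Nat.mod_lt m (show 0 < d by omega)
              rw [hl]
              nlinarith

/-- the discriminant-like product of a finite set -/
def dsc [DecidableEq K] (S : Finset K) : K := ∏ p ∈ S.offDiag, (p.1 - p.2)

theorem dsc_ne_zero [DecidableEq K] (S : Finset K) : dsc S ≠ 0 := by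
  refine Finset.prod_ne_zero_iff.2 ?_
  rintro ⟨a, b⟩ hp
  rw [Finset.mem_offDiag] at hp
  exact sub_ne_zero.2 hp.2.2

theorem abs_dsc_eq [DecidableEq K] (v : AbsoluteValue K ℝ) (S : Finset K) :
    ∃ x : Fin S.card → K, (∀ i, x i ∈ S) ∧ v (dsc S) = v (Matrix.vandermonde x).det ^ 2 := by
  classical
  let e : Fin S.card ≃ S := S.equivFin.symm
  refine ⟨fun i => (e i : K), fun i => (e i).2, ?_⟩
  rw [Matrix.det_vandermonde, map_prod, ← Finset.prod_pow]
  have h1 : ∀ i : Fin S.card, v (∏ j ∈ Ioi i, ((e j : K) - (e i : K))) ^ 2 =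
      ∏ j ∈ Ioi i, (v ((e j : K) - (e i : K)) * v ((e i : K) - (e j : K))) := by
    intro i
    rw [map_prod, ← Finset.prod_pow]
    refine Finset.prod_congr rfl fun j _ => ?_
    rw [v.map_sub (e i : K) (e j : K)]
    ring
  rw [Finset.prod_congr rfl fun i _ => h1 i]
  rw [Finset.prod_prod_Ioi_mul_eq_prod_prod_off_diag
    (fun i j : Fin S.card => v ((e i : K) - (e j : K)))]
  rw [dsc, map_prod, Finset.prod_sigma']
  symm
  refine Finset.prod_bij (fun p _ => ((e p.2 : K), (e p.1 : K))) ?_ ?_ ?_ ?_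
  · rintro ⟨i, j⟩ hij
    simp only [Finset.mem_sigma, Finset.mem_univ, true_and, Finset.mem_compl,
      Finset.mem_singleton] at hij
    rw [Finset.mem_offDiag]
    refine ⟨(e j).2, (e i).2, ?_⟩
    intro h
    exact hij (e.injective (Subtype.ext h))
  · rintro ⟨i, j⟩ _ ⟨i', j'⟩ _ h
    simp only [Prod.mk.injEq] at h
    have h1 := e.injective (Subtype.ext h.1)
    have h2 := e.injective (Subtype.ext h.2)
    subst h1 h2
    rfl
  · rintro ⟨a, b⟩ hab
    rw [Finset.mem_offDiag] at hab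
    refine ⟨⟨e.symm ⟨b, hab.2.1⟩, e.symm ⟨a, hab.1⟩⟩, ?_, ?_⟩
    · simp only [Finset.mem_sigma, Finset.mem_univ, true_and, Finset.mem_compl,
        Finset.mem_singleton]
      intro h
      have := e.symm.injective h
      exact hab.2.2 (by simpa using this)
    · simp
  · rintro ⟨i, j⟩ _
    rfl

/-- the Vandermonde bound at an arbitrary absolute value -/
theorem dsc_le_arch [DecidableEq K] {d : ℕ} (hd : 2 ≤ d) {c : K} (v : AbsoluteValue K ℝ)
    {R : ℝ} (hR : 1 ≤ R) (hpre : ∀ y, IsPre d c y → v y ≤ R) (S : Finset K)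
    (hS : ∀ x ∈ S, IsPre d c x) :
    v (dsc S) ≤ ((S.card.factorial : ℝ) *
      R ^ (S.card * (d * (Nat.log d S.card + 1)))) ^ 2 := by
  obtain ⟨x, hx, h⟩ := abs_dsc_eq v S
  rw [h]
  refine pow_le_pow_left₀ (v.nonneg _) ?_ 2
  choose p hp1 hp2 hp3 using fun m : ℕ => exists_monic hd c m
  rw [Matrix.det_eval_matrixOfPolynomials_eq_det_vandermonde x (fun j => p j)
    (fun i => hp2 i) (fun i => hp1 i)]
  have := Matrix.det_le (A := Matrix.of (fun i j : Fin S.card => ((p j).eval (x i))))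
    (abv := v) (x := R ^ (d * (Nat.log d S.card + 1))) ?_
  · refine this.trans ?_
    rw [Fintype.card_fin, nsmul_eq_mul, ← pow_mul]
    refine mul_le_mul_of_nonneg_left ?_ (by positivity)
    refine pow_le_pow_right₀ hR (le_of_eq (by ring))
  · intro i j
    rw [Matrix.of_apply]
    refine (hp3 j v R hR hpre (x i) (hS _ (hx i))).trans (pow_le_pow_right₀ hR ?_)
    have := Nat.log_mono_right (b := d) (le_of_lt j.2)
    gcongr

/-- nonarchimedean determinant bound -/
theorem det_le_nonarch (v : AbsoluteValue K ℝ) (hv : IsNonarchimedean v) {n : ℕ}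
    (A : Matrix (Fin n) (Fin n) K) {B : ℝ} (hA : ∀ i j, v (A i j) ≤ B) :
    v A.det ≤ B ^ n := by
  classical
  rw [Matrix.det_apply]
  obtain ⟨σ, hσ⟩ : ∃ σ : Equiv.Perm (Fin n), v (∑ σ : Equiv.Perm (Fin n),
      Equiv.Perm.sign σ • ∏ i, A (σ i) i) ≤ v (Equiv.Perm.sign σ • ∏ i, A (σ i) i) := by
    obtain ⟨σ, _, hσ⟩ := hv.finset_image_add_of_nonempty
      (fun σ : Equiv.Perm (Fin n) => Equiv.Perm.sign σ • ∏ i, A (σ i) i)
      (t := Finset.univ) ⟨1, Finset.mem_univ _⟩
    exact ⟨σ, hσ⟩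
  refine hσ.trans ?_
  have h1 : v (Equiv.Perm.sign σ • ∏ i, A (σ i) i) = ∏ i, v (A (σ i) i) := by
    rcases Int.units_eq_one_or (Equiv.Perm.sign σ) with h | h
    · rw [h, one_smul, map_prod]
    · rw [h, Units.neg_smul, one_smul, v.map_neg, map_prod]
  rw [h1]
  calc ∏ i, v (A (σ i) i) ≤ ∏ _i : Fin n, B :=
        Finset.prod_le_prod (fun _ _ => v.nonneg _) (fun i _ => hA _ _)
    _ = B ^ n := by simp

/-- the Vandermonde bound at a nonarchimedean absolute value -/
theorem dsc_le_nonarch [DecidableEq K] {d : ℕ} (hd : 2 ≤ d) {c : K} (v : AbsoluteValue K ℝ)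
    (hv : IsNonarchimedean v) {R : ℝ} (hR : 1 ≤ R) (hpre : ∀ y, IsPre d c y → v y ≤ R)
    (S : Finset K) (hS : ∀ x ∈ S, IsPre d c x) :
    v (dsc S) ≤ (R ^ (S.card * (d * (Nat.log d S.card + 1)))) ^ 2 := by
  obtain ⟨x, hx, h⟩ := abs_dsc_eq v S
  rw [h]
  refine pow_le_pow_left₀ (v.nonneg _) ?_ 2
  choose p hp1 hp2 hp3 using fun m : ℕ => exists_monic hd c m
  rw [Matrix.det_eval_matrixOfPolynomials_eq_det_vandermonde x (fun j => p j)
    (fun i => hp2 i) (fun i => hp1 i)]
  refine (det_le_nonarch v hv _ (B := R ^ (d * (Nat.log d S.card + 1))) ?_).trans ?_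
  · intro i j
    rw [Matrix.of_apply]
    refine (hp3 j v R hR hpre (x i) (hS _ (hx i))).trans (pow_le_pow_right₀ hR ?_)
    have := Nat.log_mono_right (b := d) (le_of_lt j.2)
    gcongr
  · rw [← pow_mul]
    exact pow_le_pow_right₀ hR (le_of_eq (by ring))

end Pool.Agent.H951R2.MS
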