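import Pool.Agent.H951R2.MSBasic

/-!
# Classes of preperiodic points at one place
-/

set_option autoImplicit false

namespace Pool.Agent.H951R2.MS

open Finset Polynomial

universe u

/-- Lagrange interpolation: a monic polynomial of degree `k` is not small at `k + 1` separated
points. -/
theorem lagrange_sep {K : Type u} [Field K] [DecidableEq K] (v : AbsoluteValue K ℝ) {k : ℕ}
    {P : K[X]} (hP : P.Monic) (hk : P.natDegree = k) (A : Finset K) (hA : A.card = k + 1)
    {η θ : ℝ} (hθ : 0 < θ) (hη : ∀ a ∈ A, v (P.eval a) ≤ η)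
    (hsep : ∀ a ∈ A, ∀ b ∈ A, a ≠ b → θ ≤ v (a - b)) : θ ^ k ≤ (k + 1) * η := by
  have hdeg : (#A : WithBot ℕ) = P.degree + 1 := by
    rw [hA, degree_eq_natDegree hP.ne_zero, hk]
    norm_cast
  have h1 := Lagrange.leadingCoeff_eq_sum (s := A) (v := fun a : K => a)
    (fun a _ b _ h => h) hdeg
  rw [hP.leadingCoeff] at h1
  have hη0 : 0 ≤ η := by
    obtain ⟨a, ha⟩ : A.Nonempty := Finset.card_pos.1 (by omega)
    exact (v.nonneg _).trans (hη a ha)
  have h2 : (1 : ℝ) ≤ ∑ a ∈ A, η / θ ^ k := by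
    calc (1 : ℝ) = v 1 := v.map_one.symm
      _ = v (∑ i ∈ A, eval i P / ∏ j ∈ A.erase i, (i - j)) := by rw [← h1]
      _ ≤ ∑ i ∈ A, v (eval i P / ∏ j ∈ A.erase i, (i - j)) := v.sum_le _ _
      _ ≤ ∑ a ∈ A, η / θ ^ k := by
          refine Finset.sum_le_sum fun a ha => ?_
          rw [map_div₀, map_prod]
          have h3 : θ ^ k ≤ ∏ j ∈ A.erase a, v (a - j) := by
            calc θ ^ k = ∏ _j ∈ A.erase a, θ := by
                  rw [Finset.prod_const, Finset.card_erase_of_mem ha, hA, Nat.add_sub_cancel]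
              _ ≤ _ := Finset.prod_le_prod (fun _ _ => hθ.le) fun j hj => by
                  rw [Finset.mem_erase] at hj
                  exact hsep a ha j hj.2 (Ne.symm hj.1)
          exact div_le_div₀ hη0 (hη a ha) (by positivity) h3
  rw [Finset.sum_const, hA, nsmul_eq_mul] at h2
  rw [← mul_div_assoc, le_div_iff₀ (by positivity), one_mul] at h2
  push_cast at h2
  exact h2

/-- Lagrange interpolation, nonarchimedean version -/
theorem lagrange_sep_nonarch {K : Type u} [Field K] [DecidableEq K] (v : AbsoluteValue K ℝ)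
    (hv : IsNonarchimedean v) {k : ℕ}
    {P : K[X]} (hP : P.Monic) (hk : P.natDegree = k) (A : Finset K) (hA : A.card = k + 1)
    {θ : ℝ} (hθ : 0 < θ)
    (hsep : ∀ a ∈ A, ∀ b ∈ A, a ≠ b → θ ≤ v (a - b)) : ∃ a ∈ A, θ ^ k ≤ v (P.eval a) := by
  have hdeg : (#A : WithBot ℕ) = P.degree + 1 := by
    rw [hA, degree_eq_natDegree hP.ne_zero, hk]
    norm_cast
  have h1 := Lagrange.leadingCoeff_eq_sum (s := A) (v := fun a : K => a)
    (fun a _ b _ h => h) hdeg
  rw [hP.leadingCoeff] at h1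
  obtain ⟨a, ha, h2⟩ := hv.finset_image_add_of_nonempty
    (fun i : K => eval i P / ∏ j ∈ A.erase i, (i - j)) (t := A)
    (Finset.card_pos.1 (by omega))
  refine ⟨a, ha, ?_⟩
  rw [← h1, v.map_one, map_div₀, map_prod] at h2
  have h3 : θ ^ k ≤ ∏ j ∈ A.erase a, v (a - j) := by
    calc θ ^ k = ∏ _j ∈ A.erase a, θ := by
          rw [Finset.prod_const, Finset.card_erase_of_mem ha, hA, Nat.add_sub_cancel]
      _ ≤ _ := Finset.prod_le_prod (fun _ _ => hθ.le) fun j hj => by
          rw [Finset.mem_erase] at hj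
          exact hsep a ha j hj.2 (Ne.symm hj.1)
  have h4 : 0 < ∏ j ∈ A.erase a, v (a - j) := lt_of_lt_of_le (by positivity) h3
  rw [le_div_iff₀ h4, one_mul] at h2
  exact h3.trans h2

/-- separated sets -/
def SepOn {K : Type u} (r : K → K → Prop) (A : Finset K) : Prop :=
  ∀ a ∈ A, ∀ b ∈ A, a ≠ b → r a b

/-- a maximal separated subset -/
theorem exists_net {K : Type u} [DecidableEq K] (T : Finset K) (r : K → K → Prop)
    (hr : ∀ a ∈ T, ¬ r a a) (hsymm : ∀ a b, r a b → r b a) :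
    ∃ A ⊆ T, SepOn r A ∧ ∀ t ∈ T, ∃ a ∈ A, ¬ r t a := by
  classical
  obtain ⟨A, hA, hmax⟩ := Finset.exists_max_image
    (T.powerset.filter fun A => SepOn r A) Finset.card
    ⟨∅, Finset.mem_filter.2 ⟨by simp, fun a ha => absurd ha (Finset.notMem_empty a)⟩⟩
  rw [Finset.mem_filter, Finset.mem_powerset] at hA
  refine ⟨A, hA.1, hA.2, ?_⟩
  intro t ht
  by_contra hcon
  push Not at hcon
  have htA : t ∉ A := fun h => hr t ht (hcon t h)
  have h1 : insert t A ∈ T.powerset.filter fun A => SepOn r A := by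
    rw [Finset.mem_filter, Finset.mem_powerset]
    refine ⟨Finset.insert_subset ht hA.1, ?_⟩
    intro a ha b hb hab
    rw [Finset.mem_insert] at ha hb
    rcases ha with rfl | ha
    · rcases hb with rfl | hb
      · exact absurd rfl hab
      · exact hcon b hb
    · rcases hb with rfl | hb
      · exact hsymm _ _ (hcon a ha)
      · exact hA.2 a ha b hb hab
  have h2 := hmax _ h1
  rw [Finset.card_insert_of_notMem htA] at h2
  omega

/-- pigeonhole on separated classes -/
theorem exists_class {K : Type u} [Field K] [DecidableEq K] (v : AbsoluteValue K ℝ) {A₁ θ : ℝ}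
    (hA₁ : 0 ≤ A₁) (h2 : 2 * A₁ ≤ θ) {k : ℕ} (T : Finset K)
    (hdich : ∀ a ∈ T, ∀ b ∈ T, v (a - b) ≤ A₁ ∨ θ < v (a - b))
    (hcard : ∀ A ⊆ T, SepOn (fun a b => θ < v (a - b)) A → A.card ≤ k)
    (S : Finset K) (g : K → K) (hg : ∀ s ∈ S, g s ∈ T) :
    ∃ S' ⊆ S, S.card ≤ k * S'.card ∧ ∀ x ∈ S', ∀ y ∈ S', v (g x - g y) ≤ A₁ := by
  classical
  rcases S.eq_empty_or_nonempty with rfl | hSne
  · exact ⟨∅, by simp⟩
  obtain ⟨A, hAT, hsep, hnet⟩ := exists_net T (fun a b => θ < v (a - b))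
    (fun a _ => by simp; linarith) (fun a b h => by rw [v.map_sub]; exact h)
  have hnet' : ∀ s ∈ S, ∃ a ∈ A, v (g s - a) ≤ A₁ := by
    intro s hs
    obtain ⟨a, ha, h⟩ := hnet (g s) (hg s hs)
    refine ⟨a, ha, ?_⟩
    rcases hdich (g s) (hg s hs) a (hAT ha) with h' | h'
    · exact h'
    · exact absurd h' h
  choose! π hπ1 hπ2 using hnet'
  have hAne : A.Nonempty := by
    obtain ⟨s, hs⟩ := hSne
    exact ⟨π s, hπ1 s hs⟩
  obtain ⟨a, ha, hmax⟩ := Finset.exists_max_image A (fun a => (S.filter fun s => π s = a).card)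
    hAne
  refine ⟨S.filter fun s => π s = a, Finset.filter_subset _ _, ?_, ?_⟩
  · have := Finset.card_le_mul_card_image_of_maps_to (f := π) (s := S) (t := A) hπ1
      ((S.filter fun s => π s = a).card) (fun b hb => hmax b hb)
    calc S.card ≤ (S.filter fun s => π s = a).card * A.card := this
      _ ≤ (S.filter fun s => π s = a).card * k := Nat.mul_le_mul_left _ (hcard A hAT hsep)
      _ = _ := Nat.mul_comm _ _
  · intro x hx y hy
    rw [Finset.mem_filter] at hx hy
    have e1 := hπ2 x hx.1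
    have e2 := hπ2 y hy.1
    rw [hx.2] at e1
    rw [hy.2] at e2
    have e3 : v (g x - g y) ≤ 2 * A₁ := by
      calc v (g x - g y) = v ((g x - a) - (g y - a)) := by congr 1; ring
        _ ≤ v (g x - a) + v (g y - a) := by
            have := v.add_le (g x - a) (-(g y - a))
            rw [v.map_neg] at this
            rwa [sub_eq_add_neg (g x - a)]
        _ ≤ 2 * A₁ := by linarith
    rcases hdich (g x) (hg x hx.1) (g y) (hg y hy.1) with h' | h'
    · exact h'
    · linarith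

theorem abs_pow_sub_pow_le {K : Type u} [Field K] (v : AbsoluteValue K ℝ) {x y : K} {M : ℝ}
    (hx : v x ≤ M) (hy : v y ≤ M) (i : ℕ) :
    v (x ^ i - y ^ i) ≤ v (x - y) * (i * M ^ (i - 1)) := by
  have hM : 0 ≤ M := (v.nonneg _).trans hx
  rw [← geom_sum₂_mul, map_mul, mul_comm]
  refine mul_le_mul_of_nonneg_left ?_ (v.nonneg _)
  calc v (∑ j ∈ range i, x ^ j * y ^ (i - 1 - j)) ≤ ∑ j ∈ range i, v (x ^ j * y ^ (i - 1 - j)) :=
        v.sum_le _ _
    _ ≤ ∑ _j ∈ range i, M ^ (i - 1) := by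
        refine Finset.sum_le_sum fun j hj => ?_
        rw [Finset.mem_range] at hj
        rw [map_mul, map_pow, map_pow]
        calc v x ^ j * v y ^ (i - 1 - j) ≤ M ^ j * M ^ (i - 1 - j) :=
              mul_le_mul (pow_le_pow_left₀ (v.nonneg _) hx _)
                (pow_le_pow_left₀ (v.nonneg _) hy _) (pow_nonneg (v.nonneg _) _)
                (pow_nonneg hM _)
          _ = M ^ (i - 1) := by rw [← pow_add]; congr 1; omega
    _ = i * M ^ (i - 1) := by simp

/-- nearby points are separated by the map -/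
theorem key_ineq {K : Type u} [Field K] (v : AbsoluteValue K ℝ) {d : ℕ} (hd : 2 ≤ d) {δ r : ℝ}
    (hδ : 0 < δ) (hvd : δ ≤ v (d : K)) (hr : 1 ≤ r) {x y : K} (hx : v x ≤ 2 * r)
    (hy : v y ≤ 2 * r) (hy' : r / 2 ≤ v y) (hxy : v (x - y) ≤ δ / (d ^ 2 * 4 ^ d) * r) :
    δ * r ^ (d - 1) * v (x - y) ≤ 2 ^ d * v (x ^ d - y ^ d) := by
  obtain ⟨e, rfl⟩ : ∃ e, d = e + 2 := ⟨d - 2, by omega⟩
  set h := v (x - y) with hh
  have hh0 : 0 ≤ h := v.nonneg _
  have hS : x ^ (e + 2) - y ^ (e + 2) =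
      (∑ i ∈ range (e + 2), x ^ i * y ^ (e + 2 - 1 - i)) * (x - y) := (geom_sum₂_mul x y _).symm
  have hdiff : v ((∑ i ∈ range (e + 2), x ^ i * y ^ (e + 2 - 1 - i)) -
      ((e + 2 : ℕ) : K) * y ^ (e + 1)) ≤ h * ((e + 2) ^ 2 * (2 * r) ^ e) := by
    have e1 : ((e + 2 : ℕ) : K) * y ^ (e + 1) = ∑ i ∈ range (e + 2), y ^ (e + 1) := by simp
    rw [e1, ← Finset.sum_sub_distrib]
    calc v (∑ i ∈ range (e + 2), (x ^ i * y ^ (e + 2 - 1 - i) - y ^ (e + 1)))
        ≤ ∑ i ∈ range (e + 2), v (x ^ i * y ^ (e + 2 - 1 - i) - y ^ (e + 1)) := v.sum_le _ _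
      _ ≤ ∑ _i ∈ range (e + 2), h * ((e + 2) * (2 * r) ^ e) := by
          refine Finset.sum_le_sum fun i hi => ?_
          rw [Finset.mem_range] at hi
          have e2 : x ^ i * y ^ (e + 2 - 1 - i) - y ^ (e + 1) =
              (x ^ i - y ^ i) * y ^ (e + 2 - 1 - i) := by
            rw [sub_mul, ← pow_add]
            congr 2
            omega
          rw [e2, map_mul, map_pow]
          rcases Nat.eq_zero_or_pos i with rfl | hi0
          · simp
            positivity
          · calc v (x ^ i - y ^ i) * v y ^ (e + 2 - 1 - i)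
                ≤ (h * (i * (2 * r) ^ (i - 1))) * (2 * r) ^ (e + 2 - 1 - i) :=
                  mul_le_mul (abs_pow_sub_pow_le v hx hy i)
                    (pow_le_pow_left₀ (v.nonneg _) hy _) (pow_nonneg (v.nonneg _) _)
                    (by positivity)
              _ = h * (i * ((2 * r) ^ (i - 1) * (2 * r) ^ (e + 2 - 1 - i))) := by ring
              _ = h * (i * (2 * r) ^ e) := by
                  rw [← pow_add]
                  congr 4
                  omega
              _ ≤ h * ((e + 2) * (2 * r) ^ e) := by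
                  refine mul_le_mul_of_nonneg_left ?_ hh0
                  refine mul_le_mul_of_nonneg_right ?_ (by positivity)
                  exact_mod_cast hi.le
      _ = h * ((e + 2) ^ 2 * (2 * r) ^ e) := by
          rw [Finset.sum_const, Finset.card_range, nsmul_eq_mul]
          push_cast
          ring
  have hlow : δ * (r / 2) ^ (e + 1) ≤ v (((e + 2 : ℕ) : K) * y ^ (e + 1)) := by
    rw [map_mul, map_pow]
    exact mul_le_mul hvd (pow_le_pow_left₀ (by positivity) hy' _) (by positivity) (v.nonneg _)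
  have hsum : δ * (r / 2) ^ (e + 1) - h * ((e + 2) ^ 2 * (2 * r) ^ e) ≤
      v (∑ i ∈ range (e + 2), x ^ i * y ^ (e + 2 - 1 - i)) := by
    have h1 := v.sub_le (((e + 2 : ℕ) : K) * y ^ (e + 1))
      (∑ i ∈ range (e + 2), x ^ i * y ^ (e + 2 - 1 - i)) 0
    rw [sub_zero, sub_zero, v.map_sub] at h1
    linarith
  have hsmall : h * ((e + 2) ^ 2 * (2 * r) ^ e) ≤ δ * r ^ (e + 1) / (2 ^ (e + 2) * 4) := by
    have hxy' : h ≤ δ / ((e + 2) ^ 2 * 4 ^ (e + 2)) * r := by
      have := hxy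
      push_cast at this
      exact this
    calc h * ((e + 2) ^ 2 * (2 * r) ^ e)
        ≤ (δ / ((e + 2) ^ 2 * 4 ^ (e + 2)) * r) * ((e + 2) ^ 2 * (2 * r) ^ e) :=
          mul_le_mul_of_nonneg_right hxy' (by positivity)
      _ = δ * r ^ (e + 1) / (2 ^ (e + 2) * 4) := by
          have h4 : (4 : ℝ) ^ (e + 2) = 2 ^ (e + 2) * 2 ^ (e + 2) := by
            rw [← mul_pow]; norm_num
          rw [h4, mul_pow]
          field_simp
          ring
  have hfin : δ * r ^ (e + 1) / 2 ^ (e + 2) ≤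
      v (∑ i ∈ range (e + 2), x ^ i * y ^ (e + 2 - 1 - i)) := by
    refine le_trans ?_ hsum
    have e3 : δ * (r / 2) ^ (e + 1) = 2 * (δ * r ^ (e + 1) / 2 ^ (e + 2)) := by
      rw [div_pow, pow_succ (2 : ℝ) (e + 1)]
      field_simp
    have e4 : δ * r ^ (e + 1) / (2 ^ (e + 2) * 4) ≤ δ * r ^ (e + 1) / 2 ^ (e + 2) := by
      refine div_le_div_of_nonneg_left (by positivity) (by positivity) ?_
      have : (0 : ℝ) < 2 ^ (e + 2) := by positivity
      linarith
    rw [e3]
    linarith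
  have e5 : e + 2 - 1 = e + 1 := by omega
  rw [hS, map_mul, e5]
  rw [e5] at hfin
  calc δ * r ^ (e + 1) * h = 2 ^ (e + 2) * (δ * r ^ (e + 1) / 2 ^ (e + 2) * h) := by
        field_simp
    _ ≤ 2 ^ (e + 2) * (v (∑ i ∈ range (e + 2), x ^ i * y ^ (e + 1 - i)) * v (x - y)) := by
        refine mul_le_mul_of_nonneg_left ?_ (by positivity)
        exact mul_le_mul_of_nonneg_right hfin hh0

end Pool.Agent.H951R2.MS
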