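import Pool.Agent.H951R2.MSHeight

/-!
# The bound in terms of the good and the bad height
-/

set_option autoImplicit false

namespace Pool.Agent.H951R2.MS

open Finset NumberField Real

universe u

/-- from pairwise distances to the discriminant -/
theorem gain_sum {K : Type u} [Field K] [DecidableEq K] (v : AbsoluteValue K ℝ) {μ g : ℝ}
    (S : Finset K)
    (h : ∀ x ∈ S, ∀ y ∈ S, x ≠ y → μ * log (v (x - y)) ≤ -g) :
    μ * log (v (dsc S)) ≤ -(((S.card : ℝ) ^ 2 - S.card) * g) := by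
  have hlog : log (v (dsc S)) = ∑ p ∈ S.offDiag, log (v (p.1 - p.2)) := by
    rw [dsc, map_prod, log_prod]
    intro p hp
    rw [Finset.mem_offDiag] at hp
    exact (v.pos (sub_ne_zero.2 hp.2.2)).ne'
  have hoff : (S.offDiag.card : ℝ) = (S.card : ℝ) ^ 2 - S.card := by
    rw [Finset.offDiag_card, Nat.cast_sub (Nat.le_mul_self _)]
    push_cast
    ring
  rw [hlog, Finset.mul_sum]
  calc ∑ p ∈ S.offDiag, μ * log (v (p.1 - p.2)) ≤ ∑ _p ∈ S.offDiag, -g := by
        refine Finset.sum_le_sum fun p hp => ?_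
        rw [Finset.mem_offDiag] at hp
        exact h p.1 hp.1 p.2 hp.2.1 hp.2.2
    _ = _ := by
        rw [Finset.sum_const, nsmul_eq_mul, hoff]
        ring

/-- solving `m ≤ C r (1 + 2 log m)` -/
theorem real_end {C r m : ℝ} (hC : 1 ≤ C) (hr : 1 ≤ r) (hm : 0 < m)
    (h : m ≤ C * r * (1 + 2 * log m)) :
    m ≤ 4 * C * (log (4 * C) / log 2 + 1) * r * log (1 + r) := by
  have hl2 : 0 < log (2 : ℝ) := log_pos (by norm_num)
  have ha : 0 < 4 * C * r := by positivity
  have h1 : log m ≤ log (4 * C * r) + m / (4 * C * r) - 1 := by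
    have h2 := log_le_sub_one_of_pos (div_pos hm ha)
    rw [log_div hm.ne' ha.ne'] at h2
    linarith
  have h3 : C * r * (2 * (m / (4 * C * r))) = m / 2 := by
    field_simp
    ring
  have h4 : m ≤ C * r * (2 * log (4 * C * r) - 1) + m / 2 := by
    calc m ≤ C * r * (1 + 2 * log m) := h
      _ ≤ C * r * (1 + 2 * (log (4 * C * r) + m / (4 * C * r) - 1)) := by
          refine mul_le_mul_of_nonneg_left ?_ (by positivity)
          linarith
      _ = C * r * (2 * log (4 * C * r) - 1) + C * r * (2 * (m / (4 * C * r))) := by ring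
      _ = _ := by rw [h3]
  have h5 : m ≤ 4 * C * r * log (4 * C * r) := by
    have h6 : 0 < C * r := by positivity
    nlinarith
  refine h5.trans ?_
  have h7 : log (4 * C * r) = log (4 * C) + log r := log_mul (by positivity) (by positivity)
  have h8 : log r ≤ log (1 + r) := log_le_log (by linarith) (by linarith)
  have h9 : log 2 ≤ log (1 + r) := log_le_log (by norm_num) (by linarith)
  have h10 : 0 ≤ log (4 * C) := log_nonneg (by linarith)
  have h11 : log (4 * C) ≤ log (4 * C) / log 2 * log (1 + r) := by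
    rw [div_mul_eq_mul_div, le_div_iff₀ hl2]
    exact mul_le_mul_of_nonneg_left h9 h10
  calc 4 * C * r * log (4 * C * r) ≤ 4 * C * r * ((log (4 * C) / log 2 + 1) * log (1 + r)) := by
        refine mul_le_mul_of_nonneg_left ?_ (by positivity)
        rw [h7]
        linarith
    _ = _ := by ring

theorem natLog_bound {d m : ℕ} (hd : 2 ≤ d) (hm : 1 ≤ m) :
    (Nat.log d m : ℝ) + 1 ≤ 1 + 2 * log m := by
  have h1 : (d : ℝ) ^ (Nat.log d m) ≤ m := by
    exact_mod_cast Nat.pow_log_le_self d (by omega)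
  have h2 : (Nat.log d m : ℝ) * log d ≤ log m := by
    have h3 := log_le_log (by positivity) h1
    rwa [log_pow] at h3
  have h4 : (1 : ℝ) / 2 ≤ log d := by
    have h5 : log 2 ≤ log (d : ℝ) := log_le_log (by norm_num) (by exact_mod_cast hd)
    have h6 := log_two_gt_d9
    linarith
  have h7 : (0 : ℝ) ≤ Nat.log d m := by positivity
  nlinarith

theorem err_bound {d m : ℕ} (hd : 2 ≤ d) (hm : 1 ≤ m) :
    err d m ≤ m * (1 + d) * (1 + 2 * log m) := by
  unfold err
  have h1 := natLog_bound hd hm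
  have h2 : 0 ≤ log (m : ℝ) := log_natCast_nonneg m
  have h3 : log (2 : ℝ) ≤ 1 := by linarith [log_two_lt_d9]
  have h4 : 0 ≤ log (2 : ℝ) := log_nonneg (by norm_num)
  have hm0 : (0 : ℝ) ≤ m := by positivity
  have hd0 : (0 : ℝ) ≤ d := by positivity
  have h5 : (m : ℝ) * (d * (Nat.log d m + 1)) * log 2 ≤ m * (d * (1 + 2 * log m)) * 1 := by
    refine mul_le_mul ?_ h3 h4 (by positivity)
    exact mul_le_mul_of_nonneg_left (mul_le_mul_of_nonneg_left h1 hd0) hm0
  have h6 : (m : ℝ) * log m ≤ m * (1 + 2 * log m) :=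
    mul_le_mul_of_nonneg_left (by linarith) hm0
  calc (m : ℝ) * log m + m * (d * (Nat.log d m + 1)) * log 2
      ≤ m * (1 + 2 * log m) + m * (d * (1 + 2 * log m)) * 1 := add_le_add h6 h5
    _ = _ := by ring

/-- at a place where `c` is very large most preperiodic points are close to each other -/
theorem big_place {d : ℕ} (hd : 2 ≤ d) {δ : ℝ} (hδ : 0 < δ) : ∃ T : ℝ, 1 ≤ T ∧
    ∀ (K : Type u) [Field K] [DecidableEq K] (v : AbsoluteValue K ℝ) (c : K) (μ : ℝ),
      1 ≤ μ → μ ≤ 2 → δ ≤ v (d : K) → T ≤ μ * log⁺ (v c) →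
        ∀ S : Finset K, (∀ x ∈ S, IsPre d c x) →
          ∃ S' ⊆ S, S.card ≤ d ^ 2 * S'.card ∧ ∀ x ∈ S', ∀ y ∈ S', x ≠ y →
            μ * log (v (x - y)) ≤ -(μ * log⁺ (v c) / (2 * d)) := by
  obtain ⟨r₀, A, hr₀, hA, hgain⟩ := gain.{u} hd hδ
  have hd0 : (0 : ℝ) < d := by exact_mod_cast (by omega : 0 < d)
  have hlr : 0 ≤ log r₀ := log_nonneg hr₀
  have hlA : 0 ≤ log A := log_nonneg hA
  refine ⟨1 + 2 * d * log r₀ + 4 * d * log A, ?_, ?_⟩
  · have h1 : 0 ≤ 2 * d * log r₀ := by positivity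
    have h2 : 0 ≤ 4 * d * log A := by positivity
    linarith
  intro K _ _ v c μ hμ1 hμ2 hvd hT S hS
  have h1 : 0 ≤ 2 * d * log r₀ := by positivity
  have h2 : 0 ≤ 4 * d * log A := by positivity
  have hc1 : 1 < v c := by
    by_contra hcon
    push Not at hcon
    have h3 : log⁺ (v c) = 0 := by
      rw [posLog_eq_zero_iff, abs_of_nonneg (v.nonneg _)]
      exact hcon
    rw [h3, mul_zero] at hT
    linarith
  have hpl : log⁺ (v c) = log (v c) := by
    apply posLog_eq_log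
    rw [abs_of_nonneg (v.nonneg _)]
    exact hc1.le
  set t := μ * log⁺ (v c) with ht
  set R : ℝ := (v c) ^ ((d : ℝ)⁻¹) with hR
  have hRd : R ^ d = v c := rpow_inv_natCast_pow (v.nonneg _) (by omega)
  have hR0 : 0 < R := rpow_pos_of_pos (by linarith) _
  have hlogR : log (v c) = d * log R := by rw [← hRd, log_pow]
  have hlR0 : 0 ≤ log R := by
    have : 0 < log (v c) := log_pos hc1
    rw [hlogR] at this
    exact (pos_of_mul_pos_right this hd0.le).le
  have htR : t = μ * (d * log R) := by rw [ht, hpl, hlogR]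
  have hRr : r₀ ≤ R := by
    rw [← log_le_log_iff (by linarith) hR0]
    have h3 : 2 * (d * log r₀) ≤ 2 * (d * log R) := by
      have h4 : μ * (d * log R) ≤ 2 * (d * log R) :=
        mul_le_mul_of_nonneg_right hμ2 (by positivity)
      linarith
    have h5 : d * log r₀ ≤ d * log R := by linarith
    exact le_of_mul_le_mul_left h5 hd0
  obtain ⟨S', hS', hcard, hdist⟩ := hgain K v c R hvd hRr hRd.symm S hS
  refine ⟨S', hS', hcard, ?_⟩
  intro x hx y hy hxy
  have h3 := hdist x hx y hy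
  have hpos : 0 < v (x - y) := v.pos (sub_ne_zero.2 hxy)
  have h4 : log (v (x - y)) + log R ≤ log A := by
    rw [← log_mul hpos.ne' hR0.ne']
    exact log_le_log (by positivity) h3
  have h5 : μ * log A ≤ 2 * log A := mul_le_mul_of_nonneg_right hμ2 hlA
  have h6 : μ * log (v (x - y)) ≤ μ * (log A - log R) :=
    mul_le_mul_of_nonneg_left (by linarith) (by linarith)
  have h7 : μ * log R = t / d := by
    rw [htR]
    field_simp
  have h8 : t / d = t / (2 * d) + t / (2 * d) := by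
    field_simp
    ring
  have h9 : 2 * log A ≤ t / (2 * d) := by
    rw [le_div_iff₀ (by positivity)]
    linarith
  calc μ * log (v (x - y)) ≤ μ * (log A - log R) := h6
    _ = μ * log A - μ * log R := by ring
    _ ≤ -(t / (2 * d)) := by
        rw [h7, h8]
        linarith

theorem hGood_two {K : Type u} [Field K] [NumberField K] (c : K) : hGood 2 c = 0 := by
  unfold hGood
  refine finsum_eq_zero_of_forall_eq_zero fun v => ?_
  rw [if_pos]
  by_contra h
  unfold Bad at h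
  push Not at h
  exact h.2 (fp_odd_norm v (not_lt.2 h.1))

/-- the arithmetic of the three cases -/
theorem arith {d D m : ℕ} (hd : 2 ≤ d) (hm : 2 * d ≤ m) {r T G hB hG e : ℝ} {f : ℕ}
    (hf : f ≤ D) (hr : 1 ≤ r) (hT : 1 ≤ T) (hB0 : 0 ≤ hB) (hG0 : 0 ≤ hG)
    (he : e ≤ m * (1 + d) * (1 + 2 * log m)) (he0 : 0 ≤ e)
    (hd2 : d = 2 → hG = 0)
    (h : G + ((d : ℝ) - 2) / (2 * d ^ 2) * m ^ 2 * hG ≤
      2 * m * (Nat.log d m + 1) * hB + 2 * f * e)
    (hcase : (G = ((m : ℝ) ^ 2 - m) * 1 ∧ (hB ≤ r * hG ∨ hB ≤ r * T)) ∨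
      ∃ t : ℝ, 1 ≤ t ∧ G = ((m : ℝ) ^ 2 - m) * (t / (2 * d)) ∧ hB ≤ r * t) :
    (m : ℝ) ≤ 4 * d ^ 2 * (2 + 2 * D * (1 + d) + 2 * T) * r * (1 + 2 * log m) := by
  have hm1 : 1 ≤ m := by omega
  have hmR : (4 : ℝ) ≤ m := by exact_mod_cast (by omega : 4 ≤ m)
  have hm0 : (0 : ℝ) < m := by linarith
  have hdR : (2 : ℝ) ≤ d := by exact_mod_cast hd
  have hd0 : (0 : ℝ) < d := by linarith
  set Y : ℝ := 1 + 2 * log m with hY
  have hY1 : 1 ≤ Y := by
    have : 0 ≤ log (m : ℝ) := log_natCast_nonneg m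
    linarith
  have hL := natLog_bound hd hm1
  rw [← hY] at hL
  have hfD : (f : ℝ) ≤ D := by exact_mod_cast hf
  have hf0 : (0 : ℝ) ≤ f := by positivity
  have hDR : (0 : ℝ) ≤ D := by positivity
  -- the right hand side
  have h1 : G + ((d : ℝ) - 2) / (2 * d ^ 2) * m ^ 2 * hG ≤
      m * Y * (2 * hB + 2 * D * (1 + d)) := by
    refine h.trans ?_
    have e1 : 2 * (m : ℝ) * (Nat.log d m + 1) * hB ≤ 2 * m * Y * hB := by
      refine mul_le_mul_of_nonneg_right ?_ hB0
      exact mul_le_mul_of_nonneg_left hL (by positivity)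
    have e2 : 2 * (f : ℝ) * e ≤ 2 * D * (m * (1 + d) * Y) := by
      refine mul_le_mul ?_ he he0 (by positivity)
      linarith
    calc 2 * (m : ℝ) * (Nat.log d m + 1) * hB + 2 * f * e
        ≤ 2 * m * Y * hB + 2 * D * (m * (1 + d) * Y) := add_le_add e1 e2
      _ = _ := by ring
  set E : ℝ := 2 + 2 * D * (1 + d) + 2 * T with hE
  have hDd : 0 ≤ 2 * (D : ℝ) * (1 + d) := by positivity
  have hE2 : 0 < E := by linarith
  have hmm : (m : ℝ) ^ 2 / 2 ≤ m ^ 2 - m := by nlinarith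
  have hκ : 0 ≤ ((d : ℝ) - 2) / (2 * d ^ 2) * m ^ 2 * hG := by
    have : 0 ≤ (d : ℝ) - 2 := by linarith
    positivity
  have hd2' : (4 : ℝ) ≤ 2 * d ^ 2 := by nlinarith
  have hYr : 0 < Y * r := by positivity
  -- it is enough to bound `m ^ 2`
  have fin : ∀ {a : ℝ}, 0 < a → a ≤ 4 * (d : ℝ) ^ 2 → (m : ℝ) ^ 2 ≤ m * Y * r * E * a →
      (m : ℝ) ≤ 4 * d ^ 2 * E * r * Y := by
    intro a ha0 ha hle
    have e1 : (m : ℝ) * m ≤ (4 * d ^ 2 * E * r * Y) * m := by
      calc (m : ℝ) * m = m ^ 2 := by ring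
        _ ≤ m * Y * r * E * a := hle
        _ ≤ m * Y * r * E * (4 * d ^ 2) := mul_le_mul_of_nonneg_left ha (by positivity)
        _ = _ := by ring
    exact le_of_mul_le_mul_right e1 hm0
  rcases hcase with ⟨hG1, hA | hBT⟩ | ⟨t, ht1, hGt, hBt⟩
  · rcases eq_or_lt_of_le hd with hd' | hd'
    · have hG0' := hd2 hd'.symm
      rw [hG0', mul_zero] at hA
      refine fin (a := 2) (by norm_num) (by linarith) ?_
      have e1 : (m : ℝ) * Y * (2 * hB + 2 * D * (1 + d)) ≤ m * Y * r * E := by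
        have e2 : 2 * hB + 2 * D * (1 + d) ≤ r * E := by
          have : 1 * E ≤ r * E := mul_le_mul_of_nonneg_right hr hE2.le
          linarith
        calc (m : ℝ) * Y * (2 * hB + 2 * D * (1 + d)) ≤ m * Y * (r * E) :=
              mul_le_mul_of_nonneg_left e2 (by positivity)
          _ = _ := by ring
      rw [hG1] at h1
      linarith
    · -- the main case
      have hd3 : (3 : ℝ) ≤ d := by exact_mod_cast hd'
      refine fin (a := 2 * (d : ℝ) ^ 2) (by positivity) (by linarith) ?_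
      have e1 : (1 : ℝ) / (2 * d ^ 2) ≤ ((d : ℝ) - 2) / (2 * d ^ 2) := by
        refine div_le_div_of_nonneg_right (by linarith) (by positivity)
      have e2 : (1 : ℝ) / (2 * d ^ 2) * m ^ 2 * (1 + hG) ≤
          G + ((d : ℝ) - 2) / (2 * d ^ 2) * m ^ 2 * hG := by
        have e3 : (1 : ℝ) / (2 * d ^ 2) * m ^ 2 ≤ G := by
          rw [hG1, mul_one]
          refine le_trans ?_ hmm
          have e4 : (1 : ℝ) / (2 * d ^ 2) ≤ 1 / 2 :=
            div_le_div_of_nonneg_left (by norm_num) (by norm_num) (by linarith)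
          calc (1 : ℝ) / (2 * d ^ 2) * m ^ 2 ≤ 1 / 2 * m ^ 2 :=
                mul_le_mul_of_nonneg_right e4 (by positivity)
            _ = _ := by ring
        have e5 : (1 : ℝ) / (2 * d ^ 2) * m ^ 2 * hG ≤
            ((d : ℝ) - 2) / (2 * d ^ 2) * m ^ 2 * hG :=
          mul_le_mul_of_nonneg_right (mul_le_mul_of_nonneg_right e1 (by positivity)) hG0
        calc (1 : ℝ) / (2 * d ^ 2) * m ^ 2 * (1 + hG) =
              (1 : ℝ) / (2 * d ^ 2) * m ^ 2 + (1 : ℝ) / (2 * d ^ 2) * m ^ 2 * hG := by ring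
          _ ≤ _ := add_le_add e3 e5
      have e6 : 2 * hB + 2 * D * (1 + d) ≤ r * E * (1 + hG) := by
        have e7 : 2 * (D : ℝ) * (1 + d) ≤ r * (2 * D * (1 + d)) := by nlinarith
        have e8 : r * E * (1 + hG) = r * (2 * hG) + r * (2 * D * (1 + d)) +
            r * (2 + 2 * T + (2 * D * (1 + d) + 2 * T) * hG) := by
          rw [hE]; ring
        have e9 : 0 ≤ r * (2 + 2 * T + (2 * D * (1 + d) + 2 * T) * hG) := by positivity
        rw [e8]
        nlinarith
      have e10 : (1 : ℝ) / (2 * d ^ 2) * m ^ 2 * (1 + hG) ≤ m * Y * (r * E) * (1 + hG) := by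
        calc (1 : ℝ) / (2 * d ^ 2) * m ^ 2 * (1 + hG) ≤ _ := e2
          _ ≤ m * Y * (2 * hB + 2 * D * (1 + d)) := h1
          _ ≤ m * Y * (r * E * (1 + hG)) := mul_le_mul_of_nonneg_left e6 (by positivity)
          _ = _ := by ring
      have e11 : (1 : ℝ) / (2 * d ^ 2) * m ^ 2 ≤ m * Y * (r * E) :=
        le_of_mul_le_mul_right e10 (by linarith)
      have e12 : (m : ℝ) ^ 2 = (1 : ℝ) / (2 * d ^ 2) * m ^ 2 * (2 * d ^ 2) := by field_simp
      rw [e12]
      calc (1 : ℝ) / (2 * d ^ 2) * m ^ 2 * (2 * d ^ 2) ≤ m * Y * (r * E) * (2 * d ^ 2) :=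
            mul_le_mul_of_nonneg_right e11 (by positivity)
        _ = _ := by ring
  · refine fin (a := 2) (by norm_num) (by linarith) ?_
    have e1 : (m : ℝ) * Y * (2 * hB + 2 * D * (1 + d)) ≤ m * Y * r * E := by
      have e2 : 2 * hB + 2 * D * (1 + d) ≤ r * E := by
        have : 1 * (2 * (D : ℝ) * (1 + d)) ≤ r * (2 * D * (1 + d)) :=
          mul_le_mul_of_nonneg_right hr hDd
        have e3 : r * E = r * 2 + r * (2 * D * (1 + d)) + 2 * (r * T) := by rw [hE]; ring
        rw [e3]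
        linarith
      calc (m : ℝ) * Y * (2 * hB + 2 * D * (1 + d)) ≤ m * Y * (r * E) :=
            mul_le_mul_of_nonneg_left e2 (by positivity)
        _ = _ := by ring
    rw [hG1] at h1
    linarith
  · refine fin (a := 4 * d) (by positivity) (by nlinarith) ?_
    have e1 : 2 * hB + 2 * D * (1 + d) ≤ r * E * t := by
      have e2 : 1 * (2 * (D : ℝ) * (1 + d)) ≤ (r * t) * (2 * D * (1 + d)) :=
        mul_le_mul_of_nonneg_right (by nlinarith) hDd
      have e3 : r * E * t = 2 * (r * t) + (r * t) * (2 * D * (1 + d)) + (r * t) * (2 * T) := by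
        rw [hE]; ring
      have e4 : 0 ≤ (r * t) * (2 * T) := by positivity
      rw [e3]
      linarith
    have e5 : ((m : ℝ) ^ 2 - m) * (t / (2 * d)) ≤ m * Y * (r * E * t) := by
      calc ((m : ℝ) ^ 2 - m) * (t / (2 * d)) = G := hGt.symm
        _ ≤ G + ((d : ℝ) - 2) / (2 * d ^ 2) * m ^ 2 * hG := by linarith
        _ ≤ _ := h1
        _ ≤ _ := mul_le_mul_of_nonneg_left e1 (by positivity)
    have e6 : (m : ℝ) ^ 2 / 2 * (t / (2 * d)) ≤ m * Y * (r * E * t) :=
      (mul_le_mul_of_nonneg_right hmm (by positivity)).trans e5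
    have e7 : (m : ℝ) ^ 2 * t ≤ (m * Y * r * E * (4 * d)) * t := by
      have e8 : (m : ℝ) ^ 2 / 2 * (t / (2 * d)) = (m : ℝ) ^ 2 * t / (4 * d) := by
        field_simp
        ring
      rw [e8, div_le_iff₀ (by positivity)] at e6
      calc (m : ℝ) ^ 2 * t ≤ m * Y * (r * E * t) * (4 * d) := e6
        _ = _ := by ring
    exact le_of_mul_le_mul_right e7 (by linarith)

end Pool.Agent.H951R2.MS
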