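import Pool.Agent.H951R2.MSClass

/-!
# Finite places: residue fields and the tame filter
-/

set_option autoImplicit false

namespace Pool.Agent.H951R2.MS

open Finset Polynomial NumberField IsDedekindDomain HeightOneSpectrum WithZeroMulInt

universe u

section basic

variable {K : Type u} [Field K] [NumberField K]

theorem fp_val (v : FinitePlace K) (x : K) :
    v x = toNNReal (NumberField.HeightOneSpectrum.absNorm_ne_zero v.maximalIdeal)
      (v.maximalIdeal.valuation K x) := by
  rw [← FinitePlace.norm_embedding_eq, FinitePlace.norm_embedding']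

theorem fp_one_lt (v : FinitePlace K) : 1 < Ideal.absNorm v.maximalIdeal.asIdeal :=
  NumberField.HeightOneSpectrum.one_lt_absNorm _

theorem fp_isNonarch (v : FinitePlace K) : IsNonarchimedean (v.val : AbsoluteValue K ℝ) :=
  FinitePlace.add_le v

theorem fp_int_le_one (v : FinitePlace K) (a : 𝓞 K) : v (a : K) ≤ 1 := by
  rw [← FinitePlace.norm_embedding_eq]
  exact FinitePlace.norm_le_one K v.maximalIdeal a

theorem fp_int_lt_one_iff (v : FinitePlace K) (a : 𝓞 K) :
    v (a : K) < 1 ↔ a ∈ v.maximalIdeal.asIdeal := by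
  rw [← FinitePlace.norm_embedding_eq]
  exact FinitePlace.norm_lt_one_iff_mem K v.maximalIdeal a

theorem fp_exists_int (v : FinitePlace K) {x : K} (hx : v x ≤ 1) :
    ∃ a : 𝓞 K, v (x - (a : K)) < 1 := by
  have h : v.maximalIdeal.valuation K x ≤ 1 := by
    rw [fp_val] at hx
    exact (toNNReal_le_one_iff
      (NumberField.HeightOneSpectrum.one_lt_absNorm_nnreal v.maximalIdeal)).1
        (by exact_mod_cast hx)
  obtain ⟨a, ha⟩ := v.maximalIdeal.exists_valuation_sub_lt_of_integer h 1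
  refine ⟨a, ?_⟩
  rw [fp_val, Valuation.map_sub_swap]
  have := (toNNReal_lt_one_iff
      (NumberField.HeightOneSpectrum.one_lt_absNorm_nnreal v.maximalIdeal)).2
        (by exact_mod_cast ha)
  exact_mod_cast this

theorem fp_eq_zpow (v : FinitePlace K) {x : K} (hx : x ≠ 0) :
    ∃ k : ℤ, v x = (Ideal.absNorm v.maximalIdeal.asIdeal : ℝ) ^ k := by
  have h : v.maximalIdeal.valuation K x ≠ 0 := (Valuation.ne_zero_iff _).2 hx
  refine ⟨(WithZero.unzero h).toAdd, ?_⟩
  rw [fp_val, toNNReal_neg_apply _ h]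
  push_cast
  rfl

theorem fp_le_inv (v : FinitePlace K) {x : K} (hx : v x < 1) :
    v x ≤ ((Ideal.absNorm v.maximalIdeal.asIdeal : ℝ))⁻¹ := by
  have hq : (1 : ℝ) < Ideal.absNorm v.maximalIdeal.asIdeal := by exact_mod_cast fp_one_lt v
  rcases eq_or_ne x 0 with rfl | h0
  · rw [map_zero]
    positivity
  obtain ⟨k, hk⟩ := fp_eq_zpow v h0
  rw [hk] at hx ⊢
  have hk0 : k < 0 := by
    by_contra hcon
    push Not at hcon
    exact absurd (one_le_zpow₀ hq.le hcon) (not_le.2 hx)
  calc (Ideal.absNorm v.maximalIdeal.asIdeal : ℝ) ^ k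
      ≤ (Ideal.absNorm v.maximalIdeal.asIdeal : ℝ) ^ (-1 : ℤ) :=
        zpow_le_zpow_right₀ hq.le (by omega)
    _ = _ := by rw [zpow_neg, zpow_one]

theorem fp_le_of_one_lt (v : FinitePlace K) {x : K} (hx : 1 < v x) :
    (Ideal.absNorm v.maximalIdeal.asIdeal : ℝ) ≤ v x := by
  have hq : (1 : ℝ) < Ideal.absNorm v.maximalIdeal.asIdeal := by exact_mod_cast fp_one_lt v
  rcases eq_or_ne x 0 with rfl | h0
  · rw [map_zero] at hx
    linarith
  obtain ⟨k, hk⟩ := fp_eq_zpow v h0
  rw [hk] at hx ⊢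
  have hk0 : 0 < k := by
    by_contra hcon
    push Not at hcon
    exact absurd (zpow_le_one_of_nonpos₀ hq.le hcon) (not_le.2 hx)
  calc (Ideal.absNorm v.maximalIdeal.asIdeal : ℝ)
      = (Ideal.absNorm v.maximalIdeal.asIdeal : ℝ) ^ (1 : ℤ) := by rw [zpow_one]
    _ ≤ _ := zpow_le_zpow_right₀ hq.le (by omega)

theorem fp_pow_sub_pow (v : FinitePlace K) {x y : K} (hx : v x ≤ 1) (hy : v y ≤ 1) (n : ℕ) :
    v (x ^ n - y ^ n) ≤ v (x - y) := by
  induction n with
  | zero => simp
  | succ n ih =>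
    have e : x ^ (n + 1) - y ^ (n + 1) = x * (x ^ n - y ^ n) + y ^ n * (x - y) := by ring
    rw [e]
    refine (FinitePlace.add_le v _ _).trans (max_le ?_ ?_)
    · rw [map_mul]
      calc v x * v (x ^ n - y ^ n) ≤ 1 * v (x ^ n - y ^ n) :=
            mul_le_mul_of_nonneg_right hx (apply_nonneg v _)
        _ ≤ _ := by rw [one_mul]; exact ih
    · rw [map_mul, map_pow]
      calc v y ^ n * v (x - y) ≤ 1 * v (x - y) :=
            mul_le_mul_of_nonneg_right (pow_le_one₀ (apply_nonneg v _) hy) (apply_nonneg v _)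
        _ = _ := one_mul _

theorem fp_quot_pow (v : FinitePlace K) (a : 𝓞 K) :
    (Ideal.Quotient.mk v.maximalIdeal.asIdeal a) ^ (Ideal.absNorm v.maximalIdeal.asIdeal) =
      Ideal.Quotient.mk v.maximalIdeal.asIdeal a := by
  classical
  have : v.maximalIdeal.asIdeal.IsMaximal := v.maximalIdeal.isMaximal
  let _ : Field (𝓞 K ⧸ v.maximalIdeal.asIdeal) := Ideal.Quotient.field _
  have : Finite (𝓞 K ⧸ v.maximalIdeal.asIdeal) :=
    Ideal.finiteQuotientOfFreeOfNeBot _ v.maximalIdeal.ne_bot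
  let _ := Fintype.ofFinite (𝓞 K ⧸ v.maximalIdeal.asIdeal)
  rw [Ideal.absNorm_apply, Submodule.cardQuot_apply, Nat.card_eq_fintype_card]
  exact FiniteField.pow_card _

theorem fp_pow_sub_self (v : FinitePlace K) {x : K} (hx : v x ≤ 1) :
    v (x ^ Ideal.absNorm v.maximalIdeal.asIdeal - x) < 1 := by
  obtain ⟨a, ha⟩ := fp_exists_int v hx
  have h1 : v ((a : K) ^ Ideal.absNorm v.maximalIdeal.asIdeal - (a : K)) < 1 := by
    have h := (fp_int_lt_one_iff v (a ^ Ideal.absNorm v.maximalIdeal.asIdeal - a)).2 (by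
      rw [← Ideal.Quotient.eq_zero_iff_mem, map_sub, map_pow, fp_quot_pow, sub_self])
    simpa using h
  have h2 := (fp_pow_sub_pow v hx (fp_int_le_one v a)
    (Ideal.absNorm v.maximalIdeal.asIdeal)).trans_lt ha
  have e : x ^ Ideal.absNorm v.maximalIdeal.asIdeal - x =
      (x ^ Ideal.absNorm v.maximalIdeal.asIdeal - (a : K) ^ Ideal.absNorm v.maximalIdeal.asIdeal)
      + (((a : K) ^ Ideal.absNorm v.maximalIdeal.asIdeal - (a : K)) + -(x - (a : K))) := by ring
  rw [e]
  refine (FinitePlace.add_le v _ _).trans_lt (max_lt h2 ?_)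
  refine (FinitePlace.add_le v _ _).trans_lt (max_lt h1 ?_)
  rw [map_neg_eq_map]
  exact ha

theorem fp_pow_gcd (v : FinitePlace K) {x : K} (hx : v x = 1) {d : ℕ} (hd : v (x ^ d - 1) < 1) :
    v (x ^ (Nat.gcd d (Ideal.absNorm v.maximalIdeal.asIdeal - 1)) - 1) < 1 := by
  obtain ⟨a, ha⟩ := fp_exists_int v hx.le
  have hpow : ∀ n : ℕ, v (x ^ n - 1) < 1 ↔
      (Ideal.Quotient.mk v.maximalIdeal.asIdeal a) ^ n = 1 := by
    intro n
    have h1 : v ((a : K) ^ n - 1) < 1 ↔ (Ideal.Quotient.mk v.maximalIdeal.asIdeal a) ^ n = 1 := by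
      have h := fp_int_lt_one_iff v (a ^ n - 1)
      rw [← Ideal.Quotient.eq_zero_iff_mem, map_sub, map_pow, map_one, sub_eq_zero] at h
      rw [← h]
      simp
    rw [← h1]
    have h2 := (fp_pow_sub_pow v hx.le (fp_int_le_one v a) n).trans_lt ha
    constructor
    · intro h
      have e : (a : K) ^ n - 1 = (x ^ n - 1) + -(x ^ n - (a : K) ^ n) := by ring
      rw [e]
      refine (FinitePlace.add_le v _ _).trans_lt (max_lt h ?_)
      rw [map_neg_eq_map]
      exact h2
    · intro h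
      have e : x ^ n - 1 = ((a : K) ^ n - 1) + (x ^ n - (a : K) ^ n) := by ring
      rw [e]
      exact (FinitePlace.add_le v _ _).trans_lt (max_lt h h2)
  rw [hpow]
  refine pow_gcd_eq_one.2 ⟨(hpow d).1 hd, ?_⟩
  rw [← hpow]
  have h3 := fp_pow_sub_self v hx.le
  have hq := fp_one_lt v
  have e : x ^ Ideal.absNorm v.maximalIdeal.asIdeal - x =
      x * (x ^ (Ideal.absNorm v.maximalIdeal.asIdeal - 1) - 1) := by
    rw [mul_sub, mul_one, ← pow_succ']
    congr 2
    omega
  rw [e, map_mul, hx, one_mul] at h3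
  exact h3

theorem fp_odd_norm (v : FinitePlace K) (h2 : ¬ v ((2 : ℕ) : K) < 1) :
    Ideal.absNorm v.maximalIdeal.asIdeal ≡ 1 [MOD 2] := by
  by_contra hcon
  apply h2
  have h := (fp_int_lt_one_iff v ((2 : ℕ) : 𝓞 K)).2 ?_
  · have e : (((2 : ℕ) : 𝓞 K) : K) = ((2 : ℕ) : K) := map_natCast (algebraMap (𝓞 K) K) 2
    rwa [e] at h
  have : v.maximalIdeal.asIdeal.IsMaximal := v.maximalIdeal.isMaximal
  let _ : Field (𝓞 K ⧸ v.maximalIdeal.asIdeal) := Ideal.Quotient.field _
  have : Finite (𝓞 K ⧸ v.maximalIdeal.asIdeal) :=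
    Ideal.finiteQuotientOfFreeOfNeBot _ v.maximalIdeal.ne_bot
  let _ := Fintype.ofFinite (𝓞 K ⧸ v.maximalIdeal.asIdeal)
  have hc : Fintype.card (𝓞 K ⧸ v.maximalIdeal.asIdeal) % 2 ≠ 1 := by
    intro h
    apply hcon
    rw [Ideal.absNorm_apply, Submodule.cardQuot_apply, Nat.card_eq_fintype_card]
    exact h
  have hchar : ringChar (𝓞 K ⧸ v.maximalIdeal.asIdeal) = 2 := by
    by_contra h
    exact hc (FiniteField.odd_card_of_char_ne_two h)
  rw [← Ideal.Quotient.eq_zero_iff_mem]
  have h3 := ringChar.Nat.cast_ringChar (R := 𝓞 K ⧸ v.maximalIdeal.asIdeal)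
  rw [hchar] at h3
  rw [map_natCast]
  exact h3

/-- a tame expansion estimate -/
theorem fp_tame (v : FinitePlace K) {d : ℕ} (hd : v (d : K) = 1) {z : K} (hz : v z = 1)
    (hz1 : v (z - 1) < 1) : v (z - 1) ≤ v (z ^ d - 1) := by
  have h1 : ∀ n : ℕ, v (∑ i ∈ range n, (z ^ i - 1)) < 1 := by
    intro n
    induction n with
    | zero => simp
    | succ n ih =>
      rw [Finset.sum_range_succ]
      refine (FinitePlace.add_le v _ _).trans_lt (max_lt ih ?_)
      have := fp_pow_sub_pow v (x := z) (y := 1) hz.le (by rw [map_one]) n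
      rw [one_pow] at this
      exact this.trans_lt hz1
  have h2 : (d : K) = (∑ i ∈ range d, z ^ i) + -(∑ i ∈ range d, (z ^ i - 1)) := by
    rw [Finset.sum_sub_distrib]
    simp
  have h3 : 1 ≤ v (∑ i ∈ range d, z ^ i) := by
    have h4 := FinitePlace.add_le v (∑ i ∈ range d, z ^ i) (-(∑ i ∈ range d, (z ^ i - 1)))
    rw [← h2, hd, map_neg_eq_map, le_max_iff] at h4
    rcases h4 with h4 | h4
    · exact h4
    · exact absurd (h1 d) (not_lt.2 h4)
  rw [← geom_sum_mul, map_mul]
  calc v (z - 1) = 1 * v (z - 1) := (one_mul _).symm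
    _ ≤ _ := mul_le_mul_of_nonneg_right h3 (apply_nonneg v _)

end basic

theorem pair_bound {K : Type u} [Field K] [DecidableEq K] (v : AbsoluteValue K ℝ)
    (hv : IsNonarchimedean v) (S : Finset K) {R : ℝ} (hR : 0 < R) {g : ℕ}
    (hcard : ∀ A ⊆ S, SepOn (fun a b => R ≤ v (a - b)) A → A.card ≤ g) :
    (S.card : ℝ) ^ 2 ≤ g * ((S ×ˢ S).filter fun p => v (p.1 - p.2) < R).card := by
  classical
  obtain ⟨A, hAS, hsep, hnet⟩ := exists_net S (fun a b => R ≤ v (a - b))
    (fun a _ => by simp; exact hR) (fun a b h => by rw [v.map_sub]; exact h)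
  choose! π hπ1 hπ2 using hnet
  have h1 : S.card = ∑ a ∈ A, (S.filter fun s => π s = a).card :=
    Finset.card_eq_sum_card_fiberwise hπ1
  have h2 : (S.card : ℝ) ^ 2 ≤ A.card * ∑ a ∈ A, ((S.filter fun s => π s = a).card : ℝ) ^ 2 := by
    rw [h1]
    push_cast
    exact sq_sum_le_card_mul_sum_sq
  have h3 : ∑ a ∈ A, ((S.filter fun s => π s = a).card : ℝ) ^ 2 ≤
      ((S ×ˢ S).filter fun p => v (p.1 - p.2) < R).card := by
    have h4 : ∀ a ∈ A, ((S.filter fun s => π s = a).card : ℝ) ^ 2 =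
        (((S ×ˢ S).filter fun p => v (p.1 - p.2) < R).filter
          fun p => π p.1 = a ∧ π p.2 = a).card := by
      intro a ha
      rw [sq, ← Nat.cast_mul, ← Finset.card_product]
      congr 2
      ext ⟨x, y⟩
      simp only [Finset.mem_product, Finset.mem_filter]
      constructor
      · rintro ⟨⟨hx, hx'⟩, hy, hy'⟩
        refine ⟨⟨⟨hx, hy⟩, ?_⟩, hx', hy'⟩
        have e1 := hπ2 x hx
        have e2 := hπ2 y hy
        rw [hx', not_le] at e1
        rw [hy', not_le] at e2
        have e3 : x - y = (x - a) + -(y - a) := by ring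
        rw [e3]
        refine (hv _ _).trans_lt (max_lt e1 ?_)
        rw [v.map_neg]
        exact e2
      · rintro ⟨⟨⟨hx, hy⟩, _⟩, hx', hy'⟩
        exact ⟨⟨hx, hx'⟩, hy, hy'⟩
    rw [Finset.sum_congr rfl h4, ← Nat.cast_sum]
    have h5 : ∑ a ∈ A, ((((S ×ˢ S).filter fun p => v (p.1 - p.2) < R).filter
          fun p => π p.1 = a ∧ π p.2 = a).card) ≤
        ((S ×ˢ S).filter fun p => v (p.1 - p.2) < R).card := by
      rw [← Finset.card_biUnion]
      · refine Finset.card_le_card ?_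
        intro p hp
        rw [Finset.mem_biUnion] at hp
        obtain ⟨a, _, hp⟩ := hp
        exact (Finset.mem_filter.1 hp).1
      · intro a _ b _ hab
        rw [Function.onFun, Finset.disjoint_left]
        intro p hp hp'
        rw [Finset.mem_filter] at hp hp'
        exact hab (hp.2.1.symm.trans hp'.2.1)
    exact_mod_cast h5
  calc (S.card : ℝ) ^ 2 ≤ A.card * ∑ a ∈ A, ((S.filter fun s => π s = a).card : ℝ) ^ 2 := h2
    _ ≤ g * ∑ a ∈ A, ((S.filter fun s => π s = a).card : ℝ) ^ 2 := by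
        refine mul_le_mul_of_nonneg_right ?_ (Finset.sum_nonneg fun _ _ => by positivity)
        exact_mod_cast hcard A hAS hsep
    _ ≤ _ := mul_le_mul_of_nonneg_left h3 (by positivity)

open Real in
/-- the tame filter -/
theorem tame_filter {K : Type u} [Field K] [NumberField K] [DecidableEq K] {d : ℕ} (hd : 2 ≤ d)
    (v : FinitePlace K) (c : K) (hvd : ¬ v (d : K) < 1)
    (hq : ¬ Ideal.absNorm v.maximalIdeal.asIdeal ≡ 1 [MOD d]) (S : Finset K)
    (hS : ∀ x ∈ S, IsPre d c x) (hn : 2 * d ≤ S.card) :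
    log (v (dsc S)) ≤ -(((d : ℝ) - 2) / (2 * d ^ 2) * S.card ^ 2 * log⁺ (v c)) := by
  have hd0 : (0 : ℝ) < d := by exact_mod_cast (by omega : 0 < d)
  have hnn : ∀ x : K, 0 ≤ v x := fun x => apply_nonneg v x
  have hvd1 : v (d : K) = 1 := by
    refine le_antisymm ?_ (not_lt.1 hvd)
    have h := fp_int_le_one v ((d : ℕ) : 𝓞 K)
    have e : (((d : ℕ) : 𝓞 K) : K) = ((d : ℕ) : K) := map_natCast (algebraMap (𝓞 K) K) d
    rwa [e] at h
  rcases le_or_gt (v c) 1 with hc | hc
  · have h1 : log⁺ (v c) = 0 := by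
      rw [posLog_eq_zero_iff, abs_of_nonneg (hnn _)]
      exact hc
    rw [h1, mul_zero, neg_zero]
    refine log_nonpos (hnn _) ?_
    have h2 := dsc_le_nonarch hd v.val (fp_isNonarch v) (R := 1) le_rfl
      (fun y hy => hy.le_of_nonarch hd v.val (fp_isNonarch v) le_rfl (by rw [one_pow]; exact hc))
      S hS
    rw [one_pow, one_pow] at h2
    exact h2
  -- the case of a pole of `c`
  set R : ℝ := (v c) ^ ((d : ℝ)⁻¹) with hRdef
  have hc0 : 0 ≤ v c := hnn _
  have hRd : R ^ d = v c := Real.rpow_inv_natCast_pow hc0 (by omega)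
  have hR1 : 1 < R := Real.one_lt_rpow hc (by positivity)
  have hR0 : 0 < R := by linarith
  have hlogR : log (v c) = d * log R := by rw [← hRd, log_pow]
  have hlam : 0 < log R := log_pos hR1
  have hRR : R < R ^ d := by
    calc R = R ^ 1 := (pow_one R).symm
      _ < R ^ d := pow_lt_pow_right₀ hR1 (by omega)
  have hle : ∀ y, IsPre d c y → v y ≤ R := fun y hy =>
    hy.le_of_nonarch hd v.val (fp_isNonarch v) hR1.le hRd.ge
  have heq : ∀ y, IsPre d c y → v y = R := by
    intro y hy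
    refine le_antisymm (hle y hy) ?_
    by_contra hcon
    push Not at hcon
    have h1 : c = uni d c y + -(y ^ d) := by simp [uni]
    have h2 : v c ≤ max (v (uni d c y)) (v (y ^ d)) := by
      have := FinitePlace.add_le v (uni d c y) (-(y ^ d))
      rwa [← h1, map_neg_eq_map] at this
    rw [map_pow] at h2
    have h3 : v y ^ d < R ^ d := pow_lt_pow_left₀ hcon (hnn _) (by omega)
    have h4 : v (uni d c y) < R ^ d := (hle _ hy.image).trans_lt hRR
    have h5 := max_lt h4 h3
    rw [hRd] at h5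
    linarith
  have hdiff : ∀ x y, IsPre d c x → IsPre d c y → v (x ^ d - y ^ d) ≤ R := by
    intro x y hx hy
    have e : x ^ d - y ^ d = uni d c x + -(uni d c y) := by simp [uni, sub_eq_add_neg]
    rw [e]
    refine (FinitePlace.add_le v _ _).trans (max_le (hle _ hx.image) ?_)
    rw [map_neg_eq_map]
    exact hle _ hy.image
  have hsub : ∀ x y, IsPre d c x → IsPre d c y → v (x - y) ≤ R := by
    intro x y hx hy
    have e : x - y = x + -y := by ring
    rw [e]
    refine (FinitePlace.add_le v _ _).trans (max_le (hle _ hx) ?_)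
    rw [map_neg_eq_map]
    exact hle _ hy
  have hne : ∀ y, IsPre d c y → y ≠ 0 := by
    intro y hy h0
    have := heq y hy
    rw [h0, map_zero] at this
    linarith
  have hclose : ∀ x y, IsPre d c x → IsPre d c y → v (x - y) < R →
      v (x - y) * R ^ (d - 2) ≤ 1 := by
    intro x y hx hy hxy
    have hy0 := hne y hy
    have h1 : v (x / y) = 1 := by rw [map_div₀, heq x hx, heq y hy, div_self hR0.ne']
    have e1 : x - y = (x / y - 1) * y := by field_simp
    have e2 : x ^ d - y ^ d = ((x / y) ^ d - 1) * y ^ d := by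
      rw [sub_mul, one_mul, ← mul_pow, div_mul_cancel₀ _ hy0]
    have h2 : v (x - y) = v (x / y - 1) * R := by rw [e1, map_mul, heq y hy]
    have h3 : v (x / y - 1) < 1 := by
      rw [h2] at hxy
      by_contra hcon
      push Not at hcon
      nlinarith
    have h4 := fp_tame v hvd1 h1 h3
    have h5 := hdiff x y hx hy
    rw [e2, map_mul, map_pow, heq y hy] at h5
    have h6 : v (x / y - 1) * R ^ d ≤ R :=
      (mul_le_mul_of_nonneg_right h4 (by positivity)).trans h5
    have h7 : R ^ d = R * R ^ (d - 2) * R := by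
      rw [mul_comm R, ← pow_succ, ← pow_succ]
      congr 1
      omega
    rw [h7] at h6
    rw [h2]
    have h8 : (v (x / y - 1) * R * R ^ (d - 2)) * R ≤ 1 * R := by
      calc (v (x / y - 1) * R * R ^ (d - 2)) * R = v (x / y - 1) * (R * R ^ (d - 2) * R) := by ring
        _ ≤ R := h6
        _ = 1 * R := (one_mul R).symm
    exact le_of_mul_le_mul_right h8 hR0
  -- the number of classes
  set q := Ideal.absNorm v.maximalIdeal.asIdeal with hqdef
  have hq1 : 1 < q := fp_one_lt v
  set g := Nat.gcd d (q - 1) with hg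
  have hgpos : 0 < g := Nat.gcd_pos_of_pos_left _ (by omega)
  have h2g : 2 * g ≤ d := by
    obtain ⟨m, hm⟩ : g ∣ d := Nat.gcd_dvd_left _ _
    rcases Nat.lt_or_ge m 2 with h | h
    · exfalso
      apply hq
      have hm1 : m = 1 := by
        rcases Nat.eq_zero_or_pos m with h0 | h0
        · rw [h0, mul_zero] at hm
          omega
        · omega
      rw [hm1, mul_one] at hm
      have h3 : d ∣ q - 1 := by
        rw [hm]
        exact Nat.gcd_dvd_right _ _
      exact ((Nat.modEq_iff_dvd' hq1.le).2 h3).symm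
    · rw [hm, mul_comm]
      exact Nat.mul_le_mul_left _ h
  have hcard : ∀ A ⊆ S, SepOn (fun a b => R ≤ v.val (a - b)) A → A.card ≤ g := by
    intro A hAS hsep
    by_contra hcon
    push Not at hcon
    obtain ⟨B, hBA, hB⟩ := Finset.exists_subset_card_eq (show g + 1 ≤ A.card by omega)
    obtain ⟨a₀, ha₀⟩ : B.Nonempty := Finset.card_pos.1 (by omega)
    have hpre : ∀ b ∈ B, IsPre d c b := fun b hb => hS b (hAS (hBA hb))
    obtain ⟨a, ha, h1⟩ := lagrange_sep_nonarch v.val (fp_isNonarch v)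
      (P := X ^ g - C (a₀ ^ g)) (k := g) (monic_X_pow_sub_C _ (by omega))
      natDegree_X_pow_sub_C B hB (θ := R) hR0
      (fun a ha b hb hab => hsep a (hBA ha) b (hBA hb) hab)
    simp only [eval_sub, eval_pow, eval_X, eval_C] at h1
    have ha0 := hne a₀ (hpre _ ha₀)
    have h2 : v (a / a₀) = 1 := by
      rw [map_div₀, heq a (hpre _ ha), heq a₀ (hpre _ ha₀), div_self hR0.ne']
    have h3 : v ((a / a₀) ^ d - 1) < 1 := by
      have e2 : a ^ d - a₀ ^ d = ((a / a₀) ^ d - 1) * a₀ ^ d := by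
        rw [sub_mul, one_mul, ← mul_pow, div_mul_cancel₀ _ ha0]
      have h5 := (hdiff a a₀ (hpre _ ha) (hpre _ ha₀)).trans_lt hRR
      rw [e2, map_mul, map_pow, heq a₀ (hpre _ ha₀)] at h5
      by_contra hcon2
      push Not at hcon2
      have : 0 < R ^ d := by positivity
      nlinarith
    have h4 := fp_pow_gcd v h2 h3
    have e3 : a ^ g - a₀ ^ g = ((a / a₀) ^ g - 1) * a₀ ^ g := by
      rw [sub_mul, one_mul, ← mul_pow, div_mul_cancel₀ _ ha0]
    have h6 : v (a ^ g - a₀ ^ g) < R ^ g := by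
      rw [e3, map_mul, map_pow, heq a₀ (hpre _ ha₀)]
      have : 0 < R ^ g := by positivity
      calc v ((a / a₀) ^ g - 1) * R ^ g < 1 * R ^ g := mul_lt_mul_of_pos_right h4 this
        _ = R ^ g := one_mul _
    exact absurd h1 (not_le.2 h6)
  have hpair := pair_bound v.val (fp_isNonarch v) S hR0 hcard
  -- logarithms
  have hlog : log (v (dsc S)) = ∑ p ∈ S.offDiag, log (v (p.1 - p.2)) := by
    rw [dsc, map_prod, log_prod]
    intro p hp
    rw [Finset.mem_offDiag] at hp
    exact (FinitePlace.pos_iff.2 (sub_ne_zero.2 hp.2.2)).ne'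
  have hterm : ∀ p ∈ S.offDiag, log (v (p.1 - p.2)) ≤
      log R - (if v (p.1 - p.2) < R then ((d : ℝ) - 1) * log R else 0) := by
    rintro ⟨x, y⟩ hp
    rw [Finset.mem_offDiag] at hp
    have hx := hS x hp.1
    have hy := hS y hp.2.1
    have hpos : 0 < v (x - y) := FinitePlace.pos_iff.2 (sub_ne_zero.2 hp.2.2)
    dsimp only
    split_ifs with h
    · have h1 := hclose x y hx hy h
      have h2 := log_le_log (by positivity) h1
      rw [log_mul hpos.ne' (by positivity), log_pow, log_one, Nat.cast_sub hd] at h2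
      push_cast at h2
      linarith
    · rw [sub_zero]
      exact log_le_log hpos (hsub x y hx hy)
  have hsum : log (v (dsc S)) ≤ (S.offDiag.card : ℝ) * log R -
      ((S.offDiag.filter fun p => v (p.1 - p.2) < R).card : ℝ) * (((d : ℝ) - 1) * log R) := by
    rw [hlog]
    refine (Finset.sum_le_sum hterm).trans (le_of_eq ?_)
    rw [Finset.sum_sub_distrib, Finset.sum_const, nsmul_eq_mul, ← Finset.sum_filter,
      Finset.sum_const, nsmul_eq_mul]
  have hE : ((S ×ˢ S).filter fun p => v.val (p.1 - p.2) < R).card =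
      (S.offDiag.filter fun p => v (p.1 - p.2) < R).card + S.card := by
    have h1 : (S ×ˢ S) = S.diag ∪ S.offDiag := (Finset.diag_union_offDiag S).symm
    have h2 : (S.diag.filter fun p : K × K => v (p.1 - p.2) < R) = S.diag := by
      refine Finset.filter_true_of_mem ?_
      rintro ⟨x, y⟩ hp
      rw [Finset.mem_diag] at hp
      simp only at hp
      rw [← hp.2]
      simpa using hR0
    change ((S ×ˢ S).filter fun p => v (p.1 - p.2) < R).card = _
    rw [h1, Finset.filter_union, Finset.card_union_of_disjoint, h2, Finset.diag_card, add_comm]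
    exact Finset.disjoint_filter_filter (Finset.disjoint_diag_offDiag S)
  rw [hE] at hpair
  push_cast at hpair
  set E : ℝ := ((S.offDiag.filter fun p => v (p.1 - p.2) < R).card : ℝ) with hEdef
  have hoff : (S.offDiag.card : ℝ) = (S.card : ℝ) ^ 2 - S.card := by
    rw [Finset.offDiag_card, Nat.cast_sub (Nat.le_mul_self _)]
    push_cast
    ring
  rw [hoff] at hsum
  have hposlog : log⁺ (v c) = d * log R := by
    rw [posLog_eq_log, hlogR]
    rw [abs_of_nonneg (hnn _)]
    exact hc.le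
  rw [hposlog]
  set n : ℝ := (S.card : ℝ) with hn'
  have hn2 : 2 * (d : ℝ) ≤ n := by rw [hn']; exact_mod_cast hn
  have hg2 : 2 * (g : ℝ) ≤ d := by exact_mod_cast h2g
  have hE0 : 0 ≤ E := by positivity
  have hn0 : 0 ≤ n := by linarith
  have hEn : 2 * n ^ 2 ≤ d * (E + n) := by nlinarith
  have hd2 : (2 : ℝ) ≤ d := by exact_mod_cast hd
  refine hsum.trans ?_
  have key : (n ^ 2 - n) - E * ((d : ℝ) - 1) ≤ -(((d : ℝ) - 2) / (2 * d) * n ^ 2) := by
    have h1 : E ≥ 2 * n ^ 2 / d - n := by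
      rw [ge_iff_le, sub_le_iff_le_add, div_le_iff₀ hd0]
      linarith
    have h2 : (n ^ 2 - n) - E * ((d : ℝ) - 1) ≤
        (n ^ 2 - n) - (2 * n ^ 2 / d - n) * ((d : ℝ) - 1) := by
      have : (2 * n ^ 2 / d - n) * ((d : ℝ) - 1) ≤ E * ((d : ℝ) - 1) :=
        mul_le_mul_of_nonneg_right h1 (by linarith)
      linarith
    refine h2.trans ?_
    have h3 : (n ^ 2 - n) - (2 * n ^ 2 / d - n) * ((d : ℝ) - 1) =
        -(((d : ℝ) - 2) / d * n ^ 2) + ((d : ℝ) - 2) * n := by
      field_simp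
      ring
    have h4 : ((d : ℝ) - 2) * n ≤ ((d : ℝ) - 2) / (2 * d) * n ^ 2 := by
      rw [div_mul_eq_mul_div, le_div_iff₀ (by positivity)]
      nlinarith [mul_nonneg (mul_nonneg (sub_nonneg.2 hd2) hn0) (sub_nonneg.2 hn2)]
    have h5 : -(((d : ℝ) - 2) / d * n ^ 2) =
        -(((d : ℝ) - 2) / (2 * d) * n ^ 2) - ((d : ℝ) - 2) / (2 * d) * n ^ 2 := by
      field_simp
      ring
    rw [h3, h5]
    linarith
  calc (n ^ 2 - n) * log R - E * (((d : ℝ) - 1) * log R)
      = ((n ^ 2 - n) - E * ((d : ℝ) - 1)) * log R := by ring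
    _ ≤ (-(((d : ℝ) - 2) / (2 * d) * n ^ 2)) * log R := mul_le_mul_of_nonneg_right key hlam.le
    _ = _ := by
        field_simp

end Pool.Agent.H951R2.MS
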