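import Pool.Agent.H951R2.MSClass

/-!
# The gain at a place where `c` is large
-/

set_option autoImplicit false

namespace Pool.Agent.H951R2.MS

open Finset Polynomial

universe u

theorem uni_sub {K : Type u} [Field K] (d : ℕ) (c x y : K) :
    uni d c x - uni d c y = x ^ d - y ^ d := by
  simp [uni]

theorem gain {d : ℕ} (hd : 2 ≤ d) {δ : ℝ} (hδ : 0 < δ) : ∃ r₀ A : ℝ, 1 ≤ r₀ ∧ 1 ≤ A ∧
    ∀ (K : Type u) [Field K] [DecidableEq K] (v : AbsoluteValue K ℝ) (c : K) (r : ℝ),
      δ ≤ v (d : K) → r₀ ≤ r → v c = r ^ d → ∀ S : Finset K, (∀ x ∈ S, IsPre d c x) →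
        ∃ S' ⊆ S, S.card ≤ d ^ 2 * S'.card ∧ ∀ x ∈ S', ∀ y ∈ S', v (x - y) * r ≤ A := by
  set θ : ℝ := δ / (d ^ 2 * 4 ^ d) with hθ
  have hd0 : (0 : ℝ) < d := by exact_mod_cast (by omega : 0 < d)
  have hθ0 : 0 < θ := by positivity
  set A₁ : ℝ := 2 ^ (d + 2) / δ with hA₁
  have hA₁0 : 0 < A₁ := by positivity
  refine ⟨3 + 2 * A₁ / θ + 4 * (d + 1) / θ ^ d, 1 + 2 ^ d * A₁ / δ, ?_, ?_, ?_⟩
  · have h1 : 0 < 2 * A₁ / θ := by positivity
    have h2 : 0 < 4 * ((d : ℝ) + 1) / θ ^ d := by positivity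
    linarith
  · have h1 : 0 < 2 ^ d * A₁ / δ := by positivity
    linarith
  intro K _ _ v c r hvd hr hc S hS
  have hp1 : 0 < 2 * A₁ / θ := by positivity
  have hp2 : 0 < 4 * ((d : ℝ) + 1) / θ ^ d := by positivity
  have hr3 : 3 < r := by linarith
  have hrA : 2 * A₁ ≤ θ * r := by
    have : 2 * A₁ / θ ≤ r := by linarith
    rw [div_le_iff₀ hθ0] at this
    linarith
  have hrθ : 4 * ((d : ℝ) + 1) < θ ^ d * r := by
    have : 4 * ((d : ℝ) + 1) / θ ^ d < r := by linarith
    rw [div_lt_iff₀ (by positivity)] at this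
    linarith
  have hr1 : 1 ≤ r := by linarith
  have hrd : r * r ≤ r ^ d := by
    calc r * r = r ^ 2 := by ring
      _ ≤ r ^ d := pow_le_pow_right₀ hr1 hd
  have hrd1 : r ≤ r ^ (d - 1) := by
    calc r = r ^ 1 := by ring
      _ ≤ r ^ (d - 1) := pow_le_pow_right₀ hr1 (by omega)
  have hrd2 : r ^ d = r ^ (d - 1) * r := by
    rw [← pow_succ]
    congr 1
    omega
  -- bounds for preperiodic points
  have hup : ∀ y, IsPre d c y → v y ≤ 2 * r := fun y hy =>
    hy.le_two_mul hd v hr1 hc.le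
  have hdiff : ∀ x y, IsPre d c x → IsPre d c y → v (x ^ d - y ^ d) ≤ 4 * r := by
    intro x y hx hy
    rw [← uni_sub d c]
    have h1 := hup _ hx.image
    have h2 := hup _ hy.image
    have h3 := v.add_le (uni d c x) (-(uni d c y))
    rw [v.map_neg, ← sub_eq_add_neg] at h3
    linarith
  have hlow : ∀ y, IsPre d c y → r / 2 ≤ v y := by
    intro y hy
    by_contra hcon
    push Not at hcon
    have h1 : r ^ d ≤ 2 * r + (r / 2) ^ d := by
      calc r ^ d = v c := hc.symm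
        _ = v (uni d c y - y ^ d) := by simp [uni]
        _ ≤ v (uni d c y) + v (y ^ d) := by
            have h3 := v.add_le (uni d c y) (-(y ^ d))
            rwa [v.map_neg, ← sub_eq_add_neg] at h3
        _ ≤ 2 * r + (r / 2) ^ d := by
            rw [map_pow]
            exact add_le_add (hup _ hy.image) (pow_le_pow_left₀ (v.nonneg _) hcon.le _)
    have h2 : (r / 2) ^ d ≤ r ^ d / 4 := by
      rw [div_pow]
      refine div_le_div_of_nonneg_left (by positivity) (by norm_num) ?_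
      calc (4 : ℝ) = 2 ^ 2 := by norm_num
        _ ≤ 2 ^ d := pow_le_pow_right₀ (by norm_num) hd
    nlinarith
  have hkey : ∀ x y, IsPre d c x → IsPre d c y → v (x - y) ≤ θ * r →
      δ * r ^ (d - 1) * v (x - y) ≤ 2 ^ d * v (x ^ d - y ^ d) := fun x y hx hy h =>
    key_ineq v hd hδ hvd hr1 (hup x hx) (hup y hy) (hlow y hy) h
  have hdich : ∀ x y, IsPre d c x → IsPre d c y → v (x - y) ≤ A₁ ∨ θ * r < v (x - y) := by
    intro x y hx hy
    rcases le_or_gt (v (x - y)) (θ * r) with h | h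
    · left
      have h1 := hkey x y hx hy h
      have h2 := hdiff x y hx hy
      rw [hA₁, le_div_iff₀ hδ]
      have h3 : δ * r * v (x - y) ≤ 2 ^ d * (4 * r) := by
        calc δ * r * v (x - y) ≤ δ * r ^ (d - 1) * v (x - y) := by
              refine mul_le_mul_of_nonneg_right ?_ (v.nonneg _)
              exact mul_le_mul_of_nonneg_left hrd1 hδ.le
          _ ≤ 2 ^ d * v (x ^ d - y ^ d) := h1
          _ ≤ 2 ^ d * (4 * r) := mul_le_mul_of_nonneg_left h2 (by positivity)
      have h4 : (v (x - y) * δ) * r ≤ 2 ^ (d + 2) * r := by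
        calc (v (x - y) * δ) * r = δ * r * v (x - y) := by ring
          _ ≤ 2 ^ d * (4 * r) := h3
          _ = 2 ^ (d + 2) * r := by ring
      exact le_of_mul_le_mul_right h4 (by linarith)
    · exact Or.inr h
  have hcard : ∀ T : Finset K, (∀ x ∈ T, IsPre d c x) → ∀ A ⊆ T,
      SepOn (fun a b => θ * r < v (a - b)) A → A.card ≤ d := by
    intro T hT A hAT hsep
    by_contra hcon
    push Not at hcon
    obtain ⟨B, hBA, hB⟩ := Finset.exists_subset_card_eq (show d + 1 ≤ A.card by omega)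
    obtain ⟨a₀, ha₀⟩ : B.Nonempty := Finset.card_pos.1 (by omega)
    have h1 := lagrange_sep v (P := X ^ d - C (a₀ ^ d)) (k := d)
      (monic_X_pow_sub_C _ (by omega)) natDegree_X_pow_sub_C B hB (η := 4 * r) (θ := θ * r)
      (by positivity) ?_ ?_
    · have h2 : 4 * ((d : ℝ) + 1) * r < (θ * r) ^ d := by
        calc 4 * ((d : ℝ) + 1) * r < θ ^ d * r * r :=
              mul_lt_mul_of_pos_right hrθ (by linarith)
          _ = θ ^ d * (r * r) := by ring
          _ ≤ θ ^ d * r ^ d := mul_le_mul_of_nonneg_left hrd (by positivity)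
          _ = (θ * r) ^ d := by rw [mul_pow]
      nlinarith
    · intro a ha
      simp only [eval_sub, eval_pow, eval_X, eval_C]
      exact hdiff a a₀ (hT _ (hAT (hBA ha))) (hT _ (hAT (hBA ha₀)))
    · intro a ha b hb hab
      exact (hsep a (hBA ha) b (hBA hb) hab).le
  -- first level
  obtain ⟨S₁, hS₁, hc₁, hn₁⟩ := exists_class v hA₁0.le hrA (k := d) S
    (fun a ha b hb => hdich a b (hS a ha) (hS b hb)) (hcard S hS) S (fun x => x)
    (fun s hs => hs)
  -- second level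
  have hT : ∀ x ∈ S₁.image (uni d c), IsPre d c x := by
    intro x hx
    rw [Finset.mem_image] at hx
    obtain ⟨y, hy, rfl⟩ := hx
    exact (hS y (hS₁ hy)).image
  obtain ⟨S₂, hS₂, hc₂, hn₂⟩ := exists_class v hA₁0.le hrA (k := d) (S₁.image (uni d c))
    (fun a ha b hb => hdich a b (hT a ha) (hT b hb)) (hcard _ hT) S₁ (uni d c)
    (fun s hs => Finset.mem_image_of_mem _ hs)
  refine ⟨S₂, hS₂.trans hS₁, ?_, ?_⟩
  · calc S.card ≤ d * S₁.card := hc₁
      _ ≤ d * (d * S₂.card) := Nat.mul_le_mul_left _ hc₂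
      _ = d ^ 2 * S₂.card := by ring
  · intro x hx y hy
    have hx' := hS x (hS₁ (hS₂ hx))
    have hy' := hS y (hS₁ (hS₂ hy))
    have h1 : v (x - y) ≤ A₁ := hn₁ x (hS₂ hx) y (hS₂ hy)
    have h2 : v (x ^ d - y ^ d) ≤ A₁ := by
      rw [← uni_sub d c]
      exact hn₂ x hx y hy
    have h3 := hkey x y hx' hy' (by linarith)
    have h4 : δ * (v (x - y) * r) ≤ 2 ^ d * A₁ := by
      calc δ * (v (x - y) * r) = δ * r * v (x - y) := by ring
        _ ≤ δ * r ^ (d - 1) * v (x - y) := by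
            refine mul_le_mul_of_nonneg_right ?_ (v.nonneg _)
            exact mul_le_mul_of_nonneg_left hrd1 hδ.le
        _ ≤ 2 ^ d * v (x ^ d - y ^ d) := h3
        _ ≤ 2 ^ d * A₁ := mul_le_mul_of_nonneg_left h2 (by positivity)
    have h5 : v (x - y) * r ≤ 2 ^ d * A₁ / δ := by
      rw [le_div_iff₀ hδ]
      linarith
    linarith

end Pool.Agent.H951R2.MS
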