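import Pool.Agent.H951R2.MSPlaces

/-!
# Heights and the product formula
-/

set_option autoImplicit false

namespace Pool.Agent.H951R2.MS

open Finset NumberField Real

universe u

variable {K : Type u} [Field K] [NumberField K]

/-- `v` divides `d` or has norm `1` modulo `d` -/
def Bad (d : ℕ) (v : FinitePlace K) : Prop :=
  v (d : K) < 1 ∨ Ideal.absNorm v.maximalIdeal.asIdeal ≡ 1 [MOD d]

theorem posLog_finite (c : K) : {v : FinitePlace K | log⁺ (v c) ≠ 0}.Finite := by
  rcases eq_or_ne c 0 with rfl | hc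
  · refine Set.finite_empty.subset ?_
    intro v hv
    simp at hv
  · refine (FinitePlace.hasFiniteMulSupport hc).subset ?_
    intro v hv h1
    apply hv
    simp only at h1
    rw [h1, posLog_one]

theorem log_product {x : K} (hx : x ≠ 0) (F : Finset (FinitePlace K))
    (hF : ∀ v : FinitePlace K, v x ≠ 1 → v ∈ F) :
    ∑ v : InfinitePlace K, (v.mult : ℝ) * log (v x) + ∑ v ∈ F, log (v x) = 0 := by
  have h := prod_abs_eq_one hx
  rw [finprod_eq_prod_of_mulSupport_subset (s := F) _ (by intro v hv; exact hF v hv)] at h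
  have hI : ∀ v : InfinitePlace K, v x ≠ 0 := fun v => (InfinitePlace.pos_iff.2 hx).ne'
  have hF' : ∀ v : FinitePlace K, v x ≠ 0 := fun v => (FinitePlace.pos_iff.2 hx).ne'
  have h2 := congrArg log h
  rw [log_mul (Finset.prod_ne_zero_iff.2 fun v _ => pow_ne_zero _ (hI v))
    (Finset.prod_ne_zero_iff.2 fun v _ => hF' v),
    log_prod (fun v _ => pow_ne_zero _ (hI v)), log_prod (fun v _ => hF' v), log_one] at h2
  simpa [log_pow] using h2

theorem sum_le_sub {ι : Type*} [DecidableEq ι] (s : Finset ι) (a b : ι → ℝ) (G : ℝ)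
    (hab : ∀ i ∈ s, a i ≤ b i) {w : ι} (hw : w ∈ s) (haw : a w ≤ -G) (hbw : 0 ≤ b w) :
    ∑ i ∈ s, a i ≤ ∑ i ∈ s, b i - G := by
  rw [← Finset.add_sum_erase s a hw, ← Finset.add_sum_erase s b hw]
  have h := Finset.sum_le_sum (fun i (hi : i ∈ s.erase w) => hab i (Finset.mem_of_mem_erase hi))
  linarith

/-- a crude bound for the archimedean error -/
noncomputable def err (d m : ℕ) : ℝ := m * log m + m * (d * (Nat.log d m + 1)) * log 2

theorem err_nonneg (d m : ℕ) : 0 ≤ err d m := by
  have h1 : 0 ≤ log (m : ℝ) := log_natCast_nonneg m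
  have h2 : 0 ≤ log (2 : ℝ) := log_nonneg (by norm_num)
  unfold err
  positivity

theorem log_factorial_le (m : ℕ) : log (m.factorial : ℝ) ≤ m * log m := by
  rcases Nat.eq_zero_or_pos m with rfl | hm
  · simp
  · have h1 : (m.factorial : ℝ) ≤ (m : ℝ) ^ m := by exact_mod_cast Nat.factorial_le_pow m
    have h2 : (0 : ℝ) < m.factorial := by exact_mod_cast Nat.factorial_pos m
    calc log (m.factorial : ℝ) ≤ log ((m : ℝ) ^ m) := log_le_log h2 h1
      _ = m * log m := by rw [log_pow]

omit [NumberField K] in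
/-- the bound at an infinite place -/
theorem inf_bound [DecidableEq K] {d : ℕ} (hd : 2 ≤ d) (c : K) (v : InfinitePlace K)
    (S : Finset K) (hS : ∀ x ∈ S, IsPre d c x) :
    (v.mult : ℝ) * log (v (dsc S)) ≤
      2 * v.mult * err d S.card + 2 * S.card * (Nat.log d S.card + 1) * (v.mult * log⁺ (v c)) := by
  have hd0 : (0 : ℝ) < d := by exact_mod_cast (by omega : 0 < d)
  have hc0 : 0 ≤ v c := apply_nonneg v _
  set R : ℝ := (max 1 (v c)) ^ ((d : ℝ)⁻¹) with hR
  have hm1 : (1 : ℝ) ≤ max 1 (v c) := le_max_left _ _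
  have hRd : R ^ d = max 1 (v c) := rpow_inv_natCast_pow (by linarith) (by omega)
  have hR1 : 1 ≤ R := one_le_rpow hm1 (by positivity)
  have hlogR : log R = log⁺ (v c) / d := by
    rw [posLog_eq_log_max_one hc0, ← hRd, log_pow]
    field_simp
  have hpre : ∀ y, IsPre d c y → v.val y ≤ 2 * R := fun y hy =>
    hy.le_two_mul hd v.val hR1 (by rw [hRd]; exact le_max_right _ _)
  have h1 := dsc_le_arch hd v.val (R := 2 * R) (by linarith) hpre S hS
  have hpos : 0 < v (dsc S) := InfinitePlace.pos_iff.2 (dsc_ne_zero S)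
  have h2 : log (v (dsc S)) ≤ 2 * (log (S.card.factorial : ℝ) +
      (S.card * (d * (Nat.log d S.card + 1)) : ℕ) * (log 2 + log R)) := by
    have h3 := log_le_log hpos h1
    rw [log_pow, log_mul (by positivity) (by positivity), log_pow,
      log_mul (by norm_num) (by positivity)] at h3
    exact_mod_cast h3
  have h4 := log_factorial_le S.card
  have h5 : log (v (dsc S)) ≤ 2 * err d S.card +
      2 * S.card * (Nat.log d S.card + 1) * log⁺ (v c) := by
    refine h2.trans ?_
    rw [hlogR]
    unfold err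
    push_cast
    have h6 : (S.card : ℝ) * (d * (Nat.log d S.card + 1)) * (log 2 + log⁺ (v c) / d) =
        S.card * (d * (Nat.log d S.card + 1)) * log 2 +
        S.card * (Nat.log d S.card + 1) * log⁺ (v c) := by
      field_simp
    rw [h6]
    linarith
  calc (v.mult : ℝ) * log (v (dsc S)) ≤ v.mult * (2 * err d S.card +
      2 * S.card * (Nat.log d S.card + 1) * log⁺ (v c)) :=
        mul_le_mul_of_nonneg_left h5 (by positivity)
    _ = _ := by ring

/-- the bound at a finite place -/
theorem fin_bound [DecidableEq K] {d : ℕ} (hd : 2 ≤ d) (c : K) (v : FinitePlace K)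
    (S : Finset K) (hS : ∀ x ∈ S, IsPre d c x) :
    log (v (dsc S)) ≤ 2 * S.card * (Nat.log d S.card + 1) * log⁺ (v c) := by
  have hd0 : (0 : ℝ) < d := by exact_mod_cast (by omega : 0 < d)
  have hc0 : 0 ≤ v c := apply_nonneg v _
  set R : ℝ := (max 1 (v c)) ^ ((d : ℝ)⁻¹) with hR
  have hm1 : (1 : ℝ) ≤ max 1 (v c) := le_max_left _ _
  have hRd : R ^ d = max 1 (v c) := rpow_inv_natCast_pow (by linarith) (by omega)
  have hR1 : 1 ≤ R := one_le_rpow hm1 (by positivity)
  have hlogR : log R = log⁺ (v c) / d := by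
    rw [posLog_eq_log_max_one hc0, ← hRd, log_pow]
    field_simp
  have hpre : ∀ y, IsPre d c y → v.val y ≤ R := fun y hy =>
    hy.le_of_nonarch hd v.val (fp_isNonarch v) hR1 (by rw [hRd]; exact le_max_right _ _)
  have h1 := dsc_le_nonarch hd v.val (fp_isNonarch v) hR1 hpre S hS
  have hpos : 0 < v (dsc S) := FinitePlace.pos_iff.2 (dsc_ne_zero S)
  have h2 : log (v (dsc S)) ≤ 2 * ((S.card * (d * (Nat.log d S.card + 1)) : ℕ) * log R) := by
    have h3 := log_le_log hpos h1
    rw [log_pow, log_pow] at h3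
    exact_mod_cast h3
  refine h2.trans (le_of_eq ?_)
  rw [hlogR]
  push_cast
  field_simp

open Classical in
/-- the height carried by the infinite places and the bad finite places -/
noncomputable def hBad (d : ℕ) (c : K) : ℝ :=
  ∑ v : InfinitePlace K, (v.mult : ℝ) * log⁺ (v c) +
    ∑ᶠ v : FinitePlace K, if Bad d v then log⁺ (v c) else 0

open Classical in
/-- the height carried by the good finite places -/
noncomputable def hGood (d : ℕ) (c : K) : ℝ :=
  ∑ᶠ v : FinitePlace K, if Bad d v then 0 else log⁺ (v c)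

theorem hGood_nonneg (d : ℕ) (c : K) : 0 ≤ hGood d c := by
  refine finsum_nonneg fun v => ?_
  split_ifs
  · exact le_rfl
  · exact posLog_nonneg

theorem hBad_nonneg (d : ℕ) (c : K) : 0 ≤ hBad d c := by
  refine add_nonneg (Finset.sum_nonneg fun v _ => ?_) (finsum_nonneg fun v => ?_)
  · have := posLog_nonneg (x := v c)
    positivity
  · split_ifs
    · exact posLog_nonneg
    · exact le_rfl

/-- the main inequality -/
theorem assembly [DecidableEq K] {d : ℕ} (hd : 2 ≤ d) (c : K)
    (S : Finset K) (hS : ∀ x ∈ S, IsPre d c x) (hn : 2 * d ≤ S.card) (G : ℝ)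
    (hG : (∃ w : InfinitePlace K, (w.mult : ℝ) * log (w (dsc S)) ≤ -G) ∨
      ∃ w : FinitePlace K, Bad d w ∧ log (w (dsc S)) ≤ -G) :
    G + ((d : ℝ) - 2) / (2 * d ^ 2) * S.card ^ 2 * hGood d c ≤
      2 * S.card * (Nat.log d S.card + 1) * hBad d c +
      2 * Module.finrank ℚ K * err d S.card := by
  classical
  set m := S.card with hm
  set L : ℝ := 2 * m * (Nat.log d m + 1) with hL
  have hL0 : 0 ≤ L := by positivity
  set κ : ℝ := ((d : ℝ) - 2) / (2 * d ^ 2) * m ^ 2 with hκ
  have hx := dsc_ne_zero S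
  -- a finite set of places
  obtain ⟨F, hF1, hF2, hF3⟩ : ∃ F : Finset (FinitePlace K),
      (∀ v : FinitePlace K, v (dsc S) ≠ 1 → v ∈ F) ∧
      (∀ v : FinitePlace K, log⁺ (v c) ≠ 0 → v ∈ F) ∧
      (∀ w : FinitePlace K, Bad d w → log (w (dsc S)) ≤ -G →
        (w ∈ F ∨ G ≤ 0)) := by
    refine ⟨(FinitePlace.hasFiniteMulSupport hx).toFinset ∪ (posLog_finite c).toFinset,
      ?_, ?_, ?_⟩
    · intro v hv
      exact Finset.mem_union_left _ ((Set.Finite.mem_toFinset _).2 hv)
    · intro v hv
      exact Finset.mem_union_right _ ((Set.Finite.mem_toFinset _).2 hv)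
    · intro w _ hw
      by_cases h : w (dsc S) = 1
      · right
        rw [h, log_one] at hw
        linarith
      · left
        exact Finset.mem_union_left _ ((Set.Finite.mem_toFinset _).2 h)
  have hprod := log_product hx F hF1
  have hbadsum : ∑ᶠ v : FinitePlace K, (if Bad d v then log⁺ (v c) else 0) =
      ∑ v ∈ F, (if Bad d v then log⁺ (v c) else 0) := by
    refine finsum_eq_sum_of_support_subset _ ?_
    intro v hv
    refine hF2 v fun h => hv ?_
    simp only [h, ite_self]
  have hgoodsum : hGood d c = ∑ v ∈ F, (if Bad d v then 0 else log⁺ (v c)) := by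
    refine finsum_eq_sum_of_support_subset _ ?_
    intro v hv
    refine hF2 v fun h => hv ?_
    simp only [h, ite_self]
  set bI : InfinitePlace K → ℝ := fun v => 2 * v.mult * err d m + L * (v.mult * log⁺ (v c))
    with hbI
  set bF : FinitePlace K → ℝ := fun v =>
    L * (if Bad d v then log⁺ (v c) else 0) - κ * (if Bad d v then 0 else log⁺ (v c)) with hbF
  have hI : ∀ v ∈ (Finset.univ : Finset (InfinitePlace K)),
      (v.mult : ℝ) * log (v (dsc S)) ≤ bI v := fun v _ => inf_bound hd c v S hS
  have hI0 : ∀ v, 0 ≤ bI v := by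
    intro v
    have h1 := err_nonneg d m
    have h2 := posLog_nonneg (x := v c)
    simp only [hbI]
    positivity
  have hFb : ∀ v ∈ F, log (v (dsc S)) ≤ bF v := by
    intro v _
    simp only [hbF]
    by_cases h : Bad d v
    · rw [if_pos h, if_pos h, mul_zero, sub_zero]
      exact fin_bound hd c v S hS
    · rw [if_neg h, if_neg h, mul_zero, zero_sub]
      have h' := h
      unfold Bad at h'
      push Not at h'
      exact tame_filter hd v c (not_lt.2 h'.1) h'.2 S hS hn
  have hsumI : ∑ v : InfinitePlace K, bI v = 2 * Module.finrank ℚ K * err d m +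
      L * ∑ v : InfinitePlace K, (v.mult : ℝ) * log⁺ (v c) := by
    simp only [hbI]
    rw [Finset.sum_add_distrib, ← Finset.mul_sum, ← Finset.sum_mul, ← Finset.mul_sum]
    congr 3
    rw [← InfinitePlace.sum_mult_eq (K := K)]
    push_cast
    rfl
  have hsumF : ∑ v ∈ F, bF v = L * ∑ v ∈ F, (if Bad d v then log⁺ (v c) else 0) -
      κ * hGood d c := by
    simp only [hbF]
    rw [Finset.sum_sub_distrib, ← Finset.mul_sum, ← Finset.mul_sum, hgoodsum]
  have htot : ∑ v : InfinitePlace K, bI v + ∑ v ∈ F, bF v =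
      L * hBad d c + 2 * Module.finrank ℚ K * err d m - κ * hGood d c := by
    rw [hsumI, hsumF, hBad, hbadsum]
    ring
  rcases hG with ⟨w, hw⟩ | ⟨w, hwb, hw⟩
  · have h1 := sum_le_sub Finset.univ (fun v : InfinitePlace K => (v.mult : ℝ) * log (v (dsc S)))
      bI G hI (Finset.mem_univ w) hw (hI0 w)
    have h2 := Finset.sum_le_sum hFb
    linarith
  · rcases hF3 w hwb hw with hwF | hG0
    · have h1 := sum_le_sub F (fun v : FinitePlace K => log (v (dsc S))) bF G hFb hwF hw (by
        simp only [hbF]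
        rw [if_pos hwb, if_pos hwb, mul_zero, sub_zero]
        exact mul_nonneg hL0 posLog_nonneg)
      have h2 := Finset.sum_le_sum hI
      linarith
    · have h1 := Finset.sum_le_sum hFb
      have h2 := Finset.sum_le_sum hI
      linarith

end Pool.Agent.H951R2.MS
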