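import Pool.Agent.H951R2.MSFinal

/-!
# Preperiodic points of `x ^ d + c`: the bound for finite sets
-/

set_option autoImplicit false

namespace Pool.Agent.H951R2.MS

open Finset NumberField Real

universe u

theorem le_hGood {K : Type u} [Field K] [NumberField K] (d : ℕ) (c : K) {w : FinitePlace K}
    (hbad : ¬ Bad d w) : log⁺ (w c) ≤ hGood d c := by
  classical
  have hfin : (Function.support fun v : FinitePlace K =>
      if Bad d v then (0 : ℝ) else log⁺ (v c)).Finite := by
    refine (posLog_finite c).subset ?_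
    intro v hv h0
    apply hv
    simp only [h0, ite_self]
  have hnn : ∀ v : FinitePlace K, 0 ≤ (fun v : FinitePlace K =>
      if Bad d v then (0 : ℝ) else log⁺ (v c)) v := by
    intro v
    simp only
    split_ifs
    · exact le_rfl
    · exact posLog_nonneg
  have h := single_le_finsum w hfin hnn
  simp only [if_neg hbad] at h
  exact h

theorem main_finset (d : ℕ) (hd : 2 ≤ d) (D : ℕ) : ∃ C : ℝ, 0 < C ∧
    ∀ (K : Type u) [Field K] [NumberField K] (c : K) (r : ℝ), Module.finrank ℚ K ≤ D → 1 ≤ r →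
      (hBad d c ≤ r * hGood d c ∨
        (∃ w : InfinitePlace K, hBad d c ≤ r * (w.mult * log⁺ (w c))) ∨
        ∃ w : FinitePlace K, hBad d c ≤ r * log⁺ (w c)) →
      ∀ S : Finset K, (∀ x ∈ S, IsPre d c x) → (S.card : ℝ) ≤ C * r * log (1 + r) := by
  have hd0 : (0 : ℝ) < d := by exact_mod_cast (by omega : 0 < d)
  have hd1 : (1 : ℝ) ≤ d := by exact_mod_cast (by omega : 1 ≤ d)
  obtain ⟨T, hT1, hbig⟩ := big_place.{u} hd (δ := ((d : ℝ) ^ D)⁻¹) (by positivity)
  obtain ⟨k, hk1, hsmall⟩ := small_place.{u} d hd D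
  set C₁ : ℝ := 4 * d ^ 2 * (2 + 2 * D * (1 + d) + 2 * T) with hC₁
  have hC₁1 : 1 ≤ C₁ := by
    have h1 : (1 : ℝ) ≤ d ^ 2 := one_le_pow₀ hd1
    have h2 : (0 : ℝ) ≤ 2 * D * (1 + d) := by positivity
    rw [hC₁]
    nlinarith
  have hl2 : 0 < log (2 : ℝ) := log_pos (by norm_num)
  have hl4 : 0 ≤ log (4 * C₁) := log_nonneg (by linarith)
  set C₂ : ℝ := 4 * C₁ * (log (4 * C₁) / log 2 + 1) + 2 * d / log 2 with hC₂
  have hC₂0 : 0 < C₂ := by positivity
  set kk : ℕ := max k (d ^ 2) with hkk
  have hkk1 : 1 ≤ kk := hk1.trans (le_max_left _ _)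
  refine ⟨kk * C₂, by positivity, ?_⟩
  intro K _ _ c r hD hr hcase S hS
  classical
  have hlr : log 2 ≤ log (1 + r) := log_le_log (by norm_num) (by linarith)
  have hlr0 : 0 < log (1 + r) := by linarith
  -- it is enough to find a large subset for which the arithmetic lemma applies
  have fin : ∀ S' : Finset K, S.card ≤ kk * S'.card →
      (2 * d ≤ S'.card → (S'.card : ℝ) ≤ C₁ * r * (1 + 2 * log S'.card)) →
      (S.card : ℝ) ≤ kk * C₂ * r * log (1 + r) := by
    intro S' h1 h2
    have h3 : (S'.card : ℝ) ≤ C₂ * r * log (1 + r) := by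
      rcases lt_or_ge S'.card (2 * d) with h | h
      · have e1 : (S'.card : ℝ) ≤ 2 * d := by exact_mod_cast h.le
        have e2 : (2 : ℝ) * d ≤ 2 * d / log 2 * r * log (1 + r) := by
          calc (2 : ℝ) * d = 2 * d / log 2 * 1 * log 2 := by field_simp
            _ ≤ 2 * d / log 2 * r * log (1 + r) := by gcongr
        have e3 : 0 ≤ 4 * C₁ * (log (4 * C₁) / log 2 + 1) * r * log (1 + r) := by positivity
        calc (S'.card : ℝ) ≤ 2 * d := e1
          _ ≤ 2 * d / log 2 * r * log (1 + r) := e2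
          _ ≤ 4 * C₁ * (log (4 * C₁) / log 2 + 1) * r * log (1 + r) +
              2 * d / log 2 * r * log (1 + r) := by linarith
          _ = _ := by rw [hC₂]; ring
      · have e0 : (0 : ℝ) < S'.card := by exact_mod_cast (by omega : 0 < S'.card)
        have e1 := real_end hC₁1 hr e0 (h2 h)
        have e3 : 0 ≤ 2 * d / log 2 * r * log (1 + r) := by positivity
        calc (S'.card : ℝ) ≤ 4 * C₁ * (log (4 * C₁) / log 2 + 1) * r * log (1 + r) := e1
          _ ≤ 4 * C₁ * (log (4 * C₁) / log 2 + 1) * r * log (1 + r) +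
              2 * d / log 2 * r * log (1 + r) := by linarith
          _ = _ := by rw [hC₂]; ring
    have h4 : (S.card : ℝ) ≤ kk * S'.card := by exact_mod_cast h1
    calc (S.card : ℝ) ≤ kk * S'.card := h4
      _ ≤ kk * (C₂ * r * log (1 + r)) := mul_le_mul_of_nonneg_left h3 (by positivity)
      _ = _ := by ring
  have hd2 : d = 2 → hGood d c = 0 := by
    rintro rfl
    exact hGood_two c
  -- the auxiliary small place
  have small : (hBad d c ≤ r * hGood d c ∨ hBad d c ≤ r * T) →
      (S.card : ℝ) ≤ kk * C₂ * r * log (1 + r) := by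
    intro h
    obtain ⟨v, hv, hv'⟩ := hsmall K c hD
    obtain ⟨S', hS', h1, h2⟩ := hv' S hS
    refine fin S' (h1.trans (Nat.mul_le_mul_right _ (le_max_left _ _))) ?_
    intro hm
    have hpre : ∀ x ∈ S', IsPre d c x := fun x hx => hS x (hS' hx)
    have h3 := gain_sum v.val (μ := 1) (g := 1) S' (by
      intro x hx y hy hxy
      have e1 : v.val (x - y) ≤ 1 / 3 := h2 x hx y hy
      have e2 : 0 < v.val (x - y) := v.val.pos (sub_ne_zero.2 hxy)
      have e3 := log_le_log e2 e1
      have e4 : log ((1 : ℝ) / 3) ≤ -1 := by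
        rw [one_div, log_inv]
        have : (1 : ℝ) ≤ log 3 := by
          rw [le_log_iff_exp_le (by norm_num)]
          linarith [exp_one_lt_d9]
        linarith
      linarith)
    rw [one_mul] at h3
    have h4 := assembly hd c S' hpre hm _ (Or.inr ⟨v, Or.inr hv, h3⟩)
    exact arith hd hm hD hr hT1 (hBad_nonneg d c) (hGood_nonneg d c)
      (err_bound hd (by omega)) (err_nonneg _ _) hd2 h4 (Or.inl ⟨rfl, h⟩)
  rcases hcase with h | ⟨w, h⟩ | ⟨w, h⟩
  · exact small (Or.inl h)
  · rcases lt_or_ge ((w.mult : ℝ) * log⁺ (w c)) T with ht | ht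
    · exact small (Or.inr (h.trans (mul_le_mul_of_nonneg_left ht.le (by linarith))))
    · have hμ1 : (1 : ℝ) ≤ w.mult := by
        exact_mod_cast InfinitePlace.mult_pos
      have hμ2 : (w.mult : ℝ) ≤ 2 := by
        have : w.mult ≤ 2 := by
          unfold InfinitePlace.mult
          split_ifs <;> norm_num
        exact_mod_cast this
      have hδ : ((d : ℝ) ^ D)⁻¹ ≤ w.val (d : K) := by
        have e1 : w.val (d : K) = d := InfinitePlace.map_natCast w d
        rw [e1]
        exact (inv_le_one_of_one_le₀ (one_le_pow₀ hd1)).trans hd1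
      obtain ⟨S', hS', h1, h2⟩ := hbig K w.val c w.mult hμ1 hμ2 hδ ht S hS
      refine fin S' (h1.trans (Nat.mul_le_mul_right _ (le_max_right _ _))) ?_
      intro hm
      have hpre : ∀ x ∈ S', IsPre d c x := fun x hx => hS x (hS' hx)
      have h3 := gain_sum w.val (μ := w.mult) S' h2
      have h4 := assembly hd c S' hpre hm _ (Or.inl ⟨w, h3⟩)
      exact arith hd hm hD hr hT1 (hBad_nonneg d c) (hGood_nonneg d c)
        (err_bound hd (by omega)) (err_nonneg _ _) hd2 h4
        (Or.inr ⟨_, hT1.trans ht, rfl, h⟩)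
  · by_cases hbad : Bad d w
    · rcases lt_or_ge (log⁺ (w c)) T with ht | ht
      · exact small (Or.inr (h.trans (mul_le_mul_of_nonneg_left ht.le (by linarith))))
      · obtain ⟨S', hS', h1, h2⟩ := hbig K w.val c 1 le_rfl (by norm_num)
          (fp_natCast_ge hD (by omega) w) (by rw [one_mul]; exact ht) S hS
        refine fin S' (h1.trans (Nat.mul_le_mul_right _ (le_max_right _ _))) ?_
        intro hm
        have hpre : ∀ x ∈ S', IsPre d c x := fun x hx => hS x (hS' hx)
        have h3 := gain_sum w.val (μ := 1) S' h2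
        rw [one_mul] at h3
        have h4 := assembly hd c S' hpre hm _ (Or.inr ⟨w, hbad, h3⟩)
        refine arith hd hm hD hr hT1 (hBad_nonneg d c) (hGood_nonneg d c)
          (err_bound hd (by omega)) (err_nonneg _ _) hd2 h4
          (Or.inr ⟨1 * log⁺ (w.val c), ?_, rfl, ?_⟩)
        · rw [one_mul]
          exact hT1.trans ht
        · rw [one_mul]
          exact h
    · refine small (Or.inl (h.trans (mul_le_mul_of_nonneg_left ?_ (by linarith))))
      exact le_hGood d c hbad

end Pool.Agent.H951R2.MS
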