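import Pool.Agent.H951R2.MSGain
import Pool.Agent.H951R2.MSFinite

/-!
# The auxiliary place over a small prime
-/

set_option autoImplicit false

namespace Pool.Agent.H951R2.MS

open Finset Polynomial NumberField IsDedekindDomain

universe u

theorem fp_natCast_le_one {K : Type u} [Field K] [NumberField K] (v : FinitePlace K) (d : ℕ) :
    v (d : K) ≤ 1 := by
  have h := fp_int_le_one v ((d : ℕ) : 𝓞 K)
  have e : (((d : ℕ) : 𝓞 K) : K) = ((d : ℕ) : K) := map_natCast (algebraMap (𝓞 K) K) d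
  rwa [e] at h

/-- a lower bound for `v d` -/
theorem fp_natCast_ge {K : Type u} [Field K] [NumberField K] {D : ℕ}
    (hD : Module.finrank ℚ K ≤ D) {d : ℕ} (hd : 1 ≤ d) (v : FinitePlace K) :
    ((d : ℝ) ^ D)⁻¹ ≤ v (d : K) := by
  classical
  have hd0 : (d : K) ≠ 0 := by exact_mod_cast (by omega : d ≠ 0)
  have h1 := FinitePlace.prod_eq_inv_abs_norm (K := K) hd0
  have h2 : (Algebra.norm ℚ) (d : K) = (d : ℚ) ^ (Module.finrank ℚ K) := by
    have := Algebra.norm_algebraMap (R := ℚ) (S := K) (d : ℚ)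
    simpa using this
  rw [h2] at h1
  have hfin := FinitePlace.hasFiniteMulSupport (K := K) hd0
  have h3 := finprod_eq_prod_of_mulSupport_subset (fun w : FinitePlace K => w (d : K))
    (s := insert v (Set.Finite.toFinset hfin)) (by
      intro w hw
      rw [Finset.coe_insert]
      exact Set.mem_insert_of_mem _ (Finset.mem_coe.2 ((Set.Finite.mem_toFinset hfin).2 hw)))
  rw [h3, ← Finset.mul_prod_erase _ _ (Finset.mem_insert_self _ _)] at h1
  have h4 : ∏ w ∈ (insert v (Set.Finite.toFinset hfin)).erase v, w (d : K) ≤ 1 :=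
    Finset.prod_le_one (fun w _ => apply_nonneg w _) (fun w _ => fp_natCast_le_one w d)
  have h5 : (((|((d : ℚ) ^ (Module.finrank ℚ K))|⁻¹ : ℚ)) : ℝ) =
      ((d : ℝ) ^ (Module.finrank ℚ K))⁻¹ := by
    rw [abs_of_nonneg (by positivity)]
    push_cast
    rfl
  have h6 : ((d : ℝ) ^ (Module.finrank ℚ K))⁻¹ ≤ v (d : K) := by
    rw [← h5, ← h1]
    calc v (d : K) * _ ≤ v (d : K) * 1 := mul_le_mul_of_nonneg_left h4 (apply_nonneg v _)
      _ = v (d : K) := mul_one _
  refine le_trans ?_ h6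
  have hd1 : (1 : ℝ) ≤ d := by exact_mod_cast hd
  exact inv_anti₀ (by positivity) (pow_le_pow_right₀ hd1 hD)

/-- finite places above a prime number -/
theorem exists_place_above {K : Type u} [Field K] [NumberField K] {D : ℕ}
    (hD : Module.finrank ℚ K ≤ D) {p : ℕ} (hp : p.Prime) :
    ∃ v : FinitePlace K, ∃ f : ℕ, 1 ≤ f ∧ f ≤ D ∧
      Ideal.absNorm v.maximalIdeal.asIdeal = p ^ f := by
  have h1 : Ideal.absNorm (Ideal.span {((p : ℕ) : 𝓞 K)}) = p ^ Module.finrank ℚ K := by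
    rw [Ideal.absNorm_span_natCast, RingOfIntegers.rank]
  have hpos : 0 < Module.finrank ℚ K := Module.finrank_pos
  have h2 : Ideal.span {((p : ℕ) : 𝓞 K)} ≠ ⊤ := by
    intro h
    rw [h, Ideal.absNorm_top] at h1
    have := Nat.one_lt_pow hpos.ne' hp.one_lt
    omega
  obtain ⟨M, hM, hle⟩ := Ideal.exists_le_maximal _ h2
  have hne : M ≠ ⊥ := by
    intro h
    rw [h, le_bot_iff, Ideal.span_singleton_eq_bot] at hle
    have : ((p : ℕ) : 𝓞 K) ≠ 0 := by exact_mod_cast hp.ne_zero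
    exact this hle
  let w : HeightOneSpectrum (𝓞 K) := ⟨M, hM.isPrime, hne⟩
  have h3 := Ideal.absNorm_dvd_absNorm_of_le hle
  rw [h1, Nat.dvd_prime_pow hp] at h3
  obtain ⟨f, hf, h4⟩ := h3
  refine ⟨FinitePlace.mk w, f, ?_, hf.trans hD, ?_⟩
  · by_contra hcon
    have hf0 : f = 0 := by omega
    rw [hf0, pow_zero, Ideal.absNorm_eq_one_iff] at h4
    exact hM.ne_top h4
  · rw [FinitePlace.maximalIdeal_mk]
    exact h4

theorem monic_X_pow_sub_X {K : Type u} [Field K] {q : ℕ} (hq : 1 < q) :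
    (X ^ q - X : K[X]).Monic := by
  refine monic_X_pow_sub ?_
  rw [degree_X]
  exact_mod_cast hq

/-- residue classes -/
theorem residue_class {K : Type u} [Field K] [NumberField K] [DecidableEq K] {d : ℕ} (hd : 2 ≤ d)
    (v : FinitePlace K) {c : K} (hc : v c ≤ 1)
    (hq : 3 ≤ Ideal.absNorm v.maximalIdeal.asIdeal)
    (S : Finset K) (hS : ∀ x ∈ S, IsPre d c x) :
    ∃ S' ⊆ S, S.card ≤ Ideal.absNorm v.maximalIdeal.asIdeal * S'.card ∧
      ∀ x ∈ S', ∀ y ∈ S', v (x - y) ≤ 1 / 3 := by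
  set q := Ideal.absNorm v.maximalIdeal.asIdeal with hqdef
  have hq3 : (3 : ℝ) ≤ q := by exact_mod_cast hq
  have hle : ∀ y, IsPre d c y → v y ≤ 1 := fun y hy =>
    hy.le_of_nonarch hd v.val (fp_isNonarch v) le_rfl (by rw [one_pow]; exact hc)
  have hdich : ∀ a ∈ S, ∀ b ∈ S, v.val (a - b) ≤ (q : ℝ)⁻¹ ∨ 2 * (q : ℝ)⁻¹ < v.val (a - b) := by
    intro a ha b hb
    rcases lt_or_ge (v (a - b)) 1 with h | h
    · exact Or.inl (fp_le_inv v h)
    · refine Or.inr (lt_of_lt_of_le ?_ h)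
      rw [← div_eq_mul_inv, div_lt_one (by positivity)]
      linarith
  have hcard : ∀ A ⊆ S, SepOn (fun a b => 2 * (q : ℝ)⁻¹ < v.val (a - b)) A → A.card ≤ q := by
    intro A hA hsep
    by_contra hcon
    push Not at hcon
    obtain ⟨B, hBA, hB⟩ := Finset.exists_subset_card_eq (show q + 1 ≤ A.card by omega)
    have hsep1 : ∀ a ∈ B, ∀ b ∈ B, a ≠ b → 1 ≤ v.val (a - b) := by
      intro a ha b hb hab
      by_contra h
      push Not at h
      have h4 : v.val (a - b) ≤ (q : ℝ)⁻¹ := fp_le_inv v h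
      have h5 : 2 * (q : ℝ)⁻¹ < v.val (a - b) := hsep a (hBA ha) b (hBA hb) hab
      have h6 : (0 : ℝ) < (q : ℝ)⁻¹ := by positivity
      linarith
    obtain ⟨a, ha, h3⟩ := lagrange_sep_nonarch v.val (fp_isNonarch v)
      (P := X ^ q - X) (k := q) (monic_X_pow_sub_X (by omega))
      (FiniteField.X_pow_card_sub_X_natDegree_eq K (by omega)) B hB (θ := 1) one_pos hsep1
    rw [one_pow] at h3
    simp only [eval_sub, eval_pow, eval_X] at h3
    have h4 := fp_pow_sub_self v (hle a (hS a (hA (hBA ha))))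
    exact absurd h3 (not_le.2 h4)
  obtain ⟨S', hS', h1, h2⟩ := exists_class v.val (A₁ := (q : ℝ)⁻¹) (θ := 2 * (q : ℝ)⁻¹)
    (by positivity) le_rfl (k := q) S hdich hcard S (fun x => x) (fun s hs => hs)
  refine ⟨S', hS', h1, fun x hx y hy => (h2 x hx y hy).trans ?_⟩
  rw [one_div]
  exact inv_anti₀ (by norm_num) hq3

/-- the auxiliary place -/
theorem small_place (d : ℕ) (hd : 2 ≤ d) (D : ℕ) : ∃ k : ℕ, 1 ≤ k ∧
    ∀ (K : Type u) [Field K] [NumberField K] [DecidableEq K] (c : K),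
      Module.finrank ℚ K ≤ D → ∃ v : FinitePlace K,
        Ideal.absNorm v.maximalIdeal.asIdeal ≡ 1 [MOD d] ∧
        ∀ S : Finset K, (∀ x ∈ S, IsPre d c x) → ∃ S' ⊆ S, S.card ≤ k * S'.card ∧
          ∀ x ∈ S', ∀ y ∈ S', v (x - y) ≤ 1 / 3 := by
  have hd0 : (0 : ℝ) < d := by exact_mod_cast (by omega : 0 < d)
  obtain ⟨r₀, A, hr₀, hA, hgain⟩ := gain.{u} hd (δ := ((d : ℝ) ^ D)⁻¹) (by positivity)
  set B : ℝ := max r₀ (3 * A) with hB
  have hB0 : 0 < B := lt_of_lt_of_le (by linarith) (le_max_left _ _)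
  obtain ⟨N, hN⟩ := exists_nat_gt (B ^ d)
  obtain ⟨p, hp, hpN, hmod⟩ := Nat.exists_prime_gt_modEq_one (k := d) (max N 3) (by omega)
  have hp3 : 3 < p := lt_of_le_of_lt (le_max_right _ _) hpN
  have hpB : B ^ d < p := by
    have h1 : (N : ℝ) < p := by exact_mod_cast lt_of_le_of_lt (le_max_left N 3) hpN
    linarith
  refine ⟨max (p ^ D) (d ^ 2), ?_, ?_⟩
  · exact le_max_of_le_right (Nat.one_le_pow _ _ (by omega))
  intro K _ _ _ c hD
  obtain ⟨v, f, hf1, hfD, hv⟩ := exists_place_above (K := K) hD hp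
  refine ⟨v, ?_, ?_⟩
  · rw [hv]
    simpa using hmod.pow f
  intro S hS
  have hqp : p ≤ Ideal.absNorm v.maximalIdeal.asIdeal := by
    rw [hv]
    calc p = p ^ 1 := (pow_one p).symm
      _ ≤ p ^ f := Nat.pow_le_pow_right hp.pos hf1
  rcases le_or_gt (v c) 1 with hc | hc
  · obtain ⟨S', hS', h1, h2⟩ := residue_class hd v hc (by omega) S hS
    refine ⟨S', hS', h1.trans (Nat.mul_le_mul_right _ ?_), h2⟩
    rw [hv]
    exact le_max_of_le_left (Nat.pow_le_pow_right hp.pos hfD)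
  · set r : ℝ := (v c) ^ ((d : ℝ)⁻¹) with hr
    have hrd : r ^ d = v c := Real.rpow_inv_natCast_pow (apply_nonneg v _) (by omega)
    have hr0 : 0 ≤ r := Real.rpow_nonneg (apply_nonneg v _) _
    have hBr : B ≤ r := by
      have h1 : B ^ d ≤ r ^ d := by
        rw [hrd]
        have h2 := fp_le_of_one_lt v hc
        have h3 : (p : ℝ) ≤ Ideal.absNorm v.maximalIdeal.asIdeal := by exact_mod_cast hqp
        linarith
      exact le_of_pow_le_pow_left₀ (by omega) hr0 h1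
    obtain ⟨S', hS', h1, h2⟩ := hgain K v.val c r (fp_natCast_ge hD (by omega) v)
      ((le_max_left _ _).trans hBr) hrd.symm S hS
    refine ⟨S', hS', h1.trans (Nat.mul_le_mul_right _ (le_max_right _ _)), ?_⟩
    intro x hx y hy
    have h3 := h2 x hx y hy
    have h4 : 3 * A ≤ r := (le_max_right _ _).trans hBr
    have h5 : v.val (x - y) = v (x - y) := rfl
    rw [h5] at h3
    have h6 : 0 ≤ v (x - y) := apply_nonneg v _
    have h7 : v (x - y) * (3 * A) ≤ A := (mul_le_mul_of_nonneg_left h4 h6).trans h3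
    have hA0 : 0 < A := by linarith
    rw [le_div_iff₀ (by norm_num)]
    have h8 : v (x - y) * 3 * A ≤ 1 * A := by linarith
    exact le_of_mul_le_mul_right h8 hA0

end Pool.Agent.H951R2.MS
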