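import Pool.Agent.H951R2.MSMain

/-!
# From the bad and good heights to the height at the places of norm `1` modulo `d`
-/

set_option autoImplicit false

namespace Pool.Agent.H951R2.MS

open Finset NumberField Real

universe u

/-- The part of the (unnormalised logarithmic) height of `c` carried by the finite places `v` of
`K` whose absolute norm is congruent to `1` modulo `d`. -/
noncomputable def heightOne (d : ℕ) {K : Type u} [Field K] [NumberField K] (c : K) : ℝ :=
  ∑ᶠ v : FinitePlace K,
    if Ideal.absNorm v.maximalIdeal.asIdeal ≡ 1 [MOD d] then log⁺ (v c) else 0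

/-- there are few places above `d` -/
theorem wild_finset {K : Type u} [Field K] [NumberField K] {D : ℕ}
    (hD : Module.finrank ℚ K ≤ D) {d : ℕ} (hd : 2 ≤ d) :
    ∃ W : Finset (FinitePlace K), (∀ v : FinitePlace K, v ∈ W ↔ v (d : K) < 1) ∧
      W.card ≤ D * d := by
  classical
  have hd0 : (d : K) ≠ 0 := by exact_mod_cast (by omega : d ≠ 0)
  have hfin : {v : FinitePlace K | v (d : K) < 1}.Finite := by
    refine (FinitePlace.hasFiniteMulSupport hd0).subset ?_
    intro v hv h1
    have hv' : v (d : K) < 1 := hv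
    simp only at h1
    linarith
  refine ⟨hfin.toFinset, fun v => by simp, ?_⟩
  set W := hfin.toFinset with hW
  have hfin2 := FinitePlace.hasFiniteMulSupport (K := K) hd0
  have hprod := log_product hd0 (Set.Finite.toFinset hfin2)
    (fun v hv => (Set.Finite.mem_toFinset hfin2).2 hv)
  have hWF : W ⊆ Set.Finite.toFinset hfin2 := by
    intro v hv
    rw [hW, Set.Finite.mem_toFinset] at hv
    refine (Set.Finite.mem_toFinset hfin2).2 ?_
    intro h1
    have hv' : v (d : K) < 1 := hv
    simp only at h1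
    linarith
  have hinf : ∑ v : InfinitePlace K, (v.mult : ℝ) * log (v (d : K)) =
      Module.finrank ℚ K * log d := by
    rw [← InfinitePlace.sum_mult_eq (K := K)]
    push_cast
    rw [Finset.sum_mul]
    refine Finset.sum_congr rfl fun v _ => ?_
    rw [InfinitePlace.map_natCast]
  have hle : ∑ v ∈ Set.Finite.toFinset hfin2, log (v (d : K)) ≤ ∑ v ∈ W, log (v (d : K)) := by
    rw [← Finset.sum_sdiff hWF]
    have : ∑ v ∈ Set.Finite.toFinset hfin2 \ W, log (v (d : K)) ≤ 0 :=
      Finset.sum_nonpos fun v _ => log_nonpos (apply_nonneg v _) (fp_natCast_le_one v d)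
    linarith
  have hle2 : ∑ v ∈ W, log (v (d : K)) ≤ ∑ _v ∈ W, -log 2 := by
    refine Finset.sum_le_sum fun v hv => ?_
    rw [hW, Set.Finite.mem_toFinset] at hv
    have h1 := fp_le_inv v (x := (d : K)) hv
    have h2 : (2 : ℝ) ≤ Ideal.absNorm v.maximalIdeal.asIdeal := by exact_mod_cast fp_one_lt v
    have h3 : 0 < v (d : K) := FinitePlace.pos_iff.2 hd0
    calc log (v (d : K)) ≤ log ((2 : ℝ)⁻¹) :=
          log_le_log h3 (h1.trans (inv_anti₀ (by norm_num) h2))
      _ = -log 2 := log_inv 2
  rw [Finset.sum_const, nsmul_eq_mul] at hle2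
  rw [hinf] at hprod
  have hl2 : 0 < log (2 : ℝ) := log_pos (by norm_num)
  have hld : log (d : ℝ) ≤ d * log 2 := by
    have h1 : (d : ℝ) ≤ 2 ^ d := by exact_mod_cast Nat.lt_two_pow_self.le
    have h2 : (0 : ℝ) < d := by exact_mod_cast (by omega : 0 < d)
    have h3 := log_le_log h2 h1
    rwa [log_pow] at h3
  have hDR : (Module.finrank ℚ K : ℝ) ≤ D := by exact_mod_cast hD
  have h4 : (W.card : ℝ) * log 2 ≤ D * d * log 2 := by
    calc (W.card : ℝ) * log 2 ≤ Module.finrank ℚ K * log d := by linarith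
      _ ≤ D * (d * log 2) :=
          mul_le_mul hDR hld (log_natCast_nonneg d) (by positivity)
      _ = _ := by ring
  have h5 : (W.card : ℝ) ≤ D * d := le_of_mul_le_mul_right h4 hl2
  exact_mod_cast h5

/-- the preperiodic points of `x ↦ x ^ d + c` in `K` -/
theorem main_ncard (d : ℕ) (hd : 2 ≤ d) (D : ℕ) : ∃ C : ℝ, 0 < C ∧
    ∀ (K : Type u) [Field K] [NumberField K] (c : K) (r : ℝ), Module.finrank ℚ K ≤ D → 1 ≤ r →
      (hBad d c ≤ r * hGood d c ∨
        (∃ w : InfinitePlace K, hBad d c ≤ r * (w.mult * log⁺ (w c))) ∨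
        ∃ w : FinitePlace K, hBad d c ≤ r * log⁺ (w c)) →
      {x : K | IsPre d c x}.Finite ∧
        ({x : K | IsPre d c x}.ncard : ℝ) ≤ C * r * log (1 + r) := by
  obtain ⟨C, hC, h⟩ := main_finset.{u} d hd D
  refine ⟨C, hC, ?_⟩
  intro K _ _ c r hD hr hcase
  have hS := h K c r hD hr hcase
  have hfin : {x : K | IsPre d c x}.Finite := by
    by_contra hinf
    obtain ⟨N, hN⟩ := exists_nat_gt (C * r * log (1 + r))
    obtain ⟨t, ht, hcard⟩ := Set.Infinite.exists_subset_card_eq hinf N
    have h1 := hS t (fun x hx => ht hx)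
    rw [hcard] at h1
    linarith
  refine ⟨hfin, ?_⟩
  rw [Set.ncard_eq_toFinset_card _ hfin]
  exact hS _ (fun x hx => (Set.Finite.mem_toFinset hfin).1 hx)

open Classical in
/-- the height carried by the infinite places and the places above `d` -/
noncomputable def hRest (d : ℕ) {K : Type u} [Field K] [NumberField K] (W : Finset (FinitePlace K))
    (c : K) : ℝ :=
  ∑ v : InfinitePlace K, (v.mult : ℝ) * log⁺ (v c) +
    ∑ v ∈ W, if Ideal.absNorm v.maximalIdeal.asIdeal ≡ 1 [MOD d] then 0 else log⁺ (v c)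

theorem hBad_eq {K : Type u} [Field K] [NumberField K] (d : ℕ) (c : K)
    (W : Finset (FinitePlace K)) (hW : ∀ v : FinitePlace K, v ∈ W ↔ v (d : K) < 1) :
    hBad d c = heightOne d c + hRest d W c := by
  classical
  unfold hBad heightOne hRest
  have hfin := posLog_finite c
  set F := hfin.toFinset ∪ W with hF
  have hFmem : ∀ v : FinitePlace K, log⁺ (v c) ≠ 0 → v ∈ F := fun v hv =>
    Finset.mem_union_left _ ((Set.Finite.mem_toFinset _).2 hv)
  have e1 : (∑ᶠ v : FinitePlace K, if Bad d v then log⁺ (v c) else 0) =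
      ∑ v ∈ F, if Bad d v then log⁺ (v c) else 0 := by
    refine finsum_eq_sum_of_support_subset _ ?_
    intro v hv
    refine hFmem v fun h => hv ?_
    simp only [h, ite_self]
  have e2 : (∑ᶠ v : FinitePlace K,
      if Ideal.absNorm v.maximalIdeal.asIdeal ≡ 1 [MOD d] then log⁺ (v c) else 0) =
      ∑ v ∈ F, if Ideal.absNorm v.maximalIdeal.asIdeal ≡ 1 [MOD d] then log⁺ (v c) else 0 := by
    refine finsum_eq_sum_of_support_subset _ ?_
    intro v hv
    refine hFmem v fun h => hv ?_
    simp only [h, ite_self]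
  have e3 : (∑ v ∈ W, if Ideal.absNorm v.maximalIdeal.asIdeal ≡ 1 [MOD d] then 0
      else log⁺ (v c)) = ∑ v ∈ F, if v (d : K) < 1 then
        (if Ideal.absNorm v.maximalIdeal.asIdeal ≡ 1 [MOD d] then 0 else log⁺ (v c)) else 0 := by
    rw [← Finset.sum_filter]
    refine Finset.sum_congr ?_ fun _ _ => rfl
    ext v
    rw [Finset.mem_filter]
    constructor
    · intro h
      exact ⟨Finset.mem_union_right _ h, (hW v).1 h⟩
    · intro h
      exact (hW v).2 h.2
  rw [e1, e2, e3, add_left_comm, ← Finset.sum_add_distrib]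
  congr 1
  refine Finset.sum_congr rfl fun v _ => ?_
  unfold Bad
  by_cases h1 : v (d : K) < 1 <;>
    by_cases h2 : Ideal.absNorm v.maximalIdeal.asIdeal ≡ 1 [MOD d] <;> simp [h1, h2]

theorem logHeight_eq {K : Type u} [Field K] [NumberField K] (d : ℕ) (c : K) :
    Height.logHeight₁ c = hBad d c + hGood d c := by
  classical
  rw [NumberField.logHeight₁_eq]
  unfold hBad hGood
  rw [add_assoc, ← finsum_add_distrib]
  · congr 1
    refine finsum_congr fun v => ?_
    by_cases h : Bad d v <;> simp [h]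
  · refine (posLog_finite c).subset ?_
    intro v hv h0
    apply hv
    simp only [h0, ite_self]
  · refine (posLog_finite c).subset ?_
    intro v hv h0
    apply hv
    simp only [h0, ite_self]

theorem hRest_nonneg {K : Type u} [Field K] [NumberField K] (d : ℕ) (W : Finset (FinitePlace K))
    (c : K) : 0 ≤ hRest d W c := by
  unfold hRest
  refine add_nonneg (Finset.sum_nonneg fun v _ => ?_) (Finset.sum_nonneg fun v _ => ?_)
  · have := posLog_nonneg (x := v c)
    positivity
  · split_ifs
    · exact le_rfl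
    · exact posLog_nonneg

theorem heightOne_nonneg {K : Type u} [Field K] [NumberField K] (d : ℕ) (c : K) :
    0 ≤ heightOne d c := by
  refine finsum_nonneg fun v => ?_
  split_ifs
  · exact posLog_nonneg
  · exact le_rfl

/-- pigeonhole for the few infinite and wild places -/
theorem pigeon {K : Type u} [Field K] [NumberField K] (d : ℕ) (W : Finset (FinitePlace K))
    (c : K) {M : ℝ} (hM : (Fintype.card (InfinitePlace K) : ℝ) + W.card ≤ M)
    (hpos : 0 < hRest d W c) :
    (∃ w : InfinitePlace K, hRest d W c ≤ M * (w.mult * log⁺ (w c))) ∨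
      ∃ w : FinitePlace K, hRest d W c ≤ M * log⁺ (w c) := by
  classical
  by_contra hcon
  push Not at hcon
  obtain ⟨h1, h2⟩ := hcon
  set U := hRest d W c with hU
  have hM0 : 0 ≤ M := le_trans (by positivity) hM
  have e1 : ∑ v : InfinitePlace K, M * ((v.mult : ℝ) * log⁺ (v c)) <
      ∑ _v : InfinitePlace K, U := by
    refine Finset.sum_lt_sum_of_nonempty ?_ fun v _ => h1 v
    exact Finset.univ_nonempty
  have e2 : ∑ v ∈ W, M * (if Ideal.absNorm v.maximalIdeal.asIdeal ≡ 1 [MOD d] then 0
      else log⁺ (v c)) ≤ ∑ _v ∈ W, U := by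
    refine Finset.sum_le_sum fun v _ => ?_
    split_ifs
    · rw [mul_zero]
      exact hpos.le
    · exact (h2 v).le
  rw [Finset.sum_const, nsmul_eq_mul, ← Finset.mul_sum] at e1 e2
  rw [Finset.card_univ] at e1
  have e3 : M * U < (Fintype.card (InfinitePlace K) + W.card) * U := by
    calc M * U = M * (∑ v : InfinitePlace K, (v.mult : ℝ) * log⁺ (v c)) +
          M * (∑ v ∈ W, if Ideal.absNorm v.maximalIdeal.asIdeal ≡ 1 [MOD d] then 0
            else log⁺ (v c)) := by
          rw [hU, hRest, mul_add]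
      _ < _ := by
          rw [add_mul]
          exact add_lt_add_of_lt_of_le e1 e2
  have e4 := mul_le_mul_of_nonneg_right hM hpos.le
  linarith

theorem card_inf_le {K : Type u} [Field K] [NumberField K] {D : ℕ}
    (hD : Module.finrank ℚ K ≤ D) : Fintype.card (InfinitePlace K) ≤ D := by
  refine le_trans ?_ hD
  rw [← InfinitePlace.sum_mult_eq (K := K), Fintype.card_eq_sum_ones]
  exact Finset.sum_le_sum fun v _ => InfinitePlace.mult_pos

/-- the main theorem, in terms of the height at the places of norm `1` modulo `d` -/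
theorem final (d : ℕ) (hd : 2 ≤ d) (D : ℕ) : ∃ C : ℝ, 0 < C ∧
    ∀ (K : Type u) [Field K] [NumberField K] (c : K) (r : ℝ), Module.finrank ℚ K ≤ D → 1 ≤ r →
      (heightOne d c ≤ r * (Height.logHeight₁ c - heightOne d c) ∨
        (∃ v : FinitePlace K, heightOne d c ≤ r * log⁺ (v c)) ∨
        ({v : FinitePlace K | 1 < v c ∧
          Ideal.absNorm v.maximalIdeal.asIdeal ≡ 1 [MOD d]}.ncard : ℝ) ≤ r) →
      {x : K | IsPre d c x}.Finite ∧
        ({x : K | IsPre d c x}.ncard : ℝ) ≤ C * r * log (1 + r) := by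
  classical
  obtain ⟨C₀, hC₀, hmain⟩ := main_ncard.{u} d hd D
  set M : ℝ := D + D * d + 1 with hM
  have hM1 : 1 ≤ M := by
    have : (0 : ℝ) ≤ D + D * d := by positivity
    linarith
  have hl2 : 0 < log (2 : ℝ) := log_pos (by norm_num)
  have hlM : 0 ≤ log (3 * M) := log_nonneg (by linarith)
  refine ⟨C₀ * (3 * M) * (log (3 * M) / log 2 + 1), by positivity, ?_⟩
  intro K _ _ c r hD hr hcase
  obtain ⟨W, hW, hWcard⟩ := wild_finset (K := K) hD hd
  have hMW : (Fintype.card (InfinitePlace K) : ℝ) + W.card ≤ M := by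
    have h1 : (Fintype.card (InfinitePlace K) : ℝ) ≤ D := by exact_mod_cast card_inf_le hD
    have h2 : (W.card : ℝ) ≤ D * d := by exact_mod_cast hWcard
    linarith
  have hbad := hBad_eq d c W hW
  have hheight := logHeight_eq d c
  set U := hRest d W c with hU
  have hU0 : 0 ≤ U := hRest_nonneg d W c
  have hG0 : 0 ≤ hGood d c := hGood_nonneg d c
  have h10 : 0 ≤ heightOne d c := heightOne_nonneg d c
  have hdiff : Height.logHeight₁ c - heightOne d c = U + hGood d c := by
    rw [hheight, hbad]; ring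
  -- the final estimate
  have hlog : log (1 + 3 * M * r) ≤ (log (3 * M) / log 2 + 1) * log (1 + r) := by
    have e1 : 1 + 3 * M * r ≤ 3 * M * (1 + r) := by linarith
    have e2 : log (1 + 3 * M * r) ≤ log (3 * M) + log (1 + r) := by
      rw [← log_mul (by positivity) (by positivity)]
      exact log_le_log (by positivity) e1
    have e3 : log 2 ≤ log (1 + r) := log_le_log (by norm_num) (by linarith)
    have e4 : log (3 * M) ≤ log (3 * M) / log 2 * log (1 + r) := by
      rw [div_mul_eq_mul_div, le_div_iff₀ hl2]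
      exact mul_le_mul_of_nonneg_left e3 hlM
    rw [add_mul, one_mul]
    linarith
  have hfin : ∀ r' : ℝ, 1 ≤ r' → r' ≤ 3 * M * r →
      (hBad d c ≤ r' * hGood d c ∨
        (∃ w : InfinitePlace K, hBad d c ≤ r' * (w.mult * log⁺ (w c))) ∨
        ∃ w : FinitePlace K, hBad d c ≤ r' * log⁺ (w c)) →
      {x : K | IsPre d c x}.Finite ∧ ({x : K | IsPre d c x}.ncard : ℝ) ≤
        C₀ * (3 * M) * (log (3 * M) / log 2 + 1) * r * log (1 + r) := by
    intro r' hr' hle h
    obtain ⟨h1, h2⟩ := hmain K c r' hD hr' h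
    refine ⟨h1, h2.trans ?_⟩
    have e1 : log (1 + r') ≤ log (1 + 3 * M * r) := log_le_log (by linarith) (by linarith)
    have e2 : 0 ≤ log (1 + r') := log_nonneg (by linarith)
    calc C₀ * r' * log (1 + r') ≤ C₀ * (3 * M * r) * log (1 + 3 * M * r) := by
          refine mul_le_mul (mul_le_mul_of_nonneg_left hle hC₀.le) e1 e2 (by positivity)
      _ ≤ C₀ * (3 * M * r) * ((log (3 * M) / log 2 + 1) * log (1 + r)) :=
          mul_le_mul_of_nonneg_left hlog (by positivity)
      _ = _ := by ring
  -- concentration on the infinite and wild places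
  have hconc : ∀ ρ : ℝ, 1 ≤ ρ → ρ ≤ 3 * r → 0 < U → hBad d c ≤ ρ * U →
      {x : K | IsPre d c x}.Finite ∧ ({x : K | IsPre d c x}.ncard : ℝ) ≤
        C₀ * (3 * M) * (log (3 * M) / log 2 + 1) * r * log (1 + r) := by
    intro ρ hρ1 hρ hUpos h
    refine hfin (ρ * M) (by nlinarith) (by nlinarith) (Or.inr ?_)
    rcases pigeon d W c hMW hUpos with ⟨w, hw⟩ | ⟨w, hw⟩
    · left
      refine ⟨w, h.trans ?_⟩
      calc ρ * U ≤ ρ * (M * (w.mult * log⁺ (w c))) :=
            mul_le_mul_of_nonneg_left hw (by linarith)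
        _ = _ := by ring
    · right
      refine ⟨w, h.trans ?_⟩
      calc ρ * U ≤ ρ * (M * log⁺ (w c)) := mul_le_mul_of_nonneg_left hw (by linarith)
        _ = _ := by ring
  have hA : heightOne d c ≤ r * (U + hGood d c) →
      {x : K | IsPre d c x}.Finite ∧ ({x : K | IsPre d c x}.ncard : ℝ) ≤
        C₀ * (3 * M) * (log (3 * M) / log 2 + 1) * r * log (1 + r) := by
    intro h
    rcases le_or_gt U (hGood d c) with hUG | hUG
    · refine hfin (3 * r) (by linarith) (by nlinarith) (Or.inl ?_)
      rw [hbad]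
      nlinarith
    · refine hconc (3 * r) (by linarith) le_rfl (by linarith) ?_
      rw [hbad]
      nlinarith
  have hB : (∃ v : FinitePlace K, heightOne d c ≤ r * log⁺ (v c)) →
      {x : K | IsPre d c x}.Finite ∧ ({x : K | IsPre d c x}.ncard : ℝ) ≤
        C₀ * (3 * M) * (log (3 * M) / log 2 + 1) * r * log (1 + r) := by
    rintro ⟨v, h⟩
    have ht0 : 0 ≤ log⁺ (v c) := posLog_nonneg
    rcases le_or_gt U (log⁺ (v c)) with hUt | hUt
    · refine hfin (2 * r) (by linarith) (by nlinarith) (Or.inr (Or.inr ⟨v, ?_⟩))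
      rw [hbad]
      nlinarith
    · refine hconc (2 * r) (by linarith) (by linarith) (by linarith) ?_
      rw [hbad]
      nlinarith
  rcases hcase with h | h | h
  · rw [hdiff] at h
    exact hA h
  · exact hB h
  · -- few places
    have hVfin : {v : FinitePlace K | 1 < v c ∧
        Ideal.absNorm v.maximalIdeal.asIdeal ≡ 1 [MOD d]}.Finite := by
      refine (posLog_finite c).subset ?_
      rintro v ⟨hv, _⟩ h0
      rw [posLog_eq_zero_iff, abs_of_nonneg (apply_nonneg v _)] at h0
      linarith
    rw [Set.ncard_eq_toFinset_card _ hVfin] at h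
    set V := hVfin.toFinset with hV
    have hsum : heightOne d c = ∑ v ∈ V, log⁺ (v c) := by
      unfold heightOne
      rw [finsum_eq_sum_of_support_subset (s := V)]
      · refine Finset.sum_congr rfl fun v hv => ?_
        rw [hV, Set.Finite.mem_toFinset] at hv
        rw [if_pos hv.2]
      · intro v hv
        simp only [Function.mem_support, ne_eq] at hv
        rw [hV]
        refine Finset.mem_coe.2 ((Set.Finite.mem_toFinset _).2 ?_)
        by_cases h1 : Ideal.absNorm v.maximalIdeal.asIdeal ≡ 1 [MOD d]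
        · refine ⟨?_, h1⟩
          rw [if_pos h1, posLog_eq_zero_iff, abs_of_nonneg (apply_nonneg v _)] at hv
          exact not_le.1 hv
        · rw [if_neg h1] at hv
          exact absurd rfl hv
    rcases V.eq_empty_or_nonempty with hVe | hVne
    · refine hA ?_
      rw [hsum, hVe, Finset.sum_empty]
      positivity
    · obtain ⟨v, hv, hmax⟩ := Finset.exists_max_image V (fun v => log⁺ (v c)) hVne
      refine hB ⟨v, ?_⟩
      rw [hsum]
      calc ∑ v ∈ V, log⁺ (v c) ≤ ∑ _v ∈ V, log⁺ (v c) := Finset.sum_le_sum hmax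
        _ = V.card * log⁺ (v c) := by rw [Finset.sum_const, nsmul_eq_mul]
        _ ≤ r * log⁺ (v c) := mul_le_mul_of_nonneg_right h posLog_nonneg

end Pool.Agent.H951R2.MS
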