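import Mathlib
import Pool.Agent.H951R2.Genus
import Pool.Agent.H951R2.Key2

set_option autoImplicit false

namespace Pool.Agent.H951R2

open MvPolynomial Pool.Agent.Chud

/-- the forward light cone of `ℤ^{1,10}` -/
def InCone (A : ℤ) (x : Fin 10 → ℤ) : Prop := 0 ≤ A ∧ ∑ i, x i ^ 2 ≤ A ^ 2

theorem InCone.add {A B : ℤ} {x y : Fin 10 → ℤ} (h1 : InCone A x) (h2 : InCone B y) :
    InCone (A + B) (fun i => x i + y i) := by
  refine ⟨add_nonneg h1.1 h2.1, ?_⟩
  have h3 : (∑ i, x i * y i) ^ 2 ≤ (∑ i, x i ^ 2) * ∑ i, y i ^ 2 :=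
    Finset.sum_mul_sq_le_sq_mul_sq _ _ _
  have h4 : (∑ i, x i ^ 2) * ∑ i, y i ^ 2 ≤ A ^ 2 * B ^ 2 :=
    mul_le_mul h1.2 h2.2 (Finset.sum_nonneg fun i _ => sq_nonneg _) (sq_nonneg _)
  have h5 : (∑ i, x i * y i) ^ 2 ≤ (A * B) ^ 2 := by
    rw [mul_pow]; exact h3.trans h4
  have h6 : ∑ i, x i * y i ≤ A * B := abs_le_of_sq_le_sq' h5 (mul_nonneg h1.1 h2.1) |>.2
  have h7 : ∑ i, (x i + y i) ^ 2 = ∑ i, x i ^ 2 + 2 * ∑ i, x i * y i + ∑ i, y i ^ 2 := by
    rw [Finset.mul_sum, ← Finset.sum_add_distrib, ← Finset.sum_add_distrib]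
    exact Finset.sum_congr rfl fun i _ => by ring
  rw [h7]
  nlinarith [h1.2, h2.2]

variable {K : Type*} [Field K]

theorem mult_smul {F : MvPolynomial (Fin 3) K} {e : ℕ} (hF : F.IsHomogeneous e) {c : K} (hc : c ≠ 0)
    {v : Fin 3 → K} {m : ℕ} (h : Mult F (fun i => c * v i) m) : Mult F v m := by
  rw [mult_iff_mem]
  have h1 := h.subst (aeval (fun i => C c * X i : Fin 3 → MvPolynomial (Fin 3) K)).toRingHom (mI v) (by
    intro j
    change aeval (fun i => C c * X i : Fin 3 → MvPolynomial (Fin 3) K) (X j - C (c * v j)) ∈ mI v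
    rw [map_sub, aeval_X]
    have e1 : (aeval (fun i => C c * X i : Fin 3 → MvPolynomial (Fin 3) K)) (C (c * v j)) =
        (C (c * v j) : MvPolynomial (Fin 3) K) := by
      rw [← algebraMap_eq, AlgHom.commutes]
    rw [e1, mI, RingHom.mem_ker]
    simp)
  have h2 : aeval (fun i => C c * X i : Fin 3 → MvPolynomial (Fin 3) K) F = C (c ^ e) * F := by
    rw [aeval_smul hF, C_pow]
    congr 1
    exact aeval_X_left_apply (R := K) F
  change aeval (fun i => C c * X i : Fin 3 → MvPolynomial (Fin 3) K) F ∈ _ at h1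
  rw [h2] at h1
  have h3 : F = C ((c ^ e)⁻¹) * (C (c ^ e) * F) := by
    rw [← mul_assoc, ← C_mul, inv_mul_cancel₀ (pow_ne_zero _ hc), C_1, one_mul]
  rw [h3]
  exact Ideal.mul_mem_left _ _ h1

theorem mu_smul {F : MvPolynomial (Fin 3) K} {e : ℕ} (hF : F.IsHomogeneous e) (hF0 : F ≠ 0) {c : K}
    (hc : c ≠ 0) (v : Fin 3 → K) : mu (fun i => c * v i) F = mu v F := by
  apply le_antisymm
  · rw [← mult_iff_mu hF0]
    apply mult_smul hF hc
    rw [mult_iff_mu hF0]
  · rw [← mult_iff_mu hF0]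
    apply mult_smul hF (inv_ne_zero hc)
    rw [mult_iff_mu hF0]
    have : (fun i => c⁻¹ * (c * v i)) = v := by
      funext i
      field_simp
    rw [this]

theorem mu_rep {F : MvPolynomial (Fin 3) K} {e : ℕ} (hF : F.IsHomogeneous e) (hF0 : F ≠ 0)
    (v : Fin 3 → K) (hv : v ≠ 0) : mu (Projectivization.mk K v hv).rep F = mu v F := by
  obtain ⟨a, ha⟩ := Projectivization.exists_smul_eq_mk_rep K v hv
  rw [← ha]
  exact mu_smul hF hF0 a.ne_zero v

theorem th_ne_zero {a : K} (ha : a ≠ 0) : th a ≠ 0 := by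
  intro h
  exact ha (congrFun h 1)

theorem mk_th_inj {a b : K} (ha : a ≠ 0) (hb : b ≠ 0)
    (h : Projectivization.mk K (th a) (th_ne_zero ha) = Projectivization.mk K (th b) (th_ne_zero hb)) :
    a = b := by
  rw [Projectivization.mk_eq_mk_iff'] at h
  obtain ⟨c, hc⟩ := h
  have h0 : c * b ^ 2 = a ^ 2 := congrFun hc 0
  have h1 : c * b = a := congrFun hc 1
  have h2 : a * b = a * a := by
    rw [← h1] at h0 ⊢
    linear_combination h0
  exact (mul_left_cancel₀ ha h2).symm

theorem mu_unit (v : Fin 3 → K) {F : MvPolynomial (Fin 3) K} (hF : IsUnit F) : mu v F = 0 := by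
  by_contra hne
  have h1 := (mu_pos_iff v hF.ne_zero).1 (Nat.pos_of_ne_zero hne)
  have h2 := hF.map (eval v)
  rw [h1] at h2
  exact not_isUnit_zero h2

variable {a : Fin 10 → K}

/-- restriction to the nodal cubic -/
theorem restrict [Infinite K] (ha : Function.Injective a)
    {F : MvPolynomial (Fin 3) K} {e : ℕ} (hF : F.IsHomogeneous e) (hF0 : F ≠ 0)
    (hg : ¬ gam K ∣ F) : ∑ i, mu (th (a i)) F ≤ 3 * e ∧
      (∑ i, mu (th (a i)) F = 3 * e → ∏ i, (-a i) ^ mu (th (a i)) F = 1) := by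
  have hP0 : phi F ≠ 0 := fun h => hg (gam_dvd hF h)
  have h1 : ∏ i, (Polynomial.X - Polynomial.C (a i)) ^ mu (th (a i)) F ∣ phi F :=
    prod_pow_dvd ha _ fun i => phi_order ((mult_iff_mu hF0 _ _).2 le_rfl)
  have h2 : (phi F).natDegree + 0 ≤ 3 * e :=
    deg_bound (P' := psi F) hP0 (fun x hx => phi_psi hF x hx) (by rw [pow_zero]; exact one_dvd _)
  have h3 := Polynomial.natDegree_le_of_dvd h1 hP0
  rw [natDegree_prod_pow] at h3
  refine ⟨by omega, ?_⟩
  intro heq
  obtain ⟨R, hR⟩ := h1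
  have hR0 : R ≠ 0 := by
    rintro rfl
    rw [mul_zero] at hR
    exact hP0 hR
  have h4 := congrArg Polynomial.natDegree hR
  rw [Polynomial.natDegree_mul (Finset.prod_ne_zero_iff.2 fun i _ =>
    pow_ne_zero _ (Polynomial.X_sub_C_ne_zero _)) hR0, natDegree_prod_pow] at h4
  have h5 : R.natDegree = 0 := by omega
  obtain ⟨κ, hκ⟩ : ∃ κ, R = Polynomial.C κ := ⟨_, Polynomial.eq_C_of_natDegree_eq_zero h5⟩
  have hκ0 : κ ≠ 0 := by
    rintro rfl
    rw [Polynomial.C_0] at hκ
    exact hR0 hκ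
  -- value at 0 of phi F
  have h6 : (phi F).eval 0 = (∏ i, (-a i) ^ mu (th (a i)) F) * κ := by
    rw [hR, hκ, Polynomial.eval_mul, Polynomial.eval_prod, Polynomial.eval_C]
    congr 1
    apply Finset.prod_congr rfl
    intro i _
    simp
  have h7 : psi F = (∏ i, (1 - Polynomial.C (a i) * Polynomial.X) ^ mu (th (a i)) F) *
      Polynomial.C κ := by
    have h8 : Polynomial.X * psi F = Polynomial.X *
        ((∏ i, (1 - Polynomial.C (a i) * Polynomial.X) ^ mu (th (a i)) F) * Polynomial.C κ) := by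
      apply Polynomial.funext
      intro x
      by_cases hx : x = 0
      · simp [hx]
      · rw [Polynomial.eval_mul, Polynomial.eval_mul, ← psi_phi hF x hx, hR, hκ, ← heq]
        congr 1
        simp only [Polynomial.eval_mul, Polynomial.eval_prod, Polynomial.eval_C,
          Polynomial.eval_pow, Polynomial.eval_sub, Polynomial.eval_X, Polynomial.eval_one]
        rw [← mul_assoc, ← Finset.prod_pow_eq_pow_sum, ← Finset.prod_mul_distrib]
        congr 1
        apply Finset.prod_congr rfl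
        intro i _
        rw [← mul_pow]
        congr 1
        field_simp
    exact mul_left_cancel₀ Polynomial.X_ne_zero h8
  have h8 : (psi F).eval 0 = κ := by
    rw [h7, Polynomial.eval_mul, Polynomial.eval_prod, Polynomial.eval_C]
    simp
  have h9 : (phi F).eval 0 = (psi F).eval 0 := by
    rw [eval_phi, eval_psi]
    congr 1
    congr 1
    funext i
    fin_cases i <;> simp [th]
  rw [h6, h8] at h9
  exact mul_right_cancel₀ hκ0 (by rw [h9, one_mul])

/-- the genus inequality at the ten points -/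
theorem genus_ten [IsAlgClosed K] (ha0 : ∀ i, a i ≠ 0) (ha : Function.Injective a)
    {F : MvPolynomial (Fin 3) K} {e : ℕ} (hF : F.IsHomogeneous e) (hirr : Irreducible F) :
    ∑ i, (mu (th (a i)) F : ℤ) * ((mu (th (a i)) F : ℤ) - 1) ≤ ((e : ℤ) - 1) * ((e : ℤ) - 2) := by
  classical
  set p : Fin 10 → PP K 2 := fun i => Projectivization.mk K (th (a i)) (th_ne_zero (ha0 i)) with hp
  have hpi : Function.Injective p := fun i j h => ha (mk_th_inj (ha0 i) (ha0 j) h)
  have h1 := genus (W := Finset.univ.image p) hF hirr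
  rw [Finset.sum_image (fun i _ j _ h => hpi h)] at h1
  have h2 : ∀ i, mu (p i).rep F = mu (th (a i)) F := fun i =>
    mu_rep hF hirr.ne_zero (th (a i)) (th_ne_zero (ha0 i))
  simp only [h2] at h1
  have h3 : 1 ≤ e := by
    by_contra h
    have h4 : e = 0 := by omega
    rw [h4] at hF
    have h5 := (hF.totalDegree hirr.ne_zero)
    have h6 := totalDegree_eq_zero_iff_eq_C.1 h5
    apply hirr.not_isUnit
    rw [h6]
    apply IsUnit.map
    rw [isUnit_iff_ne_zero]
    intro h7
    rw [h7, C_0] at h6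
    exact hirr.ne_zero h6
  have h4 : ((∑ i, mu (th (a i)) F * (mu (th (a i)) F - 1) : ℕ) : ℤ) ≤
      (((e - 1) * (e - 2) : ℕ) : ℤ) := by exact_mod_cast h1
  have h5 : (((e - 1) * (e - 2) : ℕ) : ℤ) = ((e : ℤ) - 1) * ((e : ℤ) - 2) := by
    rcases Nat.lt_or_ge e 2 with h | h
    · have : e = 1 := by omega
      subst this
      norm_num
    · push_cast [Nat.cast_sub (show 1 ≤ e by omega), Nat.cast_sub h]
      ring
  have h6 : ((∑ i, mu (th (a i)) F * (mu (th (a i)) F - 1) : ℕ) : ℤ) =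
      ∑ i, (mu (th (a i)) F : ℤ) * ((mu (th (a i)) F : ℤ) - 1) := by
    rw [Nat.cast_sum]
    apply Finset.sum_congr rfl
    intro i _
    rcases Nat.eq_zero_or_pos (mu (th (a i)) F) with h | h
    · rw [h]; simp
    · rw [Nat.cast_mul, Nat.cast_sub h]
      push_cast
      ring
  rw [h5, h6] at h4
  exact h4

/-- anticanonical degree -/
noncomputable def kk (a : Fin 10 → K) (F : MvPolynomial (Fin 3) K) : ℤ :=
  3 * (F.totalDegree : ℤ) - ∑ i, (mu (th (a i)) F : ℤ)

theorem cone_ten [IsAlgClosed K] (ha0 : ∀ i, a i ≠ 0) (ha : Function.Injective a)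
    (hind : ∀ m : Fin 10 → ℕ, ∏ i, (-a i) ^ m i = 1 → ∀ i, m i = 0)
    (F : MvPolynomial (Fin 3) K) : F ≠ 0 → F.IsHomogeneous F.totalDegree →
      InCone ((F.totalDegree : ℤ) + 3 * kk a F) (fun i => (mu (th (a i)) F : ℤ) + kk a F) := by
  have hinf : Infinite K := IsAlgClosed.instInfinite
  induction F using WfDvdMonoid.induction_on_irreducible with
  | zero => intro h; exact absurd rfl h
  | unit u hu =>
    intro h0 hh
    have h1 : u.totalDegree = 0 := (isUnit_iff_totalDegree_of_isReduced.1 hu).2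
    have h2 : kk a u = 0 := by
      rw [kk, h1]
      simp [mu_unit _ hu]
    rw [h1, h2]
    refine ⟨by simp, ?_⟩
    simp [mu_unit _ hu]
  | mul F p hF0 hp ih =>
    intro h0 hh
    have hF : F.IsHomogeneous F.totalDegree := homog_of_dvd hh h0 (dvd_mul_left _ _)
    have hph : p.IsHomogeneous p.totalDegree := homog_of_dvd hh h0 (dvd_mul_right _ _)
    have ih' := ih hF0 hF
    have hdeg : ((p * F).totalDegree : ℤ) = p.totalDegree + F.totalDegree := by
      rw [totalDegree_mul_of_isDomain hp.ne_zero hF0]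
      push_cast; ring
    have hmu : ∀ i, (mu (th (a i)) (p * F) : ℤ) = mu (th (a i)) p + mu (th (a i)) F := by
      intro i
      rw [mu_mul _ hp.ne_zero hF0]
      push_cast; ring
    have hkk : kk a (p * F) = kk a p + kk a F := by
      rw [kk, kk, kk, hdeg, Finset.sum_congr rfl (fun i _ => hmu i), Finset.sum_add_distrib]
      ring
    have hp' : InCone ((p.totalDegree : ℤ) + 3 * kk a p) (fun i => (mu (th (a i)) p : ℤ) + kk a p) := by
      by_cases hg : gam K ∣ p
      · obtain ⟨c, hc⟩ := hg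
        have hgu : ¬ IsUnit (gam K) := by
          intro hu
          have := (isUnit_iff_totalDegree_of_isReduced.1 hu).2
          rw [(gam_homog K).totalDegree gam_ne_zero] at this
          omega
        have hcu : IsUnit c := (hp.isUnit_or_isUnit hc).resolve_left hgu
        have h1 : p.totalDegree = 3 := by
          rw [hc, totalDegree_mul_of_isDomain gam_ne_zero hcu.ne_zero,
            (gam_homog K).totalDegree gam_ne_zero, (isUnit_iff_totalDegree_of_isReduced.1 hcu).2]
        have h2 : ∀ i, mu (th (a i)) p = 1 := by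
          intro i
          rw [hc, mu_mul _ gam_ne_zero hcu.ne_zero, mu_gam (ha0 i), mu_unit _ hcu]
        have h3 : kk a p = -1 := by
          rw [kk, h1]
          simp [h2]
        rw [h1, h3]
        refine ⟨by norm_num, ?_⟩
        simp [h2]
      · obtain ⟨h1, h2⟩ := restrict (a := a) ha hph hp.ne_zero hg
        have hd1 : 1 ≤ p.totalDegree := by
          by_contra h
          apply hp.not_isUnit
          have h4 : p.totalDegree = 0 := by omega
          have h5 := totalDegree_eq_zero_iff_eq_C.1 h4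
          rw [h5]
          apply IsUnit.map
          rw [isUnit_iff_ne_zero]
          intro h7
          rw [h7, C_0] at h5
          exact hp.ne_zero h5
        have hsum : ((∑ i, mu (th (a i)) p : ℕ) : ℤ) = ∑ i, (mu (th (a i)) p : ℤ) := by
          push_cast; rfl
        have hk : 1 ≤ kk a p := by
          rw [kk, ← hsum]
          by_contra hlt
          have heq : ∑ i, mu (th (a i)) p = 3 * p.totalDegree := by omega
          have h5 := hind _ (h2 heq)
          simp only [h5, Finset.sum_const_zero] at heq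
          omega
        have hgen := genus_ten ha0 ha hph hp
        have e1 : ∑ i, (mu (th (a i)) p : ℤ) * ((mu (th (a i)) p : ℤ) - 1) =
            ∑ i, (mu (th (a i)) p : ℤ) ^ 2 - ∑ i, (mu (th (a i)) p : ℤ) := by
          rw [← Finset.sum_sub_distrib]
          exact Finset.sum_congr rfl fun i _ => by ring
        rw [e1] at hgen
        have hkd : ∑ i, (mu (th (a i)) p : ℤ) = 3 * p.totalDegree - kk a p := by
          rw [kk]; ring
        have e2 : ∑ i, ((mu (th (a i)) p : ℤ) + kk a p) ^ 2 =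
            ∑ i, (mu (th (a i)) p : ℤ) ^ 2 + 2 * kk a p * ∑ i, (mu (th (a i)) p : ℤ) +
              10 * kk a p ^ 2 := by
          rw [Finset.mul_sum]
          have : (10 : ℤ) * kk a p ^ 2 = ∑ i : Fin 10, kk a p ^ 2 := by simp
          rw [this, ← Finset.sum_add_distrib, ← Finset.sum_add_distrib]
          exact Finset.sum_congr rfl fun i _ => by ring
        refine ⟨by positivity, ?_⟩
        rw [e2, hkd]
        rw [hkd] at hgen
        nlinarith
    have h1 := hp'.add ih'
    rw [hdeg, hkk]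
    convert h1 using 1
    · ring
    · funext i
      rw [hmu]
      ring

/-- **ten points on the nodal cubic** -/
theorem ten_points [IsAlgClosed K] (ha0 : ∀ i, a i ≠ 0) (ha : Function.Injective a)
    (hind : ∀ m : Fin 10 → ℕ, ∏ i, (-a i) ^ m i = 1 → ∀ i, m i = 0)
    {F : MvPolynomial (Fin 3) K} {e : ℕ} (hF : F.IsHomogeneous e) (hF0 : F ≠ 0) (n : Fin 10 → ℤ)
    (hm : ∀ i, Mult F (th (a i)) (n i).toNat) :
    0 ≤ (e : ℤ) ^ 2 - ∑ i, n i ^ 2 + (3 * e - ∑ i, n i) ^ 2 := by
  have hdeg := hF.totalDegree hF0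
  have h1 := cone_ten ha0 ha hind F hF0 (by rw [hdeg]; exact hF)
  have hD : ∀ i, 0 ≤ (mu (th (a i)) F : ℤ) - n i := by
    intro i
    have := (mult_iff_mu hF0 _ _).1 (hm i)
    have h2 := Int.self_le_toNat (n i)
    have h3 : ((n i).toNat : ℤ) ≤ (mu (th (a i)) F : ℤ) := by exact_mod_cast this
    linarith
  set D : Fin 10 → ℤ := fun i => (mu (th (a i)) F : ℤ) - n i with hDdef
  set T := ∑ i, D i with hT
  have hT0 : 0 ≤ T := Finset.sum_nonneg fun i _ => hD i
  have h2 : ∑ i, D i ^ 2 ≤ T ^ 2 := by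
    have : ∀ i ∈ Finset.univ, D i ^ 2 ≤ D i * T := by
      intro i _
      have h3 : D i ≤ T := Finset.single_le_sum (fun j _ => hD j) (Finset.mem_univ i)
      nlinarith [hD i]
    calc ∑ i, D i ^ 2 ≤ ∑ i, D i * T := Finset.sum_le_sum this
      _ = T ^ 2 := by rw [← Finset.sum_mul, sq]
  have h3 : InCone (3 * T) (fun i => T - D i) := by
    refine ⟨by positivity, ?_⟩
    have e1 : ∑ i, (T - D i) ^ 2 = 10 * T ^ 2 - 2 * T * ∑ i, D i + ∑ i, D i ^ 2 := by
      rw [Finset.mul_sum]
      have : (10 : ℤ) * T ^ 2 = ∑ i : Fin 10, T ^ 2 := by simp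
      rw [this, ← Finset.sum_sub_distrib, ← Finset.sum_add_distrib]
      exact Finset.sum_congr rfl fun i _ => by ring
    rw [e1, ← hT]
    nlinarith
  have h4 := h1.add h3
  have hkk : kk a F + T = 3 * e - ∑ i, n i := by
    rw [kk, hT, hdeg, hDdef, Finset.sum_sub_distrib]
    ring
  have h5 := h4.2
  have e2 : ((F.totalDegree : ℤ) + 3 * kk a F + 3 * T) = e + 3 * (3 * e - ∑ i, n i) := by
    rw [← hkk, hdeg]; ring
  have e3 : ∀ i, (mu (th (a i)) F : ℤ) + kk a F + (T - D i) = n i + (3 * e - ∑ i, n i) := by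
    intro i
    rw [← hkk, hDdef]; ring
  rw [e2] at h5
  simp only [e3] at h5
  set k := 3 * (e : ℤ) - ∑ i, n i with hk
  have hn : ∑ i, n i = 3 * e - k := by rw [hk]; ring
  have e4 : ∑ i, (n i + k) ^ 2 = ∑ i, n i ^ 2 + 2 * k * ∑ i, n i + 10 * k ^ 2 := by
    rw [Finset.mul_sum]
    have : (10 : ℤ) * k ^ 2 = ∑ i : Fin 10, k ^ 2 := by simp
    rw [this, ← Finset.sum_add_distrib, ← Finset.sum_add_distrib]
    exact Finset.sum_congr rfl fun i _ => by ring
  rw [e4, hn] at h5
  nlinarith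

end Pool.Agent.H951R2
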