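import Mathlib
import Pool.Agent.H951R2.Family
import Pool.Agent.H951R2.Ten

set_option autoImplicit false

namespace Pool.Agent.H951R2

open Pool.Agent.Chud

variable {K : Type*} [Field K]

/-- the quadratic form `e² - ∑ n_i² + r c² - 2 c ∑ ν_j`, `c = 3 e - ∑ n_i` -/
def QQ (r : ℕ) (e : ℕ) (n : Fin 9 → ℤ) (ν : Fin r → ℕ) : ℤ :=
  (e : ℤ) ^ 2 - ∑ i, n i ^ 2 + r * (3 * e - ∑ i, n i) ^ 2
    - 2 * (3 * e - ∑ i, n i) * ∑ j, (ν j : ℤ)

/-- the configuration -/
def conf {A : Type*} [CommRing A] {r : ℕ} (a : Fin 9 → A) (q : Fin r → Fin 3 → A) :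
    Fin 9 ⊕ Fin r → Fin 3 → A := Sum.elim (fun i => th (a i)) q

/-- the multiplicities -/
def mlt {r : ℕ} (n : Fin 9 → ℤ) (ν : Fin r → ℕ) : Fin 9 ⊕ Fin r → ℕ :=
  Sum.elim (fun i => (n i).toNat) ν

section nine
variable {a : Fin 10 → K}

theorem nine_ten [Infinite K] (ha0 : ∀ i, a i ≠ 0) (ha : Function.Injective a)
    (F : MvPolynomial (Fin 3) K) : F ≠ 0 → F.IsHomogeneous F.totalDegree →
      ∑ i : Fin 9, mu (th (a i.castSucc)) F ≤ 3 * F.totalDegree := by
  induction F using WfDvdMonoid.induction_on_irreducible with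
  | zero => intro h; exact absurd rfl h
  | unit u hu =>
    intro h0 hh
    simp [mu_unit _ hu]
  | mul F p hF0 hp ih =>
    intro h0 hh
    have hF : F.IsHomogeneous F.totalDegree := homog_of_dvd hh h0 (dvd_mul_left _ _)
    have hph : p.IsHomogeneous p.totalDegree := homog_of_dvd hh h0 (dvd_mul_right _ _)
    have ih' := ih hF0 hF
    have hdeg : (p * F).totalDegree = p.totalDegree + F.totalDegree :=
      MvPolynomial.totalDegree_mul_of_isDomain hp.ne_zero hF0
    have hmu : ∀ i : Fin 9, mu (th (a i.castSucc)) (p * F) =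
        mu (th (a i.castSucc)) p + mu (th (a i.castSucc)) F := fun i => mu_mul _ hp.ne_zero hF0
    rw [hdeg, Finset.sum_congr rfl (fun i _ => hmu i), Finset.sum_add_distrib]
    have hp' : ∑ i : Fin 9, mu (th (a i.castSucc)) p ≤ 3 * p.totalDegree := by
      by_cases hg : gam K ∣ p
      · obtain ⟨c, hc⟩ := hg
        have hgu : ¬ IsUnit (gam K) := by
          intro hu
          have := (MvPolynomial.isUnit_iff_totalDegree_of_isReduced.1 hu).2
          rw [(gam_homog K).totalDegree gam_ne_zero] at this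
          omega
        have hcu : IsUnit c := (hp.isUnit_or_isUnit hc).resolve_left hgu
        have h1 : p.totalDegree = 3 := by
          rw [hc, MvPolynomial.totalDegree_mul_of_isDomain gam_ne_zero hcu.ne_zero,
            (gam_homog K).totalDegree gam_ne_zero,
            (MvPolynomial.isUnit_iff_totalDegree_of_isReduced.1 hcu).2]
        have h2 : ∀ i, mu (th (a i)) p = 1 := by
          intro i
          rw [hc, mu_mul _ gam_ne_zero hcu.ne_zero, mu_gam (ha0 i), mu_unit _ hcu]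
        rw [h1]
        simp [h2]
      · obtain ⟨h1, -⟩ := restrict (a := a) ha hph hp.ne_zero hg
        rw [Fin.sum_univ_castSucc] at h1
        omega
    omega

end nine

/-- the induction step: the nodal cubic divides the limit with multiplicity at least `b` -/
theorem limit_dvd [Infinite K] {a : Fin 9 → K} (ha0 : ∀ i, a i ≠ 0) (ha : Function.Injective a)
    {r e : ℕ} {n : Fin 9 → ℤ} {ν : Fin (r + 1) → ℕ} (q : Fin r → Fin 3 → K)
    (h : ∀ x : K, ¬ NonEff (conf a (Fin.snoc q ![x, x, 1])) (mlt n ν) e) (b : ℕ)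
    (hb : ∀ b' < b, (3 * e + 2 * b' : ℤ) < ∑ i, n i + 2 * (ν (Fin.last r) : ℤ)) :
    ∃ F : MvPolynomial (Fin 3) K, F ≠ 0 ∧ F.IsHomogeneous e ∧
      (∀ i, Mult F (th (a i)) (n i).toNat) ∧ (∀ j : Fin r, Mult F (q j) (ν j.castSucc)) ∧
      gam K ^ b ∣ F := by
  set v : Fin 9 ⊕ Fin (r + 1) → Fin 3 → Polynomial K :=
    Sum.elim (fun i j => Polynomial.C (th (a i) j))
      (Fin.snoc (fun j i => Polynomial.C (q j i)) ![Polynomial.X, Polynomial.X, 1]) with hv
  have hev : ∀ x : K, (fun i j => (v i j).eval x) = conf a (Fin.snoc q ![x, x, 1]) := by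
    intro x
    funext i j
    rcases i with i | i
    · simp [hv, conf]
    · simp only [hv, conf, Sum.elim_inr]
      refine Fin.lastCases ?_ (fun i => ?_) i
      · rw [Fin.snoc_last, Fin.snoc_last]
        fin_cases j <;> simp
      · rw [Fin.snoc_castSucc, Fin.snoc_castSucc, Polynomial.eval_C]
  obtain ⟨F, hFh, hFm, hF0⟩ := exists_family v (mlt n ν) e (fun x => by
    have := h x
    rw [← hev x] at this
    exact this)
  have hhom := fun l => EE_homog hFh l
  have hm1 : ∀ l i, Mult ((EE F).coeff l) (th (a i)) (n i).toNat := fun l i =>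
    EE_mult (hFm (Sum.inl i)) l
  have hm2 : ∀ l (j : Fin r), Mult ((EE F).coeff l) (q j) (ν j.castSucc) := by
    intro l j
    have h1 := hFm (Sum.inr j.castSucc)
    have h2 : v (Sum.inr j.castSucc) = fun i => Polynomial.C (q j i) := by
      simp only [hv, Sum.elim_inr]
      rw [Fin.snoc_castSucc]
    rw [h2] at h1
    exact EE_mult h1 l
  have hq : QM (ν (Fin.last r)) (EE F) := by
    apply EE_QM
    have h1 := hFm (Sum.inr (Fin.last r))
    have h2 : v (Sum.inr (Fin.last r)) = ![Polynomial.X, Polynomial.X, 1] := by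
      simp only [hv, Sum.elim_inr]
      rw [Fin.snoc_last]
    rw [h2] at h1
    exact h1
  refine ⟨(EE F).coeff 0, ?_, hhom 0, hm1 0, hm2 0, ?_⟩
  · rw [EE_zero]; exact hF0
  · rcases Nat.eq_zero_or_pos b with h0 | h0
    · rw [h0, pow_zero]; exact one_dvd _
    · have := key ha0 ha hhom hm1 hq b hb 0 h0
      rwa [Nat.sub_zero] at this

theorem mu_gam_pow {a : K} (ha : a ≠ 0) (m : ℕ) : mu (th a) (gam K ^ m) = m := by
  induction m with
  | zero => rw [pow_zero]; exact mu_unit _ isUnit_one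
  | succ m ihm =>
    rw [pow_succ, mu_mul _ (pow_ne_zero _ gam_ne_zero) gam_ne_zero, ihm, mu_gam ha]

theorem mu_gam_pow' {v : Fin 3 → K} (hv : MvPolynomial.eval v (gam K) ≠ 0) (m : ℕ) :
    mu v (gam K ^ m) = 0 := by
  by_contra hne
  have h1 := (mu_pos_iff v (pow_ne_zero m gam_ne_zero)).1 (Nat.pos_of_ne_zero hne)
  rw [map_pow] at h1
  exact hv (eq_zero_of_pow_eq_zero h1)

/-- generic choice of the points -/
theorem choose_points [Infinite K] {a : Fin 9 → K} {r e : ℕ} {m : Fin 9 ⊕ Fin r → ℕ}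
    (h : ∃ q : Fin r → Fin 3 → K, NonEff (conf a q) m e) :
    ∃ q : Fin r → Fin 3 → K, NonEff (conf a q) m e ∧ ∀ j, MvPolynomial.eval (q j) (gam K) ≠ 0 := by
  obtain ⟨q0, hq0⟩ := h
  let ev : (Fin r → Fin 3 → K) → (MvPolynomial (Fin r × Fin 3) K →ₐ[K] K) :=
    fun q => MvPolynomial.aeval (fun x => q x.1 x.2)
  let v : Fin 9 ⊕ Fin r → Fin 3 → MvPolynomial (Fin r × Fin 3) K :=
    Sum.elim (fun i j => MvPolynomial.C (th (a i) j)) (fun j i => MvPolynomial.X (j, i))
  have hev : ∀ q, (fun i j => ev q (v i j)) = conf a q := by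
    intro q
    funext i j
    rcases i with i | i
    · simp only [v, Sum.elim_inl, conf, ev]
      rw [← MvPolynomial.algebraMap_eq, AlgHom.commutes]
      rfl
    · simp only [v, Sum.elim_inr, conf, ev, MvPolynomial.aeval_X]
  obtain ⟨f, hf0, hf⟩ := nonEff_open v m e (ev q0) (by rw [hev]; exact hq0)
  have hfne : f ≠ 0 := by
    intro h0
    rw [h0, map_zero] at hf0
    exact hf0 rfl
  let g : Fin r → MvPolynomial (Fin r × Fin 3) K := fun j =>
    MvPolynomial.aeval (fun i => (MvPolynomial.X (j, i) : MvPolynomial (Fin r × Fin 3) K)) (gam K)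
  have hg : ∀ q j, ev q (g j) = MvPolynomial.eval (q j) (gam K) := by
    intro q j
    simp only [g, ev, gam, map_sub, map_mul, map_pow, MvPolynomial.aeval_X, MvPolynomial.eval_X]
  have hgne : ∀ j, g j ≠ 0 := by
    intro j h0
    have h1 := hg (fun _ => ![0, 1, 0]) j
    rw [h0, map_zero, eval_gam] at h1
    simp at h1
  have hprod : f * ∏ j, g j ≠ 0 := mul_ne_zero hfne (Finset.prod_ne_zero_iff.2 fun j _ => hgne j)
  obtain ⟨x, hx⟩ : ∃ x : Fin r × Fin 3 → K, MvPolynomial.eval x (f * ∏ j, g j) ≠ 0 := by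
    by_contra hcon
    push Not at hcon
    exact hprod (MvPolynomial.funext fun x => by rw [hcon x, map_zero])
  set q : Fin r → Fin 3 → K := fun j i => x (j, i) with hq
  have hevx : ∀ F : MvPolynomial (Fin r × Fin 3) K, ev q F = MvPolynomial.eval x F := by
    intro F
    simp only [ev]
    rw [MvPolynomial.aeval_def, Algebra.algebraMap_self, MvPolynomial.eval₂_eq_eval_map,
      MvPolynomial.map_id]
  rw [map_mul, map_prod] at hx
  refine ⟨q, ?_, ?_⟩
  · have h1 := hf (ev q) (by rw [hevx]; exact left_ne_zero_of_mul hx)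
    rw [hev] at h1
    exact h1
  · intro j
    rw [← hg, hevx]
    exact Finset.prod_ne_zero_iff.1 (right_ne_zero_of_mul hx) j (Finset.mem_univ j)

theorem main_induction [IsAlgClosed K] {a : Fin 10 → K} (ha0 : ∀ i, a i ≠ 0)
    (ha : Function.Injective a) (hind : ∀ m : Fin 10 → ℕ, ∏ i, (-a i) ^ m i = 1 → ∀ i, m i = 0)
    (r : ℕ) : ∀ (e : ℕ) (n : Fin 9 → ℤ) (ν : Fin (r + 1) → ℕ), QQ (r + 1) e n ν < 0 →
      ∃ q : Fin (r + 1) → Fin 3 → K, NonEff (conf (fun i => a i.castSucc) q) (mlt n ν) e := by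
  have hinf : Infinite K := IsAlgClosed.instInfinite
  have ha9 : Function.Injective (fun i : Fin 9 => a i.castSucc) := fun i j h =>
    Fin.castSucc_injective 9 (ha h)
  have ha90 : ∀ i : Fin 9, a i.castSucc ≠ 0 := fun i => ha0 _
  -- negative `c`
  have hneg : ∀ (s e : ℕ) (n : Fin 9 → ℤ) (ν : Fin s → ℕ) (q : Fin s → Fin 3 → K),
      3 * (e : ℤ) - ∑ i, n i < 0 → NonEff (conf (fun i => a i.castSucc) q) (mlt n ν) e := by
    intro s e n ν q hc F hF hm
    by_contra hF0
    have hdeg := hF.totalDegree hF0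
    have h1 := nine_ten ha0 ha F hF0 (by rw [hdeg]; exact hF)
    have h2 : ∀ i : Fin 9, n i ≤ (mu (th (a i.castSucc)) F : ℤ) := by
      intro i
      have h3 := (mult_iff_mu hF0 _ _).1 (hm (Sum.inl i))
      have h4 := Int.self_le_toNat (n i)
      have h5 : ((n i).toNat : ℤ) ≤ (mu (th (a i.castSucc)) F : ℤ) := by exact_mod_cast h3
      linarith
    have h3 : ∑ i, n i ≤ ∑ i : Fin 9, (mu (th (a i.castSucc)) F : ℤ) :=
      Finset.sum_le_sum fun i _ => h2 i
    have h4 : ((∑ i : Fin 9, mu (th (a i.castSucc)) F : ℕ) : ℤ) ≤ ((3 * F.totalDegree : ℕ) : ℤ) := by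
      exact_mod_cast h1
    push_cast at h4
    rw [hdeg] at h4
    linarith
  induction r with
  | zero =>
    intro e n ν hQ
    refine ⟨fun _ => th (a (Fin.last 9)), ?_⟩
    intro F hF hm
    by_contra hF0
    set n' : Fin 10 → ℤ := Fin.snoc (α := fun _ => ℤ) n (ν 0 : ℤ) with hn'
    have h1 := ten_points ha0 ha hind hF hF0 n' (by
      intro i
      refine Fin.lastCases ?_ (fun i => ?_) i
      · have h2 := hm (Sum.inr 0)
        rw [hn', Fin.snoc_last, Int.toNat_natCast]
        exact h2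
      · have h2 := hm (Sum.inl i)
        rw [hn', Fin.snoc_castSucc]
        exact h2)
    have s1 : ∑ i, n' i ^ 2 = ∑ i, n i ^ 2 + (ν 0 : ℤ) ^ 2 := by
      rw [Fin.sum_univ_castSucc]
      simp only [hn', Fin.snoc_castSucc, Fin.snoc_last]
    have s2 : ∑ i, n' i = ∑ i, n i + (ν 0 : ℤ) := by
      rw [Fin.sum_univ_castSucc]
      simp only [hn', Fin.snoc_castSucc, Fin.snoc_last]
    rw [s1, s2] at h1
    rw [QQ, Fin.sum_univ_one] at hQ
    push_cast at hQ
    nlinarith
  | succ r ih =>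
    intro e n ν hQ
    set c : ℤ := 3 * (e : ℤ) - ∑ i, n i with hc
    by_cases hc0 : c < 0
    · exact ⟨fun _ => 0, hneg _ e n ν _ hc0⟩
    push Not at hc0
    set ν1 : ℕ := ν (Fin.last (r + 1)) with hν1
    set b : ℕ := ((2 * (ν1 : ℤ) - c + 1) / 2).toNat with hb
    have hb1 : ∀ b' < b, (3 * e + 2 * b' : ℤ) < ∑ i, n i + 2 * (ν1 : ℤ) := by
      intro b' hb'
      have : 2 * (b' : ℤ) < 2 * ν1 - c := by omega
      linarith
    have hb2 : 2 * (ν1 : ℤ) - c ≤ 2 * b := by omega
    -- the points `q`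
    obtain ⟨q, hq1, hq2⟩ : ∃ q : Fin (r + 1) → Fin 3 → K,
        (3 * b ≤ e → NonEff (conf (fun i => a i.castSucc) q)
          (mlt (fun i => n i - b) (fun j : Fin (r + 1) => ν j.castSucc)) (e - 3 * b)) ∧
        ∀ j, MvPolynomial.eval (q j) (gam K) ≠ 0 := by
      by_cases h3b : 3 * b ≤ e
      · have h1 : QQ (r + 1) (e - 3 * b) (fun i => n i - b) (fun j : Fin (r + 1) => ν j.castSucc)
            < 0 := by
          have e1 : ∑ i : Fin 9, (n i - (b : ℤ)) = ∑ i, n i - 9 * b := by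
            rw [Finset.sum_sub_distrib]; simp
          have e2 : ∑ i : Fin 9, (n i - (b : ℤ)) ^ 2 = ∑ i, n i ^ 2 - 2 * b * ∑ i, n i + 9 * b ^ 2 := by
            rw [Finset.mul_sum]
            have : (9 : ℤ) * (b : ℤ) ^ 2 = ∑ i : Fin 9, (b : ℤ) ^ 2 := by simp
            rw [this, ← Finset.sum_sub_distrib, ← Finset.sum_add_distrib]
            exact Finset.sum_congr rfl fun i _ => by ring
          have e3 : ((e - 3 * b : ℕ) : ℤ) = e - 3 * b := by
            rw [Nat.cast_sub h3b]; push_cast; ring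
          rw [QQ] at hQ ⊢
          rw [e1, e2, e3]
          rw [Fin.sum_univ_castSucc (n := r + 1)] at hQ
          have e4 : ∑ i, n i = 3 * e - c := by rw [hc]; ring
          rw [e4] at hQ ⊢
          push_cast at hQ ⊢
          have h5 : 0 ≤ c * (c - 2 * ν1 + 2 * b) := mul_nonneg hc0 (by linarith)
          rw [← hν1] at hQ
          nlinarith
        obtain ⟨q, hq1, hq2⟩ := choose_points (ih _ _ _ h1)
        exact ⟨q, fun _ => hq1, hq2⟩
      · refine ⟨fun _ => ![0, 1, 0], fun h => absurd h h3b, ?_⟩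
        intro j
        rw [eval_gam]
        simp
    by_contra hcon
    push Not at hcon
    obtain ⟨F, hF0, hFh, hFm1, hFm2, hdvd⟩ := limit_dvd ha90 ha9 q
      (fun x => hcon (Fin.snoc q ![x, x, 1])) b hb1
    obtain ⟨F', hF'⟩ := hdvd
    have hF'0 : F' ≠ 0 := by
      rintro rfl
      rw [mul_zero] at hF'
      exact hF0 hF'
    have hg0 : (gam K ^ b) ≠ 0 := pow_ne_zero _ gam_ne_zero
    have hdeg := hFh.totalDegree hF0
    rw [hF', MvPolynomial.totalDegree_mul_of_isDomain hg0 hF'0,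
      ((gam_homog K).pow b).totalDegree hg0] at hdeg
    have h3b : 3 * b ≤ e := by omega
    have hF'h : F'.IsHomogeneous (e - 3 * b) := by
      have h1 := homog_of_dvd hFh hF0 (G := F') (by rw [hF']; exact dvd_mul_left _ _)
      have h2 : F'.totalDegree = e - 3 * b := by omega
      rwa [h2] at h1
    apply hF'0
    apply hq1 h3b F' hF'h
    intro i
    rcases i with i | j
    · have h1 := (mult_iff_mu hF0 _ _).1 (hFm1 i)
      rw [hF', mu_mul _ hg0 hF'0, mu_gam_pow (ha90 i)] at h1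
      change Mult F' (th (a i.castSucc)) (n i - (b : ℤ)).toNat
      rw [mult_iff_mu hF'0]
      omega
    · have h1 := (mult_iff_mu hF0 _ _).1 (hFm2 j)
      rw [hF', mu_mul _ hg0 hF'0, mu_gam_pow' (hq2 j), zero_add] at h1
      change Mult F' (q j) (ν j.castSucc)
      rw [mult_iff_mu hF'0]
      exact h1

end Pool.Agent.H951R2
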