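import Mathlib
import Pool.Agent.H951R2.Main

set_option autoImplicit false

namespace Pool.Agent.H951R2

open MvPolynomial Pool.Agent.Chud

variable {K : Type*} [Field K]

/-- from the affine chart to homogeneous coordinates -/
theorem chart_rev {F : MvPolynomial (Fin 3) K} {e m : ℕ} (hF : F.IsHomogeneous e) (p : Fin 2 → K)
    (h : aeval ![(X 0 : MvPolynomial (Fin 2) K) + C (p 0), (X 1 : MvPolynomial (Fin 2) K) + C (p 1),
      (1 : MvPolynomial (Fin 2) K)] F ∈ idealOfVars (Fin 2) K ^ m) :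
    Mult F ![p 0, p 1, 1] m := by
  rcases Nat.eq_zero_or_pos m with hm | hm
  · rw [hm]; exact Mult.zero _ _
  rw [mult_iff_mem]
  set v : Fin 3 → K := ![p 0, p 1, 1] with hv
  set z : MvPolynomial (Fin 3) K := X 2 - 1 with hz
  have hzv : z ∈ mI v := by
    rw [mI, RingHom.mem_ker, hz, map_sub, eval_X, map_one]
    simp [hv]
  set u : MvPolynomial (Fin 3) K := ∑ i ∈ Finset.range m, (-z) ^ i with hu
  have hu1 : u * X 2 = 1 - (-z) ^ m := by
    have h1 := mul_neg_geom_sum (-z) m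
    rw [← h1, hu, hz]
    ring
  have hu2 : u * X 2 - 1 ∈ mI v ^ m := by
    rw [hu1]
    have : (1 : MvPolynomial (Fin 3) K) - (-z) ^ m - 1 = -((-z) ^ m) := by ring
    rw [this]
    exact neg_mem (Ideal.pow_mem_pow (neg_mem hzv) m)
  have hle : mI v ^ m ≤ mI v := Ideal.pow_le_self (by omega)
  have huv : eval v u = 1 := by
    have h1 := hle hu2
    rw [mI, RingHom.mem_ker, map_sub, map_mul, eval_X, map_one] at h1
    have h2 : v 2 = 1 := rfl
    rw [h2, mul_one] at h1
    exact sub_eq_zero.1 h1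
  set φ : MvPolynomial (Fin 3) K →ₐ[K] MvPolynomial (Fin 2) K :=
    aeval ![(X 0 : MvPolynomial (Fin 2) K) + C (p 0), (X 1 : MvPolynomial (Fin 2) K) + C (p 1),
      (1 : MvPolynomial (Fin 2) K)] with hφ
  set ψ : MvPolynomial (Fin 2) K →ₐ[K] MvPolynomial (Fin 3) K :=
    aeval ![u * X 0 - C (p 0), u * X 1 - C (p 1)] with hψ
  have h1 : ψ (φ F) ∈ mI v ^ m := by
    have h2 : idealOfVars (Fin 2) K ≤ (mI v).comap ψ.toRingHom := by
      rw [idealOfVars, Ideal.span_le]
      rintro _ ⟨j, rfl⟩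
      change ψ (X j) ∈ mI v
      rw [hψ, aeval_X, mI, RingHom.mem_ker]
      fin_cases j
      · change eval v (u * X 0 - C (p 0)) = 0
        rw [map_sub, map_mul, huv, eval_X, eval_C, one_mul]
        exact sub_self _
      · change eval v (u * X 1 - C (p 1)) = 0
        rw [map_sub, map_mul, huv, eval_X, eval_C, one_mul]
        exact sub_self _
    have h3 := (Ideal.pow_right_mono h2 m).trans (Ideal.le_comap_pow ψ.toRingHom m)
    exact h3 h
  have hψC : ∀ c : K, ψ (C c) = C c := fun c => by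
    rw [← algebraMap_eq, AlgHom.commutes, algebraMap_eq]
  have hψ0 : ψ (X 0) = u * X 0 - C (p 0) := by
    rw [hψ, aeval_X]; rfl
  have hψ1 : ψ (X 1) = u * X 1 - C (p 1) := by
    rw [hψ, aeval_X]; rfl
  have h2 : ψ (φ F) = aeval ![u * X 0, u * X 1, (1 : MvPolynomial (Fin 3) K)] F := by
    have : ψ.comp φ = aeval ![u * X 0, u * X 1, (1 : MvPolynomial (Fin 3) K)] := by
      apply MvPolynomial.algHom_ext
      intro i
      rw [AlgHom.comp_apply, hφ, aeval_X, aeval_X]
      fin_cases i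
      · change ψ (X 0 + C (p 0)) = u * X 0
        rw [map_add, hψ0, hψC]
        ring
      · change ψ (X 1 + C (p 1)) = u * X 1
        rw [map_add, hψ1, hψC]
        ring
      · change ψ 1 = 1
        rw [map_one]
    exact DFunLike.congr_fun this F
  have h3 : aeval (fun i => u * X i) F - aeval ![u * X 0, u * X 1, (1 : MvPolynomial (Fin 3) K)] F
      ∈ mI v ^ m := by
    rw [← Ideal.Quotient.eq]
    have h4 : (Ideal.Quotient.mk (mI v ^ m)).comp (aeval (R := K) (fun i => u * X i)).toRingHom =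
        (Ideal.Quotient.mk (mI v ^ m)).comp
          (aeval (R := K) ![u * X 0, u * X 1, (1 : MvPolynomial (Fin 3) K)]).toRingHom := by
      apply MvPolynomial.ringHom_ext
      · intro a
        change Ideal.Quotient.mk (mI v ^ m) (aeval (fun i => u * X i) (C a)) =
          Ideal.Quotient.mk (mI v ^ m) (aeval ![u * X 0, u * X 1, (1 : MvPolynomial (Fin 3) K)] (C a))
        rw [← algebraMap_eq, AlgHom.commutes, AlgHom.commutes]
      · intro i
        change Ideal.Quotient.mk (mI v ^ m) (aeval (fun i => u * X i) (X i)) =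
          Ideal.Quotient.mk (mI v ^ m) (aeval ![u * X 0, u * X 1, (1 : MvPolynomial (Fin 3) K)] (X i))
        rw [aeval_X, aeval_X, Ideal.Quotient.eq]
        fin_cases i
        · change u * X 0 - u * X 0 ∈ mI v ^ m
          rw [sub_self]; exact zero_mem _
        · change u * X 1 - u * X 1 ∈ mI v ^ m
          rw [sub_self]; exact zero_mem _
        · change u * X 2 - 1 ∈ mI v ^ m
          exact hu2
    exact DFunLike.congr_fun h4 F
  have h4 : aeval (fun i => u * X i) F = u ^ e * F := by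
    rw [aeval_smul hF]
    congr 1
    exact aeval_X_left_apply (R := K) F
  have h5 : u ^ e * F ∈ mI v ^ m := by
    rw [h4, ← h2] at h3
    have := add_mem h3 h1
    rwa [sub_add_cancel] at this
  have h6 : (u * X 2) ^ e * F ∈ mI v ^ m := by
    rw [mul_pow, mul_comm (u ^ e), mul_assoc]
    exact Ideal.mul_mem_left _ _ h5
  have h7 : (u * X 2) ^ e - 1 ∈ mI v ^ m := by
    have h8 := sub_dvd_pow_sub_pow (u * X 2) (1 : MvPolynomial (Fin 3) K) e
    rw [one_pow] at h8
    obtain ⟨w, hw⟩ := h8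
    rw [hw]
    exact Ideal.mul_mem_right _ _ hu2
  have h8 : F = (u * X 2) ^ e * F - ((u * X 2) ^ e - 1) * F := by ring
  rw [h8]
  exact sub_mem h6 (Ideal.mul_mem_right _ _ h7)

section transfer
variable {ι κ : Type}

theorem NonEff.equiv (σ : κ ≃ ι) {v : ι → Fin 3 → K} {m : ι → ℕ} {e : ℕ} (h : NonEff v m e) :
    NonEff (fun i => v (σ i)) (fun i => m (σ i)) e := by
  intro F hF hm
  apply h F hF
  intro i
  have := hm (σ.symm i)
  simpa using this

theorem nonEff_equiv_iff (σ : κ ≃ ι) {v : ι → Fin 3 → K} {m : ι → ℕ} {e : ℕ} :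
    NonEff (fun i => v (σ i)) (fun i => m (σ i)) e ↔ NonEff v m e := by
  constructor
  · intro h
    have := h.equiv σ.symm
    simpa using this
  · intro h
    exact h.equiv σ

theorem eval_poly_ne [Infinite K] {σ : Type*} {f : MvPolynomial σ K} (hf : f ≠ 0) :
    ∃ x, eval x f ≠ 0 := by
  by_contra hcon
  push Not at hcon
  exact hf (MvPolynomial.funext fun x => by rw [hcon x, map_zero])

variable [Fintype ι] [DecidableEq ι]

/-- openness, all points variable -/
theorem open_vec {v0 : ι → Fin 3 → K} {m : ι → ℕ} {e : ℕ} (h : NonEff v0 m e) :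
    ∃ f : MvPolynomial (ι × Fin 3) K, f ≠ 0 ∧ ∀ v : ι → Fin 3 → K,
      eval (fun q => v q.1 q.2) f ≠ 0 → NonEff v m e := by
  let ev : (ι → Fin 3 → K) → (MvPolynomial (ι × Fin 3) K →ₐ[K] K) :=
    fun q => aeval (fun x => q x.1 x.2)
  let v : ι → Fin 3 → MvPolynomial (ι × Fin 3) K := fun j i => X (j, i)
  have hev : ∀ q, (fun i j => ev q (v i j)) = q := by
    intro q
    funext i j
    simp only [v, ev, aeval_X]
  obtain ⟨f, hf0, hf⟩ := nonEff_open v m e (ev v0) (by rw [hev]; exact h)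
  refine ⟨f, ?_, ?_⟩
  · intro h0
    rw [h0, map_zero] at hf0
    exact hf0 rfl
  · intro q hq
    have h1 : ev q f = eval (fun x => q x.1 x.2) f := by
      simp only [ev]
      rw [aeval_def, Algebra.algebraMap_self, eval₂_eq_eval_map, map_id]
    have h2 := hf (ev q) (by rw [h1]; exact hq)
    rw [hev] at h2
    exact h2

omit [Fintype ι] [DecidableEq ι] in
theorem NonEff.scale {v : ι → Fin 3 → K} {m : ι → ℕ} {e : ℕ} (h : NonEff v m e) {c : ι → K}
    (hc : ∀ i, c i ≠ 0) : NonEff (fun i j => c i * v i j) m e := by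
  intro F hF hm
  exact h F hF fun i => mult_smul hF (hc i) (hm i)

/-- an affine configuration -/
theorem exists_aff [Infinite K] {v0 : ι → Fin 3 → K} {m : ι → ℕ} {e : ℕ} (h : NonEff v0 m e) :
    ∃ p : ι → Fin 2 → K, NonEff (fun i => ![p i 0, p i 1, 1]) m e := by
  obtain ⟨f, hf0, hf⟩ := open_vec h
  have hprod : f * ∏ i, (X (i, 2) : MvPolynomial (ι × Fin 3) K) ≠ 0 :=
    mul_ne_zero hf0 (Finset.prod_ne_zero_iff.2 fun i _ => X_ne_zero _)
  obtain ⟨x, hx⟩ := eval_poly_ne hprod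
  rw [map_mul, map_prod] at hx
  have hx1 := left_ne_zero_of_mul hx
  have hx2 : ∀ i, x (i, 2) ≠ 0 := by
    intro i
    have := Finset.prod_ne_zero_iff.1 (right_ne_zero_of_mul hx) i (Finset.mem_univ i)
    rwa [eval_X] at this
  have h1 := (hf (fun i j => x (i, j)) hx1).scale (c := fun i => (x (i, 2))⁻¹)
    (fun i => inv_ne_zero (hx2 i))
  refine ⟨fun i j => (x (i, 2))⁻¹ * x (i, j.castSucc), ?_⟩
  have h2 : (fun i => ![(x (i, 2))⁻¹ * x (i, (0 : Fin 2).castSucc),
      (x (i, 2))⁻¹ * x (i, (1 : Fin 2).castSucc), 1]) = fun i j => (x (i, 2))⁻¹ * x (i, j) := by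
    funext i j
    fin_cases j
    · rfl
    · rfl
    · change 1 = (x (i, 2))⁻¹ * x (i, 2)
      rw [inv_mul_cancel₀ (hx2 i)]
  rw [h2]
  exact h1

/-- openness, affine points -/
theorem open_aff {p0 : ι → Fin 2 → K} {m : ι → ℕ} {e : ℕ}
    (h : NonEff (fun i => ![p0 i 0, p0 i 1, 1]) m e) :
    ∃ f : MvPolynomial (ι × Fin 2) K, f ≠ 0 ∧ ∀ p : ι → Fin 2 → K,
      eval (fun q => p q.1 q.2) f ≠ 0 → NonEff (fun i => ![p i 0, p i 1, 1]) m e := by
  let ev : (ι → Fin 2 → K) → (MvPolynomial (ι × Fin 2) K →ₐ[K] K) :=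
    fun q => aeval (fun x => q x.1 x.2)
  let v : ι → Fin 3 → MvPolynomial (ι × Fin 2) K := fun j => ![X (j, 0), X (j, 1), 1]
  have hev : ∀ q, (fun i j => ev q (v i j)) = fun i => ![q i 0, q i 1, 1] := by
    intro q
    funext i j
    fin_cases j
    · change ev q (X (i, 0)) = q i 0
      simp only [ev, aeval_X]
    · change ev q (X (i, 1)) = q i 1
      simp only [ev, aeval_X]
    · change ev q 1 = 1
      rw [map_one]
  obtain ⟨f, hf0, hf⟩ := nonEff_open v m e (ev p0) (by rw [hev]; exact h)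
  refine ⟨f, ?_, ?_⟩
  · intro h0
    rw [h0, map_zero] at hf0
    exact hf0 rfl
  · intro q hq
    have h1 : ev q f = eval (fun x => q x.1 x.2) f := by
      simp only [ev]
      rw [aeval_def, Algebra.algebraMap_self, eval₂_eq_eval_map, map_id]
    have h2 := hf (ev q) (by rw [h1]; exact hq)
    rw [hev] at h2
    exact h2

end transfer

/-- very general configurations of vectors: every class which is not effective somewhere is not
effective -/
theorem very_general_vec (n : ℕ) : ∃ G : ℕ → MvPolynomial (Fin n × Fin 3) ℂ, (∀ k, G k ≠ 0) ∧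
    ∀ v : Fin n → Fin 3 → ℂ, (∀ k, eval (fun q : Fin n × Fin 3 => v q.1 q.2) (G k) ≠ 0) →
      ∀ (e : ℕ) (m : Fin n → ℕ), (∃ v0 : Fin n → Fin 3 → ℂ, NonEff v0 m e) → NonEff v m e := by
  classical
  have hex : ∀ κ : ℕ × (Fin n → ℕ), ∃ f : MvPolynomial (Fin n × Fin 3) ℂ, f ≠ 0 ∧
      ((∃ v0 : Fin n → Fin 3 → ℂ, NonEff v0 κ.2 κ.1) → ∀ v : Fin n → Fin 3 → ℂ,
        eval (fun q : Fin n × Fin 3 => v q.1 q.2) f ≠ 0 → NonEff v κ.2 κ.1) := by
    intro κ
    by_cases h : ∃ v0 : Fin n → Fin 3 → ℂ, NonEff v0 κ.2 κ.1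
    · obtain ⟨v0, hv0⟩ := h
      obtain ⟨f, hf0, hf⟩ := open_vec hv0
      exact ⟨f, hf0, fun _ => hf⟩
    · exact ⟨1, one_ne_zero, fun h' => absurd h' h⟩
  choose f hf0 hf using hex
  obtain ⟨g, hg⟩ := exists_surjective_nat (ℕ × (Fin n → ℕ))
  refine ⟨fun k => f (g k), fun k => hf0 _, ?_⟩
  intro v hv e m h
  obtain ⟨k, hk⟩ := hg (e, m)
  have h1 := hv k
  beta_reduce at h1
  rw [hk] at h1
  exact hf (e, m) h v h1

/-- very general affine configurations -/
theorem very_general_aff (n : ℕ) : ∃ G : ℕ → MvPolynomial (Fin n × Fin 2) ℂ, (∀ k, G k ≠ 0) ∧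
    ∀ p : Fin n → Fin 2 → ℂ, (∀ k, eval (fun q : Fin n × Fin 2 => p q.1 q.2) (G k) ≠ 0) →
      ∀ (e : ℕ) (m : Fin n → ℕ), (∃ v0 : Fin n → Fin 3 → ℂ, NonEff v0 m e) →
        NonEff (fun i => ![p i 0, p i 1, 1]) m e := by
  classical
  have hex : ∀ κ : ℕ × (Fin n → ℕ), ∃ f : MvPolynomial (Fin n × Fin 2) ℂ, f ≠ 0 ∧
      ((∃ v0 : Fin n → Fin 3 → ℂ, NonEff v0 κ.2 κ.1) → ∀ p : Fin n → Fin 2 → ℂ,
        eval (fun q : Fin n × Fin 2 => p q.1 q.2) f ≠ 0 →
          NonEff (fun i => ![p i 0, p i 1, 1]) κ.2 κ.1) := by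
    intro κ
    by_cases h : ∃ v0 : Fin n → Fin 3 → ℂ, NonEff v0 κ.2 κ.1
    · obtain ⟨v0, hv0⟩ := h
      obtain ⟨p0, hp0⟩ := exists_aff hv0
      obtain ⟨f, hf0, hf⟩ := open_aff hp0
      exact ⟨f, hf0, fun _ => hf⟩
    · exact ⟨1, one_ne_zero, fun h' => absurd h' h⟩
  choose f hf0 hf using hex
  obtain ⟨g, hg⟩ := exists_surjective_nat (ℕ × (Fin n → ℕ))
  refine ⟨fun k => f (g k), fun k => hf0 _, ?_⟩
  intro v hv e m h
  obtain ⟨k, hk⟩ := hg (e, m)
  have h1 := hv k
  beta_reduce at h1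
  rw [hk] at h1
  exact hf (e, m) h v h1

end Pool.Agent.H951R2
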