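import Mathlib
import Pool.Agent.H951R2.VG

set_option autoImplicit false

namespace Pool.Agent.H951R2

open MvPolynomial Pool.Agent.Chud

theorem exists_ten_numbers : ∃ a : Fin 10 → ℂ, (∀ i, a i ≠ 0) ∧ Function.Injective a ∧
    ∀ m : Fin 10 → ℕ, ∏ i, (-a i) ^ m i = 1 → ∀ i, m i = 0 := by
  refine ⟨fun i => (((i : ℕ) + 2 : ℕ) : ℂ), ?_, ?_, ?_⟩
  · intro i
    exact Nat.cast_ne_zero.2 (by omega)
  · intro i j h
    have h1 : (i : ℕ) + 2 = (j : ℕ) + 2 := Nat.cast_injective (R := ℂ) h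
    exact Fin.ext (by omega)
  · intro m h i
    have h1 := congrArg norm h
    rw [norm_prod, norm_one] at h1
    have h2 : ∀ i : Fin 10, ‖(-(((i : ℕ) + 2 : ℕ) : ℂ)) ^ m i‖ = ((((i : ℕ) + 2) ^ m i : ℕ) : ℝ) := by
      intro i
      rw [norm_pow, norm_neg, Complex.norm_natCast]
      push_cast
      ring
    rw [Finset.prod_congr rfl (fun i _ => h2 i)] at h1
    have h3 : ∏ i : Fin 10, ((i : ℕ) + 2) ^ m i = 1 := by exact_mod_cast h1
    have h4 := (Finset.prod_eq_one_iff_of_one_le' (fun i _ => Nat.one_le_pow _ _ (by omega))).1 h3 i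
      (Finset.mem_univ i)
    by_contra hne
    have h5 : 1 < ((i : ℕ) + 2) ^ m i := Nat.one_lt_pow hne (by omega)
    omega

section classes
variable {n : ℕ}

/-- the degree on the nodal cubic -/
def cT (T : Finset (Fin n)) (e : ℕ) (m : Fin n → ℕ) : ℤ := 3 * (e : ℤ) - ∑ i ∈ T, (m i : ℤ)

/-- the quadratic form -/
def QT (T : Finset (Fin n)) (e : ℕ) (m : Fin n → ℕ) : ℤ :=
  (e : ℤ) ^ 2 - ∑ i ∈ T, (m i : ℤ) ^ 2 + ((n : ℤ) - 9) * cT T e m ^ 2
    - 2 * cT T e m * ∑ i ∈ Tᶜ, (m i : ℤ)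

theorem exists_nonEff (hn : 10 ≤ n) (T : Finset (Fin n)) (hT : T.card = 9) (e : ℕ) (m : Fin n → ℕ)
    (h : cT T e m < 0 ∨ QT T e m < 0) : ∃ v0 : Fin n → Fin 3 → ℂ, NonEff v0 m e := by
  classical
  obtain ⟨a, ha0, ha, hind⟩ := exists_ten_numbers
  obtain ⟨r, rfl⟩ : ∃ r, n = 9 + (r + 1) := ⟨n - 10, by omega⟩
  have hT1 : Fintype.card {i // i ∈ T} = 9 := by rw [Fintype.card_coe, hT]
  have hT2 : Fintype.card {i // ¬ i ∈ T} = r + 1 := by
    rw [Fintype.card_subtype_compl, hT1, Fintype.card_fin]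
    omega
  set e1 := (Fintype.equivFinOfCardEq hT1).symm with he1
  set e2 := (Fintype.equivFinOfCardEq hT2).symm with he2
  set σ : Fin 9 ⊕ Fin (r + 1) ≃ Fin (9 + (r + 1)) :=
    (Equiv.sumCongr e1 e2).trans (Equiv.sumCompl (fun i => i ∈ T)) with hσ
  have hσ1 : ∀ i, σ (Sum.inl i) = (e1 i : Fin (9 + (r + 1))) := fun i => rfl
  have hσ2 : ∀ i, σ (Sum.inr i) = (e2 i : Fin (9 + (r + 1))) := fun i => rfl
  have s1 : ∀ g : Fin (9 + (r + 1)) → ℤ, ∑ i : Fin 9, g (σ (Sum.inl i)) = ∑ i ∈ T, g i := by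
    intro g
    simp only [hσ1]
    rw [Equiv.sum_comp e1 (fun i => g i)]
    exact Finset.sum_coe_sort T g
  have s2 : ∀ g : Fin (9 + (r + 1)) → ℤ, ∑ i : Fin (r + 1), g (σ (Sum.inr i)) = ∑ i ∈ Tᶜ, g i := by
    intro g
    simp only [hσ2]
    rw [Equiv.sum_comp e2 (fun i => g i)]
    rw [← Finset.sum_coe_sort Tᶜ g]
    apply Fintype.sum_equiv (Equiv.subtypeEquivRight (fun i => (Finset.mem_compl).symm))
    intro x
    rfl
  set nn : Fin 9 → ℤ := fun i => (m (σ (Sum.inl i)) : ℤ) with hnn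
  set νν : Fin (r + 1) → ℕ := fun i => m (σ (Sum.inr i)) with hνν
  have hc : cT T e m = 3 * (e : ℤ) - ∑ i, nn i := by
    rw [cT, hnn, s1 (fun i => (m i : ℤ))]
  have hQ : QT T e m = QQ (r + 1) e nn νν := by
    rw [QT, QQ, hc, hνν, s2 (fun i => (m i : ℤ)), hnn, s1 (fun i => (m i : ℤ) ^ 2)]
    push_cast
    ring
  have key : ∃ q : Fin (r + 1) → Fin 3 → ℂ, NonEff (conf (fun i => a i.castSucc) q) (mlt nn νν) e := by
    rcases h with h | h
    · refine ⟨fun _ => 0, ?_⟩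
      intro F hF hm
      by_contra hF0
      have hdeg := hF.totalDegree hF0
      have h1 := nine_ten ha0 ha F hF0 (by rw [hdeg]; exact hF)
      have h2 : ∀ i : Fin 9, nn i ≤ (mu (th (a i.castSucc)) F : ℤ) := by
        intro i
        have h3 := (mult_iff_mu hF0 _ _).1 (hm (Sum.inl i))
        have h4 := Int.self_le_toNat (nn i)
        have h5 : ((nn i).toNat : ℤ) ≤ (mu (th (a i.castSucc)) F : ℤ) := by exact_mod_cast h3
        linarith
      have h3 : ∑ i, nn i ≤ ∑ i : Fin 9, (mu (th (a i.castSucc)) F : ℤ) :=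
        Finset.sum_le_sum fun i _ => h2 i
      have h4 : ((∑ i : Fin 9, mu (th (a i.castSucc)) F : ℕ) : ℤ) ≤ ((3 * F.totalDegree : ℕ) : ℤ) := by
        exact_mod_cast h1
      push_cast at h4
      rw [hdeg] at h4
      rw [hc] at h
      linarith
    · exact main_induction ha0 ha hind r e nn νν (by rw [← hQ]; exact h)
  obtain ⟨q, hq⟩ := key
  have hm : mlt nn νν = fun i => m (σ i) := by
    funext i
    rcases i with i | i
    · simp [mlt, hnn]
    · simp [mlt, hνν]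
  rw [hm] at hq
  refine ⟨fun i => conf (fun i => a i.castSucc) q (σ.symm i), ?_⟩
  rw [← nonEff_equiv_iff σ]
  simpa using hq

end classes

/-- duality, real numbers -/
theorem nef_real {n : ℕ} (T : Finset (Fin n)) (hT : T.card = 9) {d : ℝ} {D : Fin n → ℝ}
    (hd : 0 ≤ d) (hD : ∑ i, D i ^ 2 ≤ d ^ 2) (hL : ∀ j ∉ T, D j = 3 * d - ∑ i ∈ T, D i)
    {e : ℝ} {μ : Fin n → ℝ} (hc : 0 < 3 * e - ∑ i ∈ T, μ i)
    (hQ : 0 ≤ e ^ 2 - ∑ i ∈ T, μ i ^ 2 + ((n : ℝ) - 9) * (3 * e - ∑ i ∈ T, μ i) ^ 2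
      - 2 * (3 * e - ∑ i ∈ T, μ i) * ∑ i ∈ Tᶜ, μ i) :
    0 ≤ d * e - ∑ i, D i * μ i := by
  classical
  set c := 3 * e - ∑ i ∈ T, μ i with hcdef
  set cD := 3 * d - ∑ i ∈ T, D i with hcD
  have hcard : (Tᶜ.card : ℝ) = (n : ℝ) - 9 := by
    rw [Finset.card_compl, hT, Fintype.card_fin, Nat.cast_sub]
    · norm_num
    · rw [← hT]
      have := Finset.card_le_univ T
      rwa [Fintype.card_fin] at this
  have e1 : ∑ i, D i ^ 2 = ∑ i ∈ T, D i ^ 2 + ((n : ℝ) - 9) * cD ^ 2 := by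
    rw [← Finset.sum_add_sum_compl T]
    congr 1
    rw [Finset.sum_congr rfl (fun j hj => by rw [hL j (Finset.mem_compl.1 hj)])]
    rw [Finset.sum_const, nsmul_eq_mul, hcard]
  have e2 : ∑ i, D i * μ i = ∑ i ∈ T, D i * μ i + cD * ∑ i ∈ Tᶜ, μ i := by
    rw [← Finset.sum_add_sum_compl T]
    congr 1
    rw [Finset.mul_sum]
    exact Finset.sum_congr rfl (fun j hj => by rw [hL j (Finset.mem_compl.1 hj)])
  rw [e1] at hD
  rw [e2]
  have hn9 : 0 ≤ (n : ℝ) - 9 := by rw [← hcard]; positivity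
  have cs1 : (∑ i ∈ T, D i) ^ 2 ≤ 9 * ∑ i ∈ T, D i ^ 2 := by
    have := sq_sum_le_card_mul_sum_sq (s := T) (f := D)
    rw [hT] at this
    exact_mod_cast this
  have h1 : ∑ i ∈ T, D i ^ 2 ≤ d ^ 2 := by nlinarith [mul_nonneg hn9 (sq_nonneg cD)]
  have hcD0 : 0 ≤ cD := by
    have h2 : (∑ i ∈ T, D i) ^ 2 ≤ (3 * d) ^ 2 := by nlinarith
    have h3 := (abs_le_of_sq_le_sq' h2 (by positivity)).2
    rw [hcD]; linarith
  rcases hcD0.lt_or_eq with hpos | hzero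
  · -- the vector `cD • C - c • D`
    have cs2 : (∑ i ∈ T, (cD * μ i - c * D i)) ^ 2 ≤ 9 * ∑ i ∈ T, (cD * μ i - c * D i) ^ 2 := by
      have := sq_sum_le_card_mul_sum_sq (s := T) (f := fun i => cD * μ i - c * D i)
      rw [hT] at this
      exact_mod_cast this
    have e3 : ∑ i ∈ T, (cD * μ i - c * D i) = 3 * (cD * e - c * d) := by
      rw [Finset.sum_sub_distrib, ← Finset.mul_sum, ← Finset.mul_sum]
      have : ∑ i ∈ T, μ i = 3 * e - c := by rw [hcdef]; ring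
      rw [this]
      have : ∑ i ∈ T, D i = 3 * d - cD := by rw [hcD]; ring
      rw [this]
      ring
    have e4 : ∑ i ∈ T, (cD * μ i - c * D i) ^ 2 = cD ^ 2 * ∑ i ∈ T, μ i ^ 2
        - 2 * cD * c * ∑ i ∈ T, D i * μ i + c ^ 2 * ∑ i ∈ T, D i ^ 2 := by
      rw [Finset.mul_sum, Finset.mul_sum, Finset.mul_sum, ← Finset.sum_sub_distrib,
        ← Finset.sum_add_distrib]
      exact Finset.sum_congr rfl fun i _ => by ring
    rw [e3, e4] at cs2
    have h5 : 0 ≤ c ^ 2 * (d ^ 2 - ∑ i ∈ T, D i ^ 2 - ((n : ℝ) - 9) * cD ^ 2) :=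
      mul_nonneg (sq_nonneg _) (by linarith)
    have h6 : 0 ≤ cD ^ 2 * (e ^ 2 - ∑ i ∈ T, μ i ^ 2 + ((n : ℝ) - 9) * c ^ 2
      - 2 * c * ∑ i ∈ Tᶜ, μ i) := mul_nonneg (sq_nonneg _) hQ
    have h7 : 0 ≤ (2 * cD * c) * (d * e - (∑ i ∈ T, D i * μ i + cD * ∑ i ∈ Tᶜ, μ i)) := by
      nlinarith
    exact nonneg_of_mul_nonneg_right h7 (by positivity)
  · have hS : ∑ i ∈ T, D i = 3 * d := by linarith
    have h8 : ∑ i ∈ T, (D i - d / 3) ^ 2 = ∑ i ∈ T, D i ^ 2 - d ^ 2 := by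
      have : ∑ i ∈ T, (D i - d / 3) ^ 2 =
          ∑ i ∈ T, D i ^ 2 - 2 * (d / 3) * ∑ i ∈ T, D i + 9 * (d / 3) ^ 2 := by
        have h9 : (9 : ℝ) * (d / 3) ^ 2 = ∑ i ∈ T, (d / 3) ^ 2 := by
          rw [Finset.sum_const, hT, nsmul_eq_mul]; norm_num
        rw [h9, Finset.mul_sum, ← Finset.sum_sub_distrib, ← Finset.sum_add_distrib]
        exact Finset.sum_congr rfl fun i _ => by ring
      rw [this, hS]; ring
    have h9 : ∀ i ∈ T, D i = d / 3 := by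
      have h10 : ∑ i ∈ T, (D i - d / 3) ^ 2 = 0 :=
        le_antisymm (by rw [h8]; linarith) (Finset.sum_nonneg fun i _ => sq_nonneg _)
      intro i hi
      have := (Finset.sum_eq_zero_iff_of_nonneg (fun i _ => sq_nonneg (D i - d / 3))).1 h10 i hi
      have h11 := pow_eq_zero_iff (two_ne_zero) |>.1 this
      linarith
    have h10 : ∑ i ∈ T, D i * μ i = (d / 3) * ∑ i ∈ T, μ i := by
      rw [Finset.mul_sum]
      exact Finset.sum_congr rfl fun i hi => by rw [h9 i hi]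
    rw [h10, ← hzero]
    have : ∑ i ∈ T, μ i = 3 * e - c := by rw [hcdef]; ring
    rw [this]
    have h11 : 0 ≤ d * c := mul_nonneg hd hc.le
    nlinarith

theorem mu_pow {K : Type*} [Field K] (v : Fin 3 → K) {F : MvPolynomial (Fin 3) K} (hF0 : F ≠ 0)
    (N : ℕ) : mu v (F ^ N) = N * mu v F := by
  induction N with
  | zero => rw [pow_zero, zero_mul]; exact mu_unit _ isUnit_one
  | succ N ih =>
    rw [pow_succ, mu_mul _ (pow_ne_zero _ hF0) hF0, ih]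
    ring

/-- nefness against effective classes at a configuration where every class with `c < 0` or
`Q < 0` is not effective -/
theorem nef_eff {n : ℕ} (T : Finset (Fin n)) (hT : T.card = 9) {v : Fin n → Fin 3 → ℂ}
    (hv : ∀ (e : ℕ) (m : Fin n → ℕ), (cT T e m < 0 ∨ QT T e m < 0) → NonEff v m e)
    {d : ℝ} {D : Fin n → ℝ}
    (hd : 0 ≤ d) (hD : ∑ i, D i ^ 2 ≤ d ^ 2) (hL : ∀ j ∉ T, D j = 3 * d - ∑ i ∈ T, D i)
    {F : MvPolynomial (Fin 3) ℂ} {e : ℕ} {m : Fin n → ℕ} (hF : F.IsHomogeneous e) (hF0 : F ≠ 0)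
    (hm : ∀ i, Mult F (v i) (m i)) : 0 ≤ d * e - ∑ i, D i * (m i : ℝ) := by
  have heff : ∀ (e : ℕ) (m : Fin n → ℕ) (F : MvPolynomial (Fin 3) ℂ), F ≠ 0 → F.IsHomogeneous e →
      (∀ i, Mult F (v i) (m i)) → 0 ≤ cT T e m ∧ 0 ≤ QT T e m := by
    intro e m F hF0 hF hm
    constructor
    · by_contra h
      exact hF0 (hv e m (Or.inl (not_le.1 h)) F hF hm)
    · by_contra h
      exact hF0 (hv e m (Or.inr (not_le.1 h)) F hF hm)
  have hc := (heff e m F hF0 hF hm).1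
  have key : ∀ N : ℕ, 0 ≤ d * (N * e + 1) - ∑ i, D i * ((N : ℝ) * m i) := by
    intro N
    have hG0 : F ^ N * X 0 ≠ 0 := mul_ne_zero (pow_ne_zero _ hF0) (X_ne_zero _)
    have hG : (F ^ N * X 0).IsHomogeneous (N * e + 1) := by
      have := (hF.pow N).mul (isHomogeneous_X ℂ (0 : Fin 3))
      rwa [mul_comm e N] at this
    have hGm : ∀ i, Mult (F ^ N * X 0) (v i) (N * m i) := by
      intro i
      rw [mult_iff_mu hG0, mu_mul _ (pow_ne_zero _ hF0) (X_ne_zero _), mu_pow _ hF0]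
      have h1 := (mult_iff_mu hF0 _ _).1 (hm i)
      have := Nat.mul_le_mul_left N h1
      omega
    obtain ⟨h1, h2⟩ := heff _ _ _ hG0 hG hGm
    have e1 : cT T (N * e + 1) (fun i => N * m i) = N * cT T e m + 3 := by
      rw [cT, cT]
      push_cast
      rw [← Finset.mul_sum]
      ring
    have hc' : 0 < cT T (N * e + 1) (fun i => N * m i) := by
      rw [e1]
      positivity
    have hcr : (0 : ℝ) < ((cT T (N * e + 1) (fun i => N * m i) : ℤ) : ℝ) := by exact_mod_cast hc'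
    have hQr : (0 : ℝ) ≤ ((QT T (N * e + 1) (fun i => N * m i) : ℤ) : ℝ) := by exact_mod_cast h2
    have ec : ((cT T (N * e + 1) (fun i => N * m i) : ℤ) : ℝ) =
        3 * ((N : ℝ) * e + 1) - ∑ i ∈ T, (N : ℝ) * m i := by
      rw [cT]
      push_cast
      ring
    rw [QT] at hQr
    push_cast at hQr
    rw [ec] at hcr hQr
    exact nef_real T hT hd hD hL (μ := fun i => (N : ℝ) * m i) hcr hQr
  by_contra hneg
  push Not at hneg
  set ε := -(d * e - ∑ i, D i * (m i : ℝ)) with hε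
  have hε0 : 0 < ε := by rw [hε]; linarith
  obtain ⟨N, hN⟩ := exists_nat_gt (d / ε)
  have h1 := key N
  have h2 : ∑ i, D i * ((N : ℝ) * m i) = N * ∑ i, D i * (m i : ℝ) := by
    rw [Finset.mul_sum]
    exact Finset.sum_congr rfl fun i _ => by ring
  rw [h2] at h1
  have h3 : (N : ℝ) * ε ≤ d := by
    have : (N : ℝ) * ε = -((N : ℝ) * (d * e - ∑ i, D i * (m i : ℝ))) := by rw [hε]; ring
    rw [this]
    nlinarith
  rw [div_lt_iff₀ hε0] at hN
  linarith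

end Pool.Agent.H951R2
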